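import Pool.Agent.TH796.AL.Nv

set_option autoImplicit false

/-!
# Project AL, job 4074: products of independent functions are independent
-/

namespace Pool.Agent.TH979.ALN

open Pool.Agent.TH796.AL.Nv

theorem indep : IndepProdStmt := by
  classical
  intro K _ Γ _ p V W hV hW A A' _ _ F G hF hG iF iG ρ hρ
  -- the relation at a point
  have rel : ∀ g, ∑ a, ∑ b, ∑ h ∈ (ρ a b).coeff.support,
      (ρ a b).coeff h * (F a (p (g - h)) * G b (g - h - p (g - h))) = 0 := by
    intro g
    have h1 := congrFun hρ g
    simp only [Finset.sum_apply, Pi.zero_apply, act_apply] at h1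
    exact h1
  -- first step
  have step1 : ∀ (g0 : Γ) (a : A), (∑ b, ∑ h ∈ (ρ a b).coeff.support,
      (if p g0 - p h ∈ V then
        AddMonoidAlgebra.single (p h) ((ρ a b).coeff h * G b (g0 - h - p (g0 - h)))
      else (0 : AddMonoidAlgebra K Γ))) = 0 := by
    intro g0
    apply iF
    funext x
    simp only [Finset.sum_apply, Pi.zero_apply, map_sum, LinearMap.sum_apply]
    have hterm : ∀ (a : A) (b : A') (h : Γ),
        act (if p g0 - p h ∈ V then
          AddMonoidAlgebra.single (p h) ((ρ a b).coeff h * G b (g0 - h - p (g0 - h)))
          else (0 : AddMonoidAlgebra K Γ)) (F a) x =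
        if p g0 - p h ∈ V then
          (ρ a b).coeff h * G b (g0 - h - p (g0 - h)) * F a (x - p h) else 0 := by
      intro a b h
      split_ifs with hc
      · rw [act_single]
      · simp
    simp only [hterm]
    by_cases hx : x - p g0 ∈ V
    · have h1 := rel (g0 + (x - p g0))
      refine Eq.trans ?_ h1
      refine Finset.sum_congr rfl fun a _ => Finset.sum_congr rfl fun b _ =>
        Finset.sum_congr rfl fun h _ => ?_
      have e1 : p (g0 + (x - p g0) - h) = x - p h := by
        rw [map_sub, map_add, hV _ hx]; abel
      have e2 : g0 + (x - p g0) - h - (x - p h) = g0 - h - p (g0 - h) := by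
        rw [map_sub]; abel
      rw [e1, e2]
      split_ifs with hc
      · ring
      · have : F a (x - p h) = 0 := by
          by_contra hne
          apply hc
          have h2 := V.sub_mem (hF a _ hne) hx
          have e3 : x - p h - (x - p g0) = p g0 - p h := by abel
          rwa [e3] at h2
        rw [this]; ring
    · refine Finset.sum_eq_zero fun a _ => Finset.sum_eq_zero fun b _ =>
        Finset.sum_eq_zero fun h _ => ?_
      split_ifs with hc
      · have : F a (x - p h) = 0 := by
          by_contra hne
          apply hx
          have h2 := V.sub_mem (hF a _ hne) hc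
          have e3 : x - p h - (p g0 - p h) = x - p g0 := by abel
          rwa [e3] at h2
        rw [this]; ring
      · rfl
  -- the coefficient form of the first step
  have step1' : ∀ (g0 : Γ) (a : A) (k : Γ), p g0 = k →
      ∑ b, ∑ h ∈ (ρ a b).coeff.support,
        (if p h = k then (ρ a b).coeff h * G b (g0 - h - p (g0 - h)) else 0) = 0 := by
    intro g0 a k hk
    have h1 := congrArg (fun r : AddMonoidAlgebra K Γ => r.coeff k) (step1 g0 a)
    simp only [AddMonoidAlgebra.coeff_sum, Finsupp.finsetSum_apply,
      AddMonoidAlgebra.coeff_zero, Finsupp.zero_apply] at h1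
    refine Eq.trans ?_ h1
    refine Finset.sum_congr rfl fun b _ => Finset.sum_congr rfl fun h _ => ?_
    by_cases hc : p h = k
    · have hm : p g0 - p h ∈ V := by rw [hk, hc, sub_self]; exact V.zero_mem
      rw [if_pos hc, if_pos hm, AddMonoidAlgebra.coeff_single, hc, Finsupp.single_eq_same]
    · rw [if_neg hc]
      split_ifs with hm
      · rw [AddMonoidAlgebra.coeff_single, Finsupp.single_apply, if_neg hc]
      · simp
  -- second step
  intro a
  have step2 : ∀ (k : Γ) (b : A'), (∑ h ∈ (ρ a b).coeff.support,
      (if p h = k then AddMonoidAlgebra.single (h - p h) ((ρ a b).coeff h)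
      else (0 : AddMonoidAlgebra K Γ))) = 0 := by
    intro k
    apply iG
    funext v
    simp only [Finset.sum_apply, Pi.zero_apply, map_sum, LinearMap.sum_apply]
    have hterm : ∀ (b : A') (h : Γ),
        act (if p h = k then AddMonoidAlgebra.single (h - p h) ((ρ a b).coeff h)
          else (0 : AddMonoidAlgebra K Γ)) (G b) v =
        if p h = k then (ρ a b).coeff h * G b (v - (h - p h)) else 0 := by
      intro b h
      split_ifs with hc
      · rw [act_single]
      · simp
    simp only [hterm]
    by_cases hex : ∃ h0, p h0 = k ∧ v - (h0 - p h0) ∈ W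
    · obtain ⟨h0, hk, hw⟩ := hex
      have hpg : p (v - (h0 - p h0) + h0) = k := by
        rw [map_add, hW _ hw, hk, zero_add]
      have h1 := step1' (v - (h0 - p h0) + h0) a k hpg
      refine Eq.trans ?_ h1
      refine Finset.sum_congr rfl fun b _ => Finset.sum_congr rfl fun h _ => ?_
      by_cases hc : p h = k
      · rw [if_pos hc, if_pos hc]
        congr 2
        rw [map_sub, hpg, hc, hk]
        abel
      · rw [if_neg hc, if_neg hc]
    · refine Finset.sum_eq_zero fun b _ => Finset.sum_eq_zero fun h _ => ?_
      split_ifs with hc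
      · have : G b (v - (h - p h)) = 0 := by
          by_contra hne
          exact hex ⟨h, hc, hG b _ hne⟩
        rw [this, mul_zero]
      · rfl
  intro b
  apply AddMonoidAlgebra.coeff_injective
  ext h1
  have h2 := congrArg (fun r : AddMonoidAlgebra K Γ => r.coeff (h1 - p h1)) (step2 (p h1) b)
  simp only [AddMonoidAlgebra.coeff_sum, Finsupp.finsetSum_apply,
    AddMonoidAlgebra.coeff_zero, Finsupp.zero_apply] at h2
  rw [AddMonoidAlgebra.coeff_zero, Finsupp.zero_apply]
  by_contra hne
  rw [Finset.sum_eq_single h1] at h2
  · rw [if_pos rfl, AddMonoidAlgebra.coeff_single, Finsupp.single_eq_same] at h2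
    exact hne h2
  · intro h _ hh
    split_ifs with hc
    · rw [AddMonoidAlgebra.coeff_single, Finsupp.single_apply, if_neg]
      intro h3
      apply hh
      rw [hc] at h3
      exact sub_left_injective h3
    · simp
  · intro h3
    rw [Finsupp.notMem_support_iff] at h3
    exact absurd h3 hne

end Pool.Agent.TH979.ALN
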