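import Pool.Agent.TH37.SD.Defs
import Pool.Agent.TH95.NR.J1
import Pool.Agent.TH95.NR.J3
import Pool.Agent.TH95.NR.J4

/-!
# The Burnside quotient of the central extension of an HNN extension (job 3276, helper979)
-/

set_option autoImplicit false

namespace Pool.Agent.TH979.SDB3

open Pool.Agent.TH54.BU Pool.Agent.TH95.NR Pool.Agent.TH37.SD

theorem core (hB : BqStmt) (hH : HatStmt) : CoreStmt := by
  obtain ⟨K, B, T, hK, hKB, hT, p0, hq⟩ := hB
  refine ⟨p0, fun p hp hpp C L _ _ π z hAE U V ψ Uh Vh ψh hUh hVh hψ hz hMU hMV hSep E hE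
    hEC => ?_⟩
  obtain ⟨φ, φof, φt, φsurj, φker, φcen⟩ := hH C L π z hAE.surj hAE.ker hAE.cen U V ψ Uh Vh ψh
    hUh hVh hψ hz
  obtain ⟨P, hP0, hPw, hPex, hPar, hPni⟩ := hnn_pl L U V ψ
  have hπz : π z = 1 := by
    have : z ∈ π.ker := by rw [hAE.ker]; exact Subgroup.mem_zpowers z
    exact this
  -- acylindricity
  have hA : ∀ a ∈ U, ∀ q, q ∉ U → q⁻¹ * a * q ∈ U → a = 1 := by
    intro a ha q hqU h
    by_contra hne
    have := hMU a ha hne q⁻¹ (by rwa [inv_inv])
    exact hqU (by simpa using U.inv_mem this)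
  have hBm : ∀ b ∈ V, ∀ q, q ∉ V → q⁻¹ * b * q ∈ V → b = 1 := by
    intro a ha q hqU h
    by_contra hne
    have := hMV a ha hne q⁻¹ (by rwa [inv_inv])
    exact hqU (by simpa using V.inv_mem this)
  have hc : ∀ a ∈ U, ∀ (q r : L) (h : q⁻¹ * a * q ∈ V),
      r⁻¹ * (ψ.symm ⟨q⁻¹ * a * q, h⟩ : L) * r ∈ V → a = 1 := by
    intro a ha q r h _
    by_contra hne
    exact hSep a ha hne q⁻¹ (by rwa [inv_inv])
  have hd : ∀ b ∈ V, ∀ (q r : L) (h : q⁻¹ * b * q ∈ U),
      r⁻¹ * (ψ ⟨q⁻¹ * b * q, h⟩ : L) * r ∈ U → b = 1 := by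
    intro b hb q r h _
    by_contra hne
    have h1 : q⁻¹ * b * q ≠ 1 := by
      intro h2
      apply hne
      have h3 : b = q * (q⁻¹ * b * q) * q⁻¹ := by group
      rw [h3, h2]
      group
    apply hSep _ h h1 q
    have h3 : q * (q⁻¹ * b * q) * q⁻¹ = b := by group
    rw [h3]
    exact hb
  have hac := hnn_ac L U V ψ hA hBm hc hd P hP0 hPw hPex
  have hexp : ∀ x : L, x ^ p = 1 := by
    intro x
    obtain ⟨c, rfl⟩ := hAE.surj x
    by_cases h1 : π c = 1
    · rw [h1, one_pow]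
    · obtain ⟨k, hk, _⟩ := hAE.pw c h1
      rw [← map_pow, hk, map_zpow, hπz, one_zpow]
  have htor : ∀ g : HNNExtension L U V ψ, P.len g = 0 → g ^ p = 1 := by
    intro g hg
    obtain ⟨x, rfl⟩ := (hP0 g).1 hg
    rw [← map_pow, hexp, map_one]
  obtain ⟨H, hD, hS, hAcy, hfin, hlen⟩ := tree_gh P p hp.pos hPar hPni hac htor
  have hST : H.Stab T := by
    intro g hg m
    have := hS g hg m
    calc m ≤ 1 * H.len (g ^ m) := this
      _ ≤ T * H.len (g ^ m) := Nat.mul_le_mul_right _ hT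
  have hof1 : ∀ l : L, H.len (HNNExtension.of l : HNNExtension L U V ψ) ≤ 1 := by
    intro l
    have h3 : P.len (HNNExtension.of l : HNNExtension L U V ψ) = 0 := (hP0 _).2 ⟨l, rfl⟩
    have h4 := hlen (HNNExtension.of l)
    rw [h3] at h4
    simpa using h4
  have hp1 : ¬ (p : ℤ) ∣ 1 := by
    intro h
    have h2 := Int.natCast_dvd_natCast.1 (by simpa using h : ((p : ℕ) : ℤ) ∣ ((1 : ℕ) : ℤ))
    exact hp.one_lt.ne' (Nat.dvd_one.1 h2)
  -- torsion elements
  have htors : ∀ a : HNNExtension C Uh Vh ψh, IsOfFinOrder (φ a) → φ a ≠ 1 →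
      ∃ k : ℤ, a ^ p = (HNNExtension.of z : HNNExtension C Uh Vh ψh) ^ k ∧ E (φ a) k := by
    intro a ha hne
    rcases J1.dichotomy P hPar hPni (φ a) with ⟨u, hu⟩ | h
    · obtain ⟨l, hl⟩ := (hP0 _).1 hu
      obtain ⟨y, rfl⟩ := φsurj u
      obtain ⟨c, rfl⟩ := hAE.surj l
      have h1 : (HNNExtension.of c)⁻¹ * (y⁻¹ * a * y) ∈ φ.ker := by
        rw [MonoidHom.mem_ker, map_mul, map_inv, φof, hl, map_mul, map_mul, map_inv]
        group
      rw [φker] at h1
      obtain ⟨j, hj⟩ := Subgroup.mem_zpowers_iff.1 h1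
      have h2 : a = y * HNNExtension.of (c * z ^ j) * y⁻¹ := by
        rw [map_mul, map_zpow, hj]
        group
      have h3 : π (c * z ^ j) = π c := by
        rw [map_mul, map_zpow, hπz, one_zpow, mul_one]
      have h4 : φ a = φ y * HNNExtension.of (π (c * z ^ j)) * (φ y)⁻¹ := by
        rw [h2, map_mul, map_mul, map_inv, φof]
      have h5 : π (c * z ^ j) ≠ 1 := by
        intro h6
        apply hne
        rw [h4, h6, map_one]
        group
      obtain ⟨k, hk, hEk⟩ := hEC (c * z ^ j) h5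
      refine ⟨k, ?_, ?_⟩
      · rw [h2, conj_pow, ← map_pow, hk, map_zpow]
        have h6 : Commute y ((HNNExtension.of z : HNNExtension C Uh Vh ψh) ^ k) :=
          Commute.zpow_right (φcen y) k
        rw [h6.eq]
        group
      · have h6 := hE.pw _ (φ y) k 1 hp1 hEk
        rw [zpow_one, one_mul, ← h4] at h6
        exact h6
    · exfalso
      obtain ⟨n, hn, hn1⟩ := isOfFinOrder_iff_pow_eq_one.1 ha
      have := h n
      rw [hn1, P.len_one] at this
      omega
  have hzp : (HNNExtension.of z : HNNExtension C Uh Vh ψh) ^ p = 1 := by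
    rw [← map_pow, hAE.zp, map_one]
  obtain ⟨N, hNn, hmap, hinj, hpw, hsmall, hconj⟩ := hq p hp hpp (HNNExtension C Uh Vh ψh)
    (HNNExtension L U V ψ) φ φsurj (HNNExtension.of z) φcen hzp φker E hE htors H hD hST
    (hAcy K B hKB)
  have hle : N ≤ (powSub (HNNExtension L U V ψ) p).comap φ := by
    rw [← hmap]
    exact Subgroup.le_comap_map φ N
  have hker : ∀ a : HNNExtension C Uh Vh ψh, φ a ∈ powSub (HNNExtension L U V ψ) p →
      ∃ n ∈ N, ∃ k : ℤ, a = n * (HNNExtension.of z : HNNExtension C Uh Vh ψh) ^ k := by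
    intro a ha
    rw [← hmap] at ha
    obtain ⟨n, hn, hna⟩ := ha
    have h1 : n⁻¹ * a ∈ φ.ker := by
      rw [MonoidHom.mem_ker, map_mul, map_inv, hna, inv_mul_cancel]
    rw [φker] at h1
    obtain ⟨k, hk⟩ := Subgroup.mem_zpowers_iff.1 h1
    refine ⟨n, hn, k, ?_⟩
    rw [hk]
    group
  let π' : HNNExtension C Uh Vh ψh ⧸ N →*
      HNNExtension L U V ψ ⧸ powSub (HNNExtension L U V ψ) p :=
    QuotientGroup.map N (powSub (HNNExtension L U V ψ) p) φ hle
  let ι : C →* HNNExtension C Uh Vh ψh ⧸ N := (QuotientGroup.mk' N).comp HNNExtension.of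
  have hπ' : ∀ a : HNNExtension C Uh Vh ψh, π' (QuotientGroup.mk' N a) =
      ((φ a : HNNExtension L U V ψ) : _ ⧸ powSub (HNNExtension L U V ψ) p) := fun a => rfl
  have hsm : ∀ l : L, (HNNExtension.of l : HNNExtension L U V ψ) ∈
      powSub (HNNExtension L U V ψ) p → l = 1 := by
    intro l hl
    have h5 := hsmall _ ((hof1 l).trans (by norm_num)) hl
    exact (map_eq_one_iff _ (HNNExtension.of_injective ψ)).1 h5
  refine ⟨HNNExtension C Uh Vh ψh ⧸ N, inferInstance, π', ι,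
    QuotientGroup.mk' N (HNNExtension.t), ?_, ?_, ?_, ?_, ?_, ?_, ?_, ?_, hsm, ?_⟩
  · intro x
    obtain ⟨g, rfl⟩ := QuotientGroup.mk_surjective x
    obtain ⟨a, rfl⟩ := φsurj g
    exact ⟨QuotientGroup.mk' N a, rfl⟩
  · ext x
    obtain ⟨a, rfl⟩ := QuotientGroup.mk'_surjective N x
    constructor
    · intro hx
      have h1 : φ a ∈ powSub (HNNExtension L U V ψ) p :=
        (QuotientGroup.eq_one_iff _).1 (MonoidHom.mem_ker.1 hx)
      obtain ⟨n, hn, k, hk⟩ := hker a h1
      refine Subgroup.mem_zpowers_iff.2 ⟨k, ?_⟩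
      have h2 : QuotientGroup.mk' N n = 1 := (QuotientGroup.eq_one_iff _).2 hn
      rw [hk, map_mul, h2, one_mul, map_zpow]
      rfl
    · intro hx
      obtain ⟨k, hk⟩ := Subgroup.mem_zpowers_iff.1 hx
      rw [MonoidHom.mem_ker, ← hk, map_zpow]
      have h2 : π' (ι z) = 1 := by
        show π' (QuotientGroup.mk' N (HNNExtension.of z)) = 1
        rw [hπ', φof, hπz, map_one]
        rfl
      rw [h2, one_zpow]
  · intro x
    obtain ⟨a, rfl⟩ := QuotientGroup.mk'_surjective N x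
    show QuotientGroup.mk' N a * QuotientGroup.mk' N (HNNExtension.of z) =
      QuotientGroup.mk' N (HNNExtension.of z) * QuotientGroup.mk' N a
    rw [← map_mul, ← map_mul, φcen]
  · rw [injective_iff_map_eq_one]
    intro c hc'
    have h1 : (HNNExtension.of c : HNNExtension C Uh Vh ψh) ∈ N :=
      (QuotientGroup.eq_one_iff _).1 hc'
    have h2 : φ (HNNExtension.of c) ∈ powSub (HNNExtension L U V ψ) p := hle h1
    rw [φof] at h2
    have h3 := hsm _ h2
    have h4 := hinj _ h1 (by rw [φof, h3, map_one])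
    exact (map_eq_one_iff _ (HNNExtension.of_injective ψh)).1 h4
  · intro c
    show π' (QuotientGroup.mk' N (HNNExtension.of c)) = _
    rw [hπ', φof]
  · rw [hπ', φt]
  · intro c
    have h := HNNExtension.equiv_eq_conj (φ := ψh) c
    have := congrArg (QuotientGroup.mk' N) h
    rw [map_mul, map_mul, map_inv] at this
    exact this.symm
  · intro c' hc'
    obtain ⟨a, rfl⟩ := QuotientGroup.mk'_surjective N c'
    have h1 : φ a ∉ powSub (HNNExtension L U V ψ) p := by
      intro h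
      exact hc' ((QuotientGroup.eq_one_iff _).2 h)
    obtain ⟨k, hk, hEk⟩ := hpw a h1
    refine ⟨φ a, k, rfl, ?_, hEk⟩
    have h2 : QuotientGroup.mk' N (a ^ p * (HNNExtension.of z) ^ (-k)) = 1 :=
      (QuotientGroup.eq_one_iff _).2 hk
    rw [map_mul, map_pow, map_zpow, zpow_neg, mul_inv_eq_one] at h2
    exact h2
  · intro x x' y hx' h
    have hinjof := HNNExtension.of_injective ψ
    refine hconj _ _ y ?_ ?_ (hof1 x) (hof1 x') h
    · exact isOfFinOrder_iff_pow_eq_one.2 ⟨p, hp.pos, by rw [← map_pow, hexp, map_one]⟩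
    · intro h1
      exact hx' ((map_eq_one_iff _ hinjof).1 h1)

end Pool.Agent.TH979.SDB3
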