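import Pool.Agent.TH979.Final

set_option autoImplicit false

/-! The step law is a symmetric probability measure. -/

namespace Pool.Agent.TH979

open Finset Set Filter

/-- the step law -/
noncomputable def nu : GG →₀ ℝ := stepm (wI tc) yI

/-- the involution on the steps -/
def sg : ((Fin 6 → Bool) ⊕ Bool) ≃ ((Fin 6 → Bool) ⊕ Bool) :=
  Equiv.sumCongr (Equiv.piCongrRight (fun _ => Equiv.boolNot)) Equiv.boolNot

theorem yI_sg (s : (Fin 6 → Bool) ⊕ Bool) : yI (sg s) = (yI s)⁻¹ := by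
  cases s with
  | inl ε =>
    show em true (vec _) = (em true (vec ε))⁻¹
    rw [← map_inv]
    congr 1
    apply Multiplicative.toAdd.injective
    rw [toAdd_inv]
    unfold vec
    rw [toAdd_ofAdd, toAdd_ofAdd]
    funext j
    show (if (!(ε j)) = true then (1 : ℤ) else -1) = -(if ε j = true then (1 : ℤ) else -1)
    cases ε j <;> simp
  | inr b =>
    show em false (stB (!b)) = (em false (stB b))⁻¹
    rw [← map_inv]
    congr 1
    unfold stB
    cases b <;> simp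

theorem wI_sg (t : ℝ) (s : (Fin 6 → Bool) ⊕ Bool) : wI t (sg s) = wI t s := by
  cases s with
  | inl ε => rfl
  | inr b => rfl

theorem nu_apply (x : GG) : nu x = ∑ s, Finsupp.single (yI s) (wI tc s) x := by
  unfold nu stepm
  rw [Finsupp.finsetSum_apply]

theorem nu_nonneg (x : GG) : 0 ≤ nu x := by
  rw [nu_apply]
  refine Finset.sum_nonneg fun s _ => ?_
  classical
  rw [Finsupp.single_apply]
  split_ifs
  · exact wI_nonneg tc_pos s
  · exact le_rfl

theorem nu_sum : nu.sum (fun _ a => a) = 1 := by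
  unfold nu
  rw [stepm_sum _ _ (fun _ a => a) (fun _ => rfl) (fun _ _ _ => rfl)]
  exact wI_sum tc_pos

theorem stepm_symm {G : Type} [Group G] {I : Type} [Fintype I] (w : I → ℝ) (y : I → G) (σ : I ≃ I)
    (hw : ∀ s, w (σ s) = w s) (hy : ∀ s, y (σ s) = (y s)⁻¹) (x : G) :
    stepm w y x⁻¹ = stepm w y x := by
  classical
  unfold stepm
  rw [Finsupp.finsetSum_apply, Finsupp.finsetSum_apply, ← Equiv.sum_comp σ]
  refine Finset.sum_congr rfl fun s _ => ?_
  rw [hy, hw, Finsupp.single_apply, Finsupp.single_apply]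
  simp only [inv_inj]

theorem iter_eq (n : ℕ) :
    ((fun (h : GG → ℝ) (x : GG) => nu.sum (fun y a => a * h (y⁻¹ * x)))^[2 * n]
      (Set.indicator ({1} : Set GG) (fun _ => (1 : ℝ)))) 1 = qn n := by
  unfold qn TT
  rw [Module.End.pow_apply]
  rfl

/-- existence of the operator norm -/
theorem exists_rho : ∃ ρ : ℝ, 0 ≤ ρ ∧
    (∀ g : GG →₀ ℝ, ∀ T : Finset GG,
      ∑ x ∈ T, (nu.sum (fun y a => a * g (y⁻¹ * x))) ^ 2 ≤ ρ ^ 2 * g.sum (fun _ a => a ^ 2)) ∧
    (∀ r : ℝ, 0 ≤ r → r < ρ → ∃ g : GG →₀ ℝ, ∃ T : Finset GG,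
      r ^ 2 * g.sum (fun _ a => a ^ 2) < ∑ x ∈ T, (nu.sum (fun y a => a * g (y⁻¹ * x))) ^ 2) := by
  set R : Set ℝ := {r | 0 ≤ r ∧ ∀ g : GG →₀ ℝ, ∀ T : Finset GG,
      ∑ x ∈ T, (nu.sum (fun y a => a * g (y⁻¹ * x))) ^ 2 ≤ r ^ 2 * g.sum (fun _ a => a ^ 2)} with hR
  have hne : R.Nonempty := by
    obtain ⟨S, -, C, s, h⟩ := rd_GG
    set W : ℝ := (nu.sum (fun x a => a ^ 2 *
                  (1 + ((sInf {n : ℕ | ∃ l : List GG, l.length = n ∧
                      (∀ y ∈ l, y ∈ S ∨ y⁻¹ ∈ S) ∧ l.prod = x} : ℕ) : ℝ)) ^ (2 * s))) with hW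
    refine ⟨Real.sqrt |C * W|, Real.sqrt_nonneg _, fun g T => ?_⟩
    have h1 := h nu g T
    rw [Real.sq_sqrt (abs_nonneg _)]
    refine h1.trans ?_
    refine mul_le_mul_of_nonneg_right (le_abs_self _) ?_
    exact Finset.sum_nonneg fun i _ => by positivity
  have hbdd : BddBelow R := ⟨0, fun r hr => hr.1⟩
  have hclosed : IsClosed R := by
    have e : R = {r | 0 ≤ r} ∩ ⋂ (g : GG →₀ ℝ), ⋂ (T : Finset GG), {r |
      ∑ x ∈ T, (nu.sum (fun y a => a * g (y⁻¹ * x))) ^ 2 ≤ r ^ 2 * g.sum (fun _ a => a ^ 2)} := by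
      ext r
      simp only [hR, Set.mem_ofPred_eq, Set.mem_inter_iff, Set.mem_iInter]
    rw [e]
    refine (isClosed_le continuous_const continuous_id).inter ?_
    refine isClosed_iInter fun g => isClosed_iInter fun T => ?_
    exact isClosed_le continuous_const (by fun_prop)
  have hmem := hclosed.csInf_mem hne hbdd
  refine ⟨sInf R, hmem.1, hmem.2, fun r hr0 hr => ?_⟩
  by_contra hcon
  push Not at hcon
  have : r ∈ R := ⟨hr0, fun g T => hcon g T⟩
  exact absurd (csInf_le hbdd this) (not_le.2 hr)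

end Pool.Agent.TH979
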