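import Pool.Agent.TH229.PG.GeoDefs

/-!
# Taylor expansion of a logarithmic derivative at the diagonal (helper979 for helper229)
-/

set_option autoImplicit false

namespace Pool.Agent.TH979.PGTaylor

open Real Filter Topology MeasureTheory Set Pool.Agent.TH229.PG
open scoped ContDiff

/-- the mean value inequality -/
theorem mv {φ φ' : ℝ → ℝ} {K : ℝ} {k : ℕ} (hK : 0 ≤ K) (h : ∀ t, HasDerivAt φ (φ' t) t)
    (hb : ∀ t, |φ' t| ≤ K * |t| ^ k) (h0 : φ 0 = 0) (d : ℝ) : |φ d| ≤ K * |d| ^ (k + 1) := by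
  have h1 := (convex_uIcc (0 : ℝ) d).norm_image_sub_le_of_norm_hasDerivWithin_le
    (f := φ) (f' := φ') (C := K * |d| ^ k) (fun t _ => (h t).hasDerivWithinAt)
    (fun t ht => by
      rw [Real.norm_eq_abs]
      refine (hb t).trans (mul_le_mul_of_nonneg_left (pow_le_pow_left₀ (abs_nonneg _) ?_ k) hK)
      have := abs_sub_left_of_mem_uIcc ht
      simpa using this)
    (left_mem_uIcc) (right_mem_uIcc)
  rw [h0, sub_zero, sub_zero, Real.norm_eq_abs, Real.norm_eq_abs] at h1
  rw [pow_succ, ← mul_assoc]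
  exact h1

/-- Taylor's formula of order three -/
theorem taylor {h h1 h2 h3 h4 : ℝ → ℝ} {K : ℝ} (hK : 0 ≤ K) (d0 : ∀ t, HasDerivAt h (h1 t) t)
    (d1 : ∀ t, HasDerivAt h1 (h2 t) t) (d2 : ∀ t, HasDerivAt h2 (h3 t) t)
    (d3 : ∀ t, HasDerivAt h3 (h4 t) t) (hb : ∀ t, |h4 t| ≤ K) (x d : ℝ) :
    |h (x + d) - (h x + h1 x * d + h2 x * d ^ 2 / 2 + h3 x * d ^ 3 / 6)| ≤ K * |d| ^ 4 := by
  have e : ∀ {p p' : ℝ → ℝ}, (∀ t, HasDerivAt p (p' t) t) → ∀ t,
      HasDerivAt (fun t => p (x + t)) (p' (x + t)) t := fun hp t => by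
    simpa using (hp (x + t)).comp_const_add x t
  have b3 : ∀ t, |h3 (x + t) - h3 x| ≤ K * |t| ^ 1 :=
    mv (k := 0) hK (φ := fun t => h3 (x + t) - h3 x) (φ' := fun t => h4 (x + t))
      (fun t => (e d3 t).sub_const _) (fun t => by simpa using hb (x + t)) (by simp)
  have b2 : ∀ t, |h2 (x + t) - h2 x - h3 x * t| ≤ K * |t| ^ 2 :=
    mv (k := 1) hK (φ := fun t => h2 (x + t) - h2 x - h3 x * t)
      (φ' := fun t => h3 (x + t) - h3 x)
      (fun t => by
        have := ((e d2 t).sub_const (h2 x)).sub ((hasDerivAt_id t).const_mul (h3 x))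
        refine this.congr_deriv ?_
        simp) b3 (by simp)
  have b1 : ∀ t, |h1 (x + t) - h1 x - h2 x * t - h3 x * t ^ 2 / 2| ≤ K * |t| ^ 3 :=
    mv (k := 2) hK (φ := fun t => h1 (x + t) - h1 x - h2 x * t - h3 x * t ^ 2 / 2)
      (φ' := fun t => h2 (x + t) - h2 x - h3 x * t)
      (fun t => by
        have := (((e d1 t).sub_const (h1 x)).sub ((hasDerivAt_id t).const_mul (h2 x))).sub
          (((hasDerivAt_pow 2 t).const_mul (h3 x)).div_const 2)
        refine this.congr_deriv ?_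
        simp
        ring) b2 (by simp)
  have b0 := mv (k := 3) hK
      (φ := fun t => h (x + t) - h x - h1 x * t - h2 x * t ^ 2 / 2 - h3 x * t ^ 3 / 6)
      (φ' := fun t => h1 (x + t) - h1 x - h2 x * t - h3 x * t ^ 2 / 2)
      (fun t => by
        have := ((((e d0 t).sub_const (h x)).sub ((hasDerivAt_id t).const_mul (h1 x))).sub
          (((hasDerivAt_pow 2 t).const_mul (h2 x)).div_const 2)).sub
          (((hasDerivAt_pow 3 t).const_mul (h3 x)).div_const 6)
        refine this.congr_deriv ?_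
        simp
        ring) b1 (by simp) d
  refine le_trans (le_of_eq ?_) b0
  congr 1
  ring

/-- continuous periodic functions are bounded -/
theorem bdd {h : ℝ → ℝ} (hc : Continuous h) (hp : ∀ x, h (x + 2 * π) = h x) :
    ∃ K, 0 < K ∧ ∀ x, |h x| ≤ K := by
  obtain ⟨K, hK⟩ := isCompact_Icc.exists_bound_of_continuousOn
    (s := Icc (0 : ℝ) (2 * π)) hc.continuousOn
  refine ⟨max K 1, by positivity, fun x => ?_⟩
  have hper : Function.Periodic h (2 * π) := hp
  obtain ⟨y, hy, hxy⟩ := hper.exists_mem_Ico₀ two_pi_pos x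
  rw [hxy]
  exact (hK y (Ico_subset_Icc_self hy)).trans (le_max_left _ _)

theorem bdd_below {h : ℝ → ℝ} (hc : Continuous h) (hp : ∀ x, h (x + 2 * π) = h x)
    (hpos : ∀ x, 0 < h x) : ∃ c, 0 < c ∧ ∀ x, c ≤ h x := by
  obtain ⟨K, hK, hb⟩ := bdd (h := fun x => (h x)⁻¹) (hc.inv₀ fun x => (hpos x).ne')
    (fun x => by simp only [hp])
  refine ⟨K⁻¹, by positivity, fun x => ?_⟩
  have h1 := hb x
  rw [abs_of_pos (inv_pos.2 (hpos x))] at h1
  exact inv_le_of_inv_le₀ (hpos x) h1

theorem deriv_per {g : ℝ → Fin 3 → ℝ} (hp : ∀ x, g (x + 2 * π) = g x) :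
    ∀ x, deriv g (x + 2 * π) = deriv g x := by
  intro x
  rw [← deriv_comp_add_const]
  congr 1
  funext y
  exact hp y

theorem dot_crs_self1 (a b : Fin 3 → ℝ) : dot (crs a b) a = 0 := by
  simp only [dot, crs0, crs1, crs2]
  ring

theorem dot_crs_self2 (a b : Fin 3 → ℝ) : dot (crs a b) b = 0 := by
  simp only [dot, crs0, crs1, crs2]
  ring

theorem crs_self (a : Fin 3 → ℝ) : crs a a = 0 := by
  refine ext3 ?_ ?_ ?_ <;> simp <;> ring

theorem dot_continuous {f g : ℝ → Fin 3 → ℝ} (hf : Continuous f) (hg : Continuous g) :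
    Continuous fun x => dot (f x) (g x) := by
  unfold dot
  fun_prop

theorem crs_continuous {f g : ℝ → Fin 3 → ℝ} (hf : Continuous f) (hg : Continuous g) :
    Continuous fun x => crs (f x) (g x) := by
  refine continuous_pi fun i => ?_
  fin_cases i <;> simp <;> fun_prop

/-- the error of Taylor's formula against a vector -/
theorem dot_taylor {g g1 g2 g3 : ℝ → Fin 3 → ℝ} {K M : ℝ} (hM : 0 ≤ M) {x d : ℝ}
    (h : ∀ i, |g (x + d) i - (g x i + g1 x i * d + g2 x i * d ^ 2 / 2 + g3 x i * d ^ 3 / 6)| ≤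
      K * |d| ^ 4) {v : Fin 3 → ℝ} (hv : ∀ i, |v i| ≤ M) :
    |dot v (g (x + d)) - (dot v (g x) + dot v (g1 x) * d + dot v (g2 x) * d ^ 2 / 2 +
      dot v (g3 x) * d ^ 3 / 6)| ≤ 3 * M * K * |d| ^ 4 := by
  have e : dot v (g (x + d)) - (dot v (g x) + dot v (g1 x) * d + dot v (g2 x) * d ^ 2 / 2 +
      dot v (g3 x) * d ^ 3 / 6) =
      v 0 * (g (x + d) 0 - (g x 0 + g1 x 0 * d + g2 x 0 * d ^ 2 / 2 + g3 x 0 * d ^ 3 / 6)) +
      v 1 * (g (x + d) 1 - (g x 1 + g1 x 1 * d + g2 x 1 * d ^ 2 / 2 + g3 x 1 * d ^ 3 / 6)) +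
      v 2 * (g (x + d) 2 - (g x 2 + g1 x 2 * d + g2 x 2 * d ^ 2 / 2 + g3 x 2 * d ^ 3 / 6)) := by
    simp only [dot]
    ring
  rw [e]
  have h1 : ∀ i, |v i * (g (x + d) i - (g x i + g1 x i * d + g2 x i * d ^ 2 / 2 +
      g3 x i * d ^ 3 / 6))| ≤ M * (K * |d| ^ 4) := fun i => by
    rw [abs_mul]
    exact mul_le_mul (hv i) (h i) (abs_nonneg _) hM
  refine (abs_add_three _ _ _).trans ?_
  linarith [h1 0, h1 1, h1 2]

theorem uu_taylor {g : ℝ → Fin 3 → ℝ} (hg : Dual g) :
    ∃ (m : ℝ → ℝ) (C d₀ : ℝ), Continuous m ∧ (∀ x, m (x + 2 * π) = m x) ∧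
      (∫ x in (0 : ℝ)..(2 * π), m x) = 0 ∧ 0 < C ∧ 0 < d₀ ∧
      ∀ x d : ℝ, 0 < |d| → |d| ≤ d₀ → |uu g x (x + d) + 2 / d - m x| ≤ C * |d| := by
  -- the derivatives
  set g1 := deriv g with hg1
  set g2 := deriv g1 with hg2
  set g3 := deriv g2 with hg3
  set g4 := deriv g3 with hg4
  have s0 := hg.smooth
  have s1 : ContDiff ℝ ∞ g1 := (contDiff_infty_iff_deriv.1 s0).2
  have s2 : ContDiff ℝ ∞ g2 := (contDiff_infty_iff_deriv.1 s1).2
  have s3 : ContDiff ℝ ∞ g3 := (contDiff_infty_iff_deriv.1 s2).2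
  have s4 : ContDiff ℝ ∞ g4 := (contDiff_infty_iff_deriv.1 s3).2
  have d0 : ∀ t, HasDerivAt g (g1 t) t := fun t => ((contDiff_infty_iff_deriv.1 s0).1 t).hasDerivAt
  have d1 : ∀ t, HasDerivAt g1 (g2 t) t := fun t => ((contDiff_infty_iff_deriv.1 s1).1 t).hasDerivAt
  have d2 : ∀ t, HasDerivAt g2 (g3 t) t := fun t => ((contDiff_infty_iff_deriv.1 s2).1 t).hasDerivAt
  have d3 : ∀ t, HasDerivAt g3 (g4 t) t := fun t => ((contDiff_infty_iff_deriv.1 s3).1 t).hasDerivAt
  have p0 := hg.per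
  have p1 := deriv_per p0
  have p2 := deriv_per p1
  have p3 := deriv_per p2
  have p4 := deriv_per p3
  rw [← hg1] at p1 p2 p3 p4
  rw [← hg2] at p2 p3 p4
  rw [← hg3] at p3 p4
  rw [← hg4] at p4
  -- the curvature and its derivative
  set om : ℝ → ℝ := fun x => dot (crs (g x) (g1 x)) (g2 x) with hom
  set o3 : ℝ → ℝ := fun x => dot (crs (g x) (g1 x)) (g3 x) with ho3
  set r3 : ℝ → ℝ := fun x => dot (crs (g x) (g2 x)) (g3 x) with hr3
  have hompos : ∀ x, 0 < om x := hg.curv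
  have hcom : Continuous om := dot_continuous (crs_continuous s0.continuous s1.continuous) s2.continuous
  have hco3 : Continuous o3 := dot_continuous (crs_continuous s0.continuous s1.continuous) s3.continuous
  have hcr3 : Continuous r3 := dot_continuous (crs_continuous s0.continuous s2.continuous) s3.continuous
  have hpom : ∀ x, om (x + 2 * π) = om x := fun x => by simp only [hom, p0, p1, p2]
  have hpo3 : ∀ x, o3 (x + 2 * π) = o3 x := fun x => by simp only [ho3, p0, p1, p3]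
  have hpr3 : ∀ x, r3 (x + 2 * π) = r3 x := fun x => by simp only [hr3, p0, p2, p3]
  have hdom : ∀ x, HasDerivAt om (o3 x) x := by
    intro x
    have h1 := dot_hasDeriv (crs_hasDeriv (d0 x) (d1 x)) (d2 x)
    refine h1.congr_deriv ?_
    rw [crs_self, zero_add, dot_crs_self2, zero_add]
  obtain ⟨c, hc, hcb⟩ := bdd_below hcom hpom hompos
  obtain ⟨R1, hR1, hR1b⟩ := bdd hco3 hpo3
  obtain ⟨R2, hR2, hR2b⟩ := bdd hcr3 hpr3
  set m : ℝ → ℝ := fun x => 2 / 3 * (o3 x / om x) with hm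
  have hcm : Continuous m := continuous_const.mul (hco3.div hcom fun x => (hompos x).ne')
  have hpm : ∀ x, m (x + 2 * π) = m x := fun x => by simp only [hm, hpo3, hpom]
  obtain ⟨Mm, hMm, hMmb⟩ := bdd hcm hpm
  -- the bounds for the fourth derivatives
  have hK : ∃ K, 0 < K ∧ ∀ i x, |g4 x i| ≤ K := by
    have h1 : ∀ i, ∃ K, 0 < K ∧ ∀ x, |g4 x i| ≤ K := fun i =>
      bdd (h := fun x => g4 x i) ((continuous_apply i).comp s4.continuous)
        (fun x => by simp only [p4])
    choose K hK hKb using h1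
    refine ⟨K 0 + K 1 + K 2, by have := hK 0; have := hK 1; have := hK 2; positivity, ?_⟩
    intro i x
    have := hK 0
    have := hK 1
    have := hK 2
    fin_cases i
    · have := hKb 0 x
      simp at this ⊢
      linarith
    · have := hKb 1 x
      simp at this ⊢
      linarith
    · have := hKb 2 x
      simp at this ⊢
      linarith
  obtain ⟨K, hK, hKb⟩ := hK
  have hV : ∀ f : ℝ → Fin 3 → ℝ, Continuous f → (∀ x, f (x + 2 * π) = f x) →
      ∃ M, 0 < M ∧ ∀ x i, |f x i| ≤ M := by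
    intro f hf hp
    have h1 : ∀ i, ∃ K, 0 < K ∧ ∀ x, |f x i| ≤ K := fun i =>
      bdd (h := fun x => f x i) ((continuous_apply i).comp hf)
        (fun x => by simp only [hp])
    choose K hK hKb using h1
    refine ⟨K 0 + K 1 + K 2, by have := hK 0; have := hK 1; have := hK 2; positivity, ?_⟩
    intro x i
    have := hK 0
    have := hK 1
    have := hK 2
    fin_cases i
    · have := hKb 0 x
      simp at this ⊢
      linarith
    · have := hKb 1 x
      simp at this ⊢
      linarith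
    · have := hKb 2 x
      simp at this ⊢
      linarith
  obtain ⟨M1, hM1, hM1b⟩ := hV (fun x => crs (g x) (g1 x))
    (crs_continuous s0.continuous s1.continuous) (fun x => by simp only [p0, p1])
  obtain ⟨M2, hM2, hM2b⟩ := hV (fun x => crs (g x) (g2 x))
    (crs_continuous s0.continuous s2.continuous) (fun x => by simp only [p0, p2])
  have htay : ∀ x d i, |g (x + d) i - (g x i + g1 x i * d + g2 x i * d ^ 2 / 2 +
      g3 x i * d ^ 3 / 6)| ≤ K * |d| ^ 4 := by
    intro x d i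
    exact taylor (h := fun t => g t i) (h1 := fun t => g1 t i) (h2 := fun t => g2 t i)
      (h3 := fun t => g3 t i) (h4 := fun t => g4 t i) hK.le (fun t => hasDerivAt_pi.1 (d0 t) i)
      (fun t => hasDerivAt_pi.1 (d1 t) i) (fun t => hasDerivAt_pi.1 (d2 t) i)
      (fun t => hasDerivAt_pi.1 (d3 t) i) (fun t => hKb i t) x d
  -- the expansions
  set K1 := 3 * M1 * K with hK1
  set K2 := 3 * M2 * K with hK2
  have hK1p : 0 < K1 := by positivity
  have hK2p : 0 < K2 := by positivity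
  have hD : ∀ x d, |D0 g x (x + d) - (om x * d ^ 2 / 2 + o3 x * d ^ 3 / 6)| ≤ K1 * |d| ^ 4 := by
    intro x d
    have h1 := dot_taylor hM1.le (fun i => htay x d i) (fun i => hM1b x i)
    simp only [dot_crs_self1, dot_crs_self2] at h1
    refine le_trans (le_of_eq ?_) h1
    congr 1
    simp only [D0, hom, ho3, ← hg1]
    ring
  have hN : ∀ x d, |dot (crs (g x) (g2 x)) (g (x + d)) - (-(om x) * d + r3 x * d ^ 3 / 6)| ≤
      K2 * |d| ^ 4 := by
    intro x d
    have h1 := dot_taylor hM2.le (fun i => htay x d i) (fun i => hM2b x i)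
    simp only [dot_crs_self1, dot_crs_self2] at h1
    have h2 : dot (crs (g x) (g2 x)) (g1 x) = - om x := by
      simp only [hom, dot, crs0, crs1, crs2]
      ring
    rw [h2] at h1
    refine le_trans (le_of_eq ?_) h1
    congr 1
    simp only [hr3]
    ring
  set K3 := R2 / 6 + K2 + 2 * K1 + Mm * (R1 / 6 + K1) with hK3
  have hK3p : 0 < K3 := by positivity
  set q := R1 / 6 + K1 with hq
  have hqp : 0 < q := by positivity
  refine ⟨m, 4 * K3 / c, min 1 (c / (4 * q)), hcm, hpm, ?_, by positivity, by positivity, ?_⟩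
  · have h1 : ∀ x ∈ uIcc (0 : ℝ) (2 * π), HasDerivAt (fun x => 2 / 3 * Real.log (om x)) (m x) x := by
      intro x _
      exact ((hdom x).log (hompos x).ne').const_mul (2 / 3)
    rw [intervalIntegral.integral_eq_sub_of_hasDerivAt h1 (hcm.intervalIntegrable _ _)]
    have h2 := hpom 0
    rw [zero_add] at h2
    rw [h2, sub_self]
  · intro x d hd0 hd1
    have hd : d ≠ 0 := abs_pos.1 hd0
    have hdle1 : |d| ≤ 1 := hd1.trans (min_le_left _ _)
    have hdle2 : |d| ≤ c / (4 * q) := hd1.trans (min_le_right _ _)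
    set A := D0 g x (x + d) - (om x * d ^ 2 / 2 + o3 x * d ^ 3 / 6) with hA
    set N := dot (crs (g x) (g2 x)) (g (x + d)) with hNdef
    set Bn := N - (-(om x) * d + r3 x * d ^ 3 / 6) with hBn
    have hAb : |A| ≤ K1 * |d| ^ 4 := hD x d
    have hBb : |Bn| ≤ K2 * |d| ^ 4 := hN x d
    have hd4 : 0 < |d| ^ 4 := by positivity
    have hd5 : |d| ^ 4 * |d| ≤ |d| ^ 4 := mul_le_of_le_one_right hd4.le hdle1
    -- lower bound of the denominator
    have hDlow : c / 4 * |d| ^ 2 ≤ D0 g x (x + d) := by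
      have h1 : D0 g x (x + d) = om x * d ^ 2 / 2 + o3 x * d ^ 3 / 6 + A := by
        rw [hA]
        ring
      have h2 : |o3 x * d ^ 3 / 6| ≤ R1 / 6 * |d| ^ 3 := by
        rw [abs_div, abs_mul, abs_pow, abs_of_pos (by norm_num : (0 : ℝ) < 6)]
        have := mul_le_mul_of_nonneg_right (hR1b x) (by positivity : 0 ≤ |d| ^ 3)
        linarith
      have h3 : |A| ≤ K1 * |d| ^ 3 := by
        refine hAb.trans (mul_le_mul_of_nonneg_left ?_ hK1p.le)
        calc |d| ^ 4 = |d| ^ 3 * |d| := by ring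
          _ ≤ |d| ^ 3 := mul_le_of_le_one_right (by positivity) hdle1
      have h4 : c * |d| ^ 2 ≤ om x * d ^ 2 := by
        rw [sq_abs]
        exact mul_le_mul_of_nonneg_right (hcb x) (sq_nonneg d)
      have h5 : q * |d| ^ 3 ≤ c / 4 * |d| ^ 2 := by
        have h6 : q * |d| ≤ c / 4 := by
          rw [le_div_iff₀ (by positivity)] at hdle2
          linarith
        calc q * |d| ^ 3 = q * |d| * |d| ^ 2 := by ring
          _ ≤ c / 4 * |d| ^ 2 := mul_le_mul_of_nonneg_right h6 (by positivity)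
      have h6 := neg_abs_le (o3 x * d ^ 3 / 6)
      have h7 := neg_abs_le A
      have h8 : q * |d| ^ 3 = R1 / 6 * |d| ^ 3 + K1 * |d| ^ 3 := by
        rw [hq]
        ring
      rw [h1]
      linarith
    have hDpos : 0 < D0 g x (x + d) := lt_of_lt_of_le (by positivity) hDlow
    -- upper bound of the numerator
    have hom0 : om x ≠ 0 := (hompos x).ne'
    have hnum : |N * d + 2 * D0 g x (x + d) - m x * d * D0 g x (x + d)| ≤ K3 * |d| ^ 4 := by
      have h1 : N * d + 2 * D0 g x (x + d) - m x * d * D0 g x (x + d) =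
          r3 x / 6 * d ^ 4 + Bn * d + 2 * A - m x * (o3 x / 6 * d ^ 4 + A * d) := by
        have h2 : m x * om x = 2 / 3 * o3 x := by
          simp only [hm]
          field_simp
        rw [hA, hBn]
        linear_combination (-(d ^ 3) / 2) * h2
      rw [h1]
      have a1 : |r3 x / 6 * d ^ 4| ≤ R2 / 6 * |d| ^ 4 := by
        rw [abs_mul, abs_div, abs_pow, abs_of_pos (by norm_num : (0 : ℝ) < 6)]
        have := mul_le_mul_of_nonneg_right (hR2b x) hd4.le
        linarith
      have a2 : |Bn * d| ≤ K2 * |d| ^ 4 := by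
        rw [abs_mul]
        calc |Bn| * |d| ≤ |Bn| * 1 := mul_le_mul_of_nonneg_left hdle1 (abs_nonneg _)
          _ ≤ K2 * |d| ^ 4 := by linarith
      have a3 : |o3 x / 6 * d ^ 4 + A * d| ≤ (R1 / 6 + K1) * |d| ^ 4 := by
        refine (abs_add_le _ _).trans ?_
        have b1 : |o3 x / 6 * d ^ 4| ≤ R1 / 6 * |d| ^ 4 := by
          rw [abs_mul, abs_div, abs_pow, abs_of_pos (by norm_num : (0 : ℝ) < 6)]
          have := mul_le_mul_of_nonneg_right (hR1b x) hd4.le
          linarith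
        have b2 : |A * d| ≤ K1 * |d| ^ 4 := by
          rw [abs_mul]
          calc |A| * |d| ≤ |A| * 1 := mul_le_mul_of_nonneg_left hdle1 (abs_nonneg _)
            _ ≤ K1 * |d| ^ 4 := by linarith
        linarith
      have a4 : |m x * (o3 x / 6 * d ^ 4 + A * d)| ≤ Mm * ((R1 / 6 + K1) * |d| ^ 4) := by
        rw [abs_mul]
        exact mul_le_mul (hMmb x) a3 (abs_nonneg _) hMm.le
      have a5 : |2 * A| ≤ 2 * (K1 * |d| ^ 4) := by
        rw [abs_mul, abs_of_pos (by norm_num : (0 : ℝ) < 2)]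
        linarith
      refine (abs_sub _ _).trans ?_
      have a6 := abs_add_three (r3 x / 6 * d ^ 4) (Bn * d) (2 * A)
      have a7 : K3 * |d| ^ 4 = R2 / 6 * |d| ^ 4 + K2 * |d| ^ 4 + 2 * (K1 * |d| ^ 4) +
          Mm * ((R1 / 6 + K1) * |d| ^ 4) := by
        rw [hK3]
        ring
      linarith
    have huu : uu g x (x + d) + 2 / d - m x =
        (N * d + 2 * D0 g x (x + d) - m x * d * D0 g x (x + d)) / (d * D0 g x (x + d)) := by
      have h1 : uu g x (x + d) = N / D0 g x (x + d) := rfl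
      rw [h1]
      field_simp
    rw [huu, abs_div, abs_mul, abs_of_pos hDpos, div_le_iff₀ (by positivity)]
    refine hnum.trans ?_
    calc K3 * |d| ^ 4 = 4 * K3 / c * |d| * (|d| * (c / 4 * |d| ^ 2)) := by
          field_simp
      _ ≤ 4 * K3 / c * |d| * (|d| * D0 g x (x + d)) := by
          refine mul_le_mul_of_nonneg_left ?_ (by positivity)
          exact mul_le_mul_of_nonneg_left hDlow (abs_nonneg _)

end Pool.Agent.TH979.PGTaylor
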