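import Pool.Agent.TH979.Core

set_option autoImplicit false

/-! Two-sided bounds near `x = 1`. -/

namespace Pool.Agent.TH979

open Finset Set

/-- the parametrisation `x = 1 - e^{-v}` -/
noncomputable def xv (v : ℝ) : ℝ := 1 - Real.exp (-v)

theorem one_sub_xv (v : ℝ) : 1 - xv v = Real.exp (-v) := by unfold xv; ring

theorem xv_pos {v : ℝ} (hv : 0 < v) : 0 < xv v := by
  unfold xv
  have : Real.exp (-v) < 1 := by rw [Real.exp_lt_one_iff]; linarith
  linarith

theorem xv_lt (v : ℝ) : xv v < 1 := by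
  unfold xv
  have := Real.exp_pos (-v)
  linarith

theorem xv_half {v : ℝ} (hv : 1 ≤ v) : 1 / 2 ≤ xv v := by
  unfold xv
  have h1 : Real.exp (-v) ≤ Real.exp (-1) := Real.exp_le_exp.2 (by linarith)
  have h2 : Real.exp (-1) ≤ 1 / 2 := by
    rw [Real.exp_neg, inv_le_comm₀ (Real.exp_pos 1) (by norm_num)]
    have := Real.add_one_le_exp (1 : ℝ)
    norm_num at this ⊢
    linarith
  linarith

theorem LL_diff_v {v : ℝ} (hv : 1 ≤ v) :
    1 / 32 * (Real.exp (-v) * v) ≤ LL 1 - LL (xv v) ∧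
    LL 1 - LL (xv v) ≤ 1 / 2 * (Real.exp (-v) * v) := by
  have h0 := xv_pos (by linarith : 0 < v)
  have h1 := xv_lt v
  have h := LL_diff h0 h1
  have hx := xv_half hv
  have e : -((1 - xv v) / xv v) * Real.log (1 - xv v) = Real.exp (-v) * v / xv v := by
    rw [one_sub_xv, Real.log_exp]
    ring
  rw [e] at h
  have hp : 0 ≤ Real.exp (-v) * v := by positivity
  have l1 : Real.exp (-v) * v ≤ Real.exp (-v) * v / xv v := by
    rw [le_div_iff₀ h0]
    nlinarith
  have l2 : Real.exp (-v) * v / xv v ≤ 2 * (Real.exp (-v) * v) := by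
    rw [div_le_iff₀ h0]
    nlinarith
  constructor
  · exact le_trans (by linarith) h.1
  · exact h.2.trans (by linarith)

/-- bounds for the derivative of `Z` -/
theorem Zd_bounds : ∃ v0 c C : ℝ, 1 ≤ v0 ∧ 0 < c ∧ 0 < C ∧ ∀ v, v0 ≤ v →
    c * (Real.exp (-v) * v) ≤ (1 + tc) ^ 2 * (AA (xv v) * Ef (xv v)) / Ph tc (xv v) ^ 3 ∧
    (1 + tc) ^ 2 * (AA (xv v) * Ef (xv v)) / Ph tc (xv v) ^ 3 ≤ C * (Real.exp (-v) * v) := by
  have hA1 := AA_ge zero_le_one (le_refl (1 : ℝ))
  have hM1 := MM_one_gt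
  have hP1 := Ph_ge zero_le_one (le_refl (1 : ℝ))
  have hC := CA_nonneg
  have hCS := CS_nonneg
  have hL1 := LL_ge zero_le_one (le_refl (1 : ℝ))
  have ht := tc_pos
  set K := 2 * LL 1 * AA 1 * CA with hK
  have hA0 : 0 < AA 1 := by linarith
  have hM0 : 0 < MM 1 := by linarith
  have hP0 : 0 < Ph tc 1 := by linarith
  have hLL0 : 0 < LL 1 := by linarith
  have hK0 : 0 ≤ K := by positivity
  refine ⟨1 + 64 * K, (1 + tc) ^ 2 * (1 / (64 * AA 1 ^ 2 * MM 1)) / Ph tc 1 ^ 3,
    (1 + tc) ^ 2 * (AA 1 * (AA 1 ^ 2 * (1 / 2 + MM 1 * CS))), by linarith, by positivity,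
    by positivity, fun v hv => ?_⟩
  have hv1 : 1 ≤ v := by linarith
  have h0 := xv_pos (by linarith : 0 < v)
  have h1 := xv_lt v
  have hL := LL_diff_v hv1
  have hM := M_diff h0.le h1.le
  have hEl := E_lower h0.le h1.le
  have hEu := E_upper h0.le h1.le
  rw [one_sub_xv] at hM hEu
  set ex := Real.exp (-v) with hex
  have hex0 : 0 < ex := Real.exp_pos _
  have hA := AA_ge h0.le h1.le
  have hAm := AA_mono h0.le h1.le le_rfl
  have hP := Ph_ge h0.le h1.le
  have hPm := Ph_le h0.le h1.le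
  have hE1 : 1 / (64 * AA 1 ^ 2 * MM 1) * (ex * v) ≤ Ef (xv v) := by
    refine le_trans ?_ hEl
    rw [le_div_iff₀ hM0]
    refine le_trans ?_ hM.1
    rw [le_div_iff₀ (by positivity)]
    have e : 1 / (64 * AA 1 ^ 2 * MM 1) * (ex * v) * MM 1 * AA 1 ^ 2 = 1 / 64 * (ex * v) := by
      field_simp
    rw [e]
    have : K * ex ≤ 1 / 64 * (ex * v) := by
      have : 64 * K ≤ v := by linarith
      nlinarith
    linarith [hL.1]
  have hE2 : Ef (xv v) ≤ AA 1 ^ 2 * (1 / 2 + MM 1 * CS) * (ex * v) := by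
    refine hEu.trans ?_
    rw [mul_assoc]
    refine mul_le_mul_of_nonneg_left ?_ (by positivity)
    have : MM 1 * (CS * ex) ≤ MM 1 * CS * (ex * v) := by
      have h9 : 0 ≤ MM 1 * CS * ex := by positivity
      nlinarith
    linarith [hL.2]
  have hE0 : 0 ≤ Ef (xv v) := le_trans (by positivity) hE1
  constructor
  · rw [div_mul_eq_mul_div]
    rw [div_le_div_iff₀ (by positivity) (by positivity)]
    have hb : Ph tc (xv v) ^ 3 ≤ Ph tc 1 ^ 3 := pow_le_pow_left₀ (by linarith) hPm 3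
    have hb0 : 0 ≤ Ph tc (xv v) ^ 3 := by positivity
    have hb2 : 1 / (64 * AA 1 ^ 2 * MM 1) * (ex * v) ≤ AA (xv v) * Ef (xv v) := by nlinarith
    calc (1 + tc) ^ 2 * (1 / (64 * AA 1 ^ 2 * MM 1)) * (ex * v) * Ph tc (xv v) ^ 3
        = ((1 + tc) ^ 2 * (1 / (64 * AA 1 ^ 2 * MM 1) * (ex * v))) * Ph tc (xv v) ^ 3 := by ring
      _ ≤ ((1 + tc) ^ 2 * (AA (xv v) * Ef (xv v))) * Ph tc 1 ^ 3 := by
          apply mul_le_mul _ hb hb0 (by positivity)
          exact mul_le_mul_of_nonneg_left hb2 (by positivity)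
  · have hb : (1 : ℝ) ≤ Ph tc (xv v) ^ 3 := one_le_pow₀ hP
    have hn : 0 ≤ (1 + tc) ^ 2 * (AA (xv v) * Ef (xv v)) := by positivity
    calc (1 + tc) ^ 2 * (AA (xv v) * Ef (xv v)) / Ph tc (xv v) ^ 3
        ≤ (1 + tc) ^ 2 * (AA (xv v) * Ef (xv v)) := div_le_self hn hb
      _ ≤ (1 + tc) ^ 2 * (AA 1 * (AA 1 ^ 2 * (1 / 2 + MM 1 * CS) * (ex * v))) := by
          apply mul_le_mul_of_nonneg_left _ (by positivity)
          exact mul_le_mul hAm hE2 hE0 (by positivity)
      _ = _ := by ring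

theorem xv_of {x : ℝ} (h1 : x < 1) : xv (-Real.log (1 - x)) = x := by
  unfold xv
  rw [neg_neg, Real.exp_log (by linarith)]
  ring

/-- bounds for `Z(1) - Z(x)` -/
theorem Z_bounds : ∃ v0 c C : ℝ, 1 ≤ v0 ∧ 0 < c ∧ 0 < C ∧ ∀ v, v0 ≤ v →
    c * (Real.exp (-v) ^ 2 * v) ≤ Zf tc 1 - Zf tc (xv v) ∧
    Zf tc 1 - Zf tc (xv v) ≤ C * (Real.exp (-v) ^ 2 * v) := by
  obtain ⟨v0, c, C, hv0, hc, hC, hb⟩ := Zd_bounds
  refine ⟨v0, c / 4, 2 * C, hv0, by positivity, by positivity, fun v hv => ?_⟩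
  have hv1 : 1 ≤ v := by linarith
  have h0 := xv_pos (by linarith : 0 < v)
  have h1 := xv_lt v
  have hex0 : 0 < Real.exp (-v) := Real.exp_pos _
  -- mean value on a subinterval
  have mvt : ∀ b, xv v < b → b ≤ 1 → ∀ a, xv v ≤ a → a < b → ∃ w, v ≤ w ∧ a < xv w ∧ xv w < b ∧
      (1 + tc) ^ 2 * (AA (xv w) * Ef (xv w)) / Ph tc (xv w) ^ 3 * (b - a) = Zf tc b - Zf tc a := by
    intro b hb0 hb1 a ha hab
    obtain ⟨z, hz, hz2⟩ := exists_hasDerivAt_eq_slope (Zf tc)
      (fun x => (1 + tc) ^ 2 * (AA x * Ef x) / Ph tc x ^ 3) hab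
      (Z_cont.mono (Icc_subset_Icc (by linarith) hb1))
      (fun x hx => Z_hasDerivAt (by linarith [hx.1]) (by linarith [hx.2]))
    have hz1 : z < 1 := by linarith [hz.2]
    refine ⟨-Real.log (1 - z), ?_, ?_, ?_, ?_⟩
    · have h3 : 1 - z ≤ Real.exp (-v) := by
        rw [← one_sub_xv]; linarith [hz.1]
      have h4 : Real.log (1 - z) ≤ -v := by
        rw [Real.log_le_iff_le_exp (by linarith)]; exact h3
      linarith
    · rw [xv_of hz1]; exact hz.1
    · rw [xv_of hz1]; exact hz.2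
    · rw [xv_of hz1]
      have : b - a ≠ 0 := by linarith
      rw [hz2]; field_simp
  constructor
  · -- lower bound
    set m := xv v + Real.exp (-v) / 2 with hm
    have hm1 : m < 1 := by
      rw [hm]; unfold xv; linarith
    obtain ⟨w, hw1, hw2, hw3, hw4⟩ := mvt m (by linarith) hm1.le (xv v) le_rfl (by linarith)
    obtain ⟨w', hw1', _, _, hw4'⟩ := mvt 1 (by linarith) le_rfl m (by linarith) hm1
    have hbw := (hb w (by linarith)).1
    have hbw' := (hb w' (by linarith)).1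
    have hpos : 0 ≤ Zf tc 1 - Zf tc m := by
      rw [← hw4']
      have : 0 ≤ (1 + tc) ^ 2 * (AA (xv w') * Ef (xv w')) / Ph tc (xv w') ^ 3 := by
        refine le_trans ?_ hbw'
        have : 0 ≤ w' := by linarith
        have := (Real.exp_pos (-w')).le
        positivity
      exact mul_nonneg this (by linarith)
    have hew : Real.exp (-v) / 2 ≤ Real.exp (-w) := by
      have h5 : 1 - xv w = Real.exp (-w) := one_sub_xv w
      have h6 : 1 - xv v = Real.exp (-v) := one_sub_xv v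
      linarith
    have h7 : Real.exp (-v) / 2 * v ≤ Real.exp (-w) * w := by
      apply mul_le_mul hew hw1 (by linarith) (Real.exp_pos _).le
    have h8 : Zf tc m - Zf tc (xv v) ≥ c * (Real.exp (-v) / 2 * v) * (Real.exp (-v) / 2) := by
      rw [← hw4]
      have e : m - xv v = Real.exp (-v) / 2 := by rw [hm]; ring
      rw [e]
      apply mul_le_mul_of_nonneg_right _ (by positivity)
      exact (mul_le_mul_of_nonneg_left h7 hc.le).trans hbw
    calc c / 4 * (Real.exp (-v) ^ 2 * v) = c * (Real.exp (-v) / 2 * v) * (Real.exp (-v) / 2) := by ring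
      _ ≤ Zf tc m - Zf tc (xv v) := h8
      _ ≤ _ := by linarith
  · obtain ⟨w, hw1, hw2, hw3, hw4⟩ := mvt 1 h1 le_rfl (xv v) le_rfl h1
    have hbw := (hb w (by linarith)).2
    rw [← hw4, one_sub_xv]
    have h7 : Real.exp (-w) * w ≤ 2 * (Real.exp (-v) * v) := by
      have e1 : Real.exp (-w) = Real.exp (-v) * Real.exp (-(w - v)) := by
        rw [← Real.exp_add]; congr 1; ring
      have hu : 0 ≤ w - v := by linarith
      have e2 : Real.exp (-(w - v)) * (w - v) ≤ 1 := by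
        have := Real.add_one_le_exp (w - v)
        rw [Real.exp_neg, inv_mul_le_iff₀ (Real.exp_pos _)]
        linarith
      have e3 : Real.exp (-(w - v)) ≤ 1 := by rw [Real.exp_le_one_iff]; linarith
      rw [e1]
      calc Real.exp (-v) * Real.exp (-(w - v)) * w =
          Real.exp (-v) * (Real.exp (-(w - v)) * (w - v) + Real.exp (-(w - v)) * v) := by ring
        _ ≤ Real.exp (-v) * (1 + 1 * v) := by
            apply mul_le_mul_of_nonneg_left _ hex0.le
            have : Real.exp (-(w - v)) * v ≤ 1 * v := mul_le_mul_of_nonneg_right e3 (by linarith)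
            linarith
        _ ≤ 2 * (Real.exp (-v) * v) := by nlinarith
    calc _ ≤ C * (Real.exp (-w) * w) * Real.exp (-v) := mul_le_mul_of_nonneg_right hbw hex0.le
      _ ≤ C * (2 * (Real.exp (-v) * v)) * Real.exp (-v) := by
          apply mul_le_mul_of_nonneg_right _ hex0.le
          exact mul_le_mul_of_nonneg_left h7 hC.le
      _ = _ := by ring

/-- positivity of the derivative of `Z` -/
theorem Ef_pos {x : ℝ} (h0 : 0 < x) (h1 : x < 1) : 0 < Ef x := by
  refine lt_of_lt_of_le ?_ (E_lower h0.le h1.le)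
  have hM1 := MM_one_gt
  refine div_pos ?_ (by linarith)
  have : MM x < MM 1 := by
    unfold MM
    refine Summable.tsum_lt_tsum (i := 1) (fun n => ?_) ?_
      (summable_pow summable_mn mn_nonneg h0.le h1.le)
      (summable_pow summable_mn mn_nonneg zero_le_one le_rfl)
    · exact mul_le_mul_of_nonneg_left (pow_le_pow_left₀ h0.le h1.le n) (mn_nonneg n)
    · have : mn 1 = un 1 := by simp [mn]; norm_num
      rw [this, un_one]
      have := an_pos 1
      simp only [pow_one, mul_one]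
      nlinarith
  linarith

theorem Z_strictMono {x y : ℝ} (h0 : 0 < x) (hxy : x < y) (h1 : y ≤ 1) : Zf tc x < Zf tc y := by
  obtain ⟨z, hz, hz2⟩ := exists_hasDerivAt_eq_slope (Zf tc)
      (fun x => (1 + tc) ^ 2 * (AA x * Ef x) / Ph tc x ^ 3) hxy
      (Z_cont.mono (Icc_subset_Icc h0.le h1))
      (fun x hx => Z_hasDerivAt (by linarith [hx.1]) (by linarith [hx.2]))
  have hz0 : 0 < z := by linarith [hz.1]
  have hz1 : z < 1 := by linarith [hz.2]
  have hE := Ef_pos hz0 hz1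
  have hA := AA_ge hz0.le hz1.le
  have hP := Ph_ge hz0.le hz1.le
  have ht := tc_pos
  have hA0 : 0 < AA z := by linarith
  have hP0 : 0 < Ph tc z := by linarith
  have : 0 < (Zf tc y - Zf tc x) / (y - x) := by
    rw [← hz2]
    positivity
  rw [div_pos_iff_of_pos_right (by linarith)] at this
  linarith

theorem Z_nonneg {x : ℝ} (h0 : 0 ≤ x) : 0 ≤ Zf tc x := by
  unfold Zf; positivity

theorem Z_zero : Zf tc 0 = 0 := by unfold Zf; simp

end Pool.Agent.TH979
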