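import Pool.Agent.TH979.Seq

set_option autoImplicit false

/-! The critical parameter and the behaviour of `Φ` and `Z` near `x = 1`. -/

namespace Pool.Agent.TH979

open Finset Set

/-- the critical value of `S(1)` -/
noncomputable def S1 : ℝ := MM 1 / (MM 1 - 1)

/-- the critical parameter -/
noncomputable def tc : ℝ := Real.sqrt (S1 ^ 2 - 1) / AA 1

theorem S1_gt : 1 < S1 := by
  have h := MM_one_gt
  unfold S1
  rw [lt_div_iff₀ (by linarith)]
  linarith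

theorem S1_inv : 1 - 1 / S1 = 1 / MM 1 := by
  have h := MM_one_gt
  unfold S1
  have : MM 1 - 1 ≠ 0 := by linarith
  have : MM 1 ≠ 0 := by linarith
  field_simp
  ring

theorem tc_pos : 0 < tc := by
  have h := S1_gt
  have hA := AA_ge zero_le_one le_rfl
  unfold tc
  have : 0 < S1 ^ 2 - 1 := by nlinarith
  have := Real.sqrt_pos.2 this
  positivity

theorem tc_sq : tc ^ 2 * AA 1 ^ 2 = S1 ^ 2 - 1 := by
  have h := S1_gt
  have hA := AA_ge zero_le_one le_rfl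
  have : 0 ≤ S1 ^ 2 - 1 := by nlinarith
  unfold tc
  rw [div_pow, Real.sq_sqrt this]
  field_simp

theorem SSq_sq (t : ℝ) {x : ℝ} (h0 : 0 ≤ x) : SSq t x ^ 2 = 1 + t ^ 2 * (x * AA x ^ 2) := by
  unfold SSq
  rw [Real.sq_sqrt (by positivity)]

theorem SSq_ge (t : ℝ) {x : ℝ} (h0 : 0 ≤ x) : 1 ≤ SSq t x := by
  unfold SSq
  rw [Real.le_sqrt' one_pos]
  have : 0 ≤ t ^ 2 * (x * AA x ^ 2) := by positivity
  linarith

theorem SSq_one : SSq tc 1 = S1 := by
  have h := S1_gt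
  unfold SSq
  rw [one_mul, tc_sq]
  have : 1 + (S1 ^ 2 - 1) = S1 ^ 2 := by ring
  rw [this, Real.sqrt_sq (by linarith)]

theorem Y_diff {x : ℝ} (h0 : 0 ≤ x) (h1 : x ≤ 1) :
    (1 - x) ≤ AA 1 ^ 2 - x * AA x ^ 2 ∧
    AA 1 ^ 2 - x * AA x ^ 2 ≤ (2 * AA 1 * CA + AA 1 ^ 2) * (1 - x) := by
  have hA := AA_ge h0 h1
  have hm := AA_mono h0 h1 le_rfl
  have hd := AA_diff h0 h1
  have h2 : AA x ^ 2 ≤ AA 1 ^ 2 := by nlinarith
  constructor
  · have h3 : 1 ≤ AA x ^ 2 := by nlinarith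
    have h4 : 0 ≤ (1 - x) * (AA x ^ 2 - 1) := mul_nonneg (by linarith) (by linarith)
    nlinarith
  · have h3 : AA 1 ^ 2 - AA x ^ 2 ≤ 2 * AA 1 * (CA * (1 - x)) := by
      nlinarith
    have h4 : AA x ^ 2 * (1 - x) ≤ AA 1 ^ 2 * (1 - x) :=
      mul_le_mul_of_nonneg_right h2 (by linarith)
    nlinarith

/-- Lipschitz constant of `S` at `1` -/
noncomputable def CS : ℝ := tc ^ 2 * (2 * AA 1 * CA + AA 1 ^ 2)

theorem CS_nonneg : 0 ≤ CS := by
  have := CA_nonneg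
  have hA := AA_ge zero_le_one le_rfl
  unfold CS
  positivity

theorem SSq_le_S1 {x : ℝ} (h0 : 0 ≤ x) (h1 : x ≤ 1) : SSq tc x ≤ S1 := by
  have h := Y_diff h0 h1
  have e1 := SSq_sq tc h0
  have e2 := tc_sq
  have hS := S1_gt
  have hx := SSq_ge tc h0
  have h3 : SSq tc x ^ 2 ≤ S1 ^ 2 := by
    have := tc_pos
    nlinarith [sq_nonneg tc, mul_nonneg (sq_nonneg tc) (le_trans (by linarith) h.1)]
  nlinarith

theorem S_diff {x : ℝ} (h0 : 0 ≤ x) (h1 : x ≤ 1) :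
    tc ^ 2 / (2 * S1) * (1 - x) ≤ S1 - SSq tc x ∧ S1 - SSq tc x ≤ CS * (1 - x) := by
  have h := Y_diff h0 h1
  have e1 := SSq_sq tc h0
  have e2 := tc_sq
  have hS := S1_gt
  have hx := SSq_ge tc h0
  have hle := SSq_le_S1 h0 h1
  have h3 : S1 ^ 2 - SSq tc x ^ 2 = tc ^ 2 * (AA 1 ^ 2 - x * AA x ^ 2) := by
    rw [e1]; linarith
  have ht := sq_nonneg tc
  constructor
  · rw [div_mul_eq_mul_div, div_le_iff₀ (by linarith)]
    calc tc ^ 2 * (1 - x) ≤ tc ^ 2 * (AA 1 ^ 2 - x * AA x ^ 2) := mul_le_mul_of_nonneg_left h.1 ht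
      _ = (S1 - SSq tc x) * (S1 + SSq tc x) := by rw [← h3]; ring
      _ ≤ (S1 - SSq tc x) * (2 * S1) := mul_le_mul_of_nonneg_left (by linarith) (by linarith)
  · calc S1 - SSq tc x ≤ (S1 - SSq tc x) * (S1 + SSq tc x) := by nlinarith
      _ = tc ^ 2 * (AA 1 ^ 2 - x * AA x ^ 2) := by rw [← h3]; ring
      _ ≤ tc ^ 2 * ((2 * AA 1 * CA + AA 1 ^ 2) * (1 - x)) := mul_le_mul_of_nonneg_left h.2 ht
      _ = CS * (1 - x) := by unfold CS; ring

theorem Ph_diff {x : ℝ} (h0 : 0 ≤ x) (h1 : x ≤ 1) :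
    tc ^ 2 / (2 * S1) * (1 - x) ≤ Ph tc 1 - Ph tc x ∧
    Ph tc 1 - Ph tc x ≤ (CA + CS) * (1 - x) := by
  have h := S_diff h0 h1
  have hA := AA_diff h0 h1
  have hm := AA_mono h0 h1 le_rfl
  unfold Ph
  rw [SSq_one]
  constructor <;> linarith

theorem Ph_ge {x : ℝ} (h0 : 0 ≤ x) (h1 : x ≤ 1) : 1 ≤ Ph tc x := by
  have := AA_ge h0 h1
  have := SSq_ge tc h0
  unfold Ph; linarith

theorem Ph_le {x : ℝ} (h0 : 0 ≤ x) (h1 : x ≤ 1) : Ph tc x ≤ Ph tc 1 := by
  have := AA_mono h0 h1 le_rfl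
  have := SSq_le_S1 h0 h1
  unfold Ph
  rw [SSq_one]; linarith

/-- the factor that vanishes at `x = 1` -/
noncomputable def Ef (x : ℝ) : ℝ := AA x ^ 2 * (1 - MM x * (1 - 1 / SSq tc x))

theorem M_diff {x : ℝ} (h0 : 0 ≤ x) (h1 : x ≤ 1) :
    (LL 1 - LL x - 2 * LL 1 * AA 1 * CA * (1 - x)) / AA 1 ^ 2 ≤ MM 1 - MM x ∧
    MM 1 - MM x ≤ LL 1 - LL x := by
  have hA1 := AA_ge zero_le_one (le_refl (1:ℝ))
  have hA := AA_ge h0 h1
  have hm := AA_mono h0 h1 le_rfl
  have hd := AA_diff h0 h1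
  have hL := LL_ge h0 h1
  have hL1 := LL_mono h0 h1 le_rfl
  have e1 := LL_eq zero_le_one (le_refl (1:ℝ))
  have e2 := LL_eq h0 h1
  have hC := CA_nonneg
  have f1 : MM 1 = LL 1 / AA 1 ^ 2 := by rw [e1]; field_simp
  have f2 : MM x = LL x / AA x ^ 2 := by rw [e2]; field_simp
  have hsq : AA 1 ^ 2 - AA x ^ 2 ≤ 2 * AA 1 * (CA * (1 - x)) := by nlinarith
  have hsq0 : 0 ≤ AA 1 ^ 2 - AA x ^ 2 := by nlinarith
  constructor
  · rw [f1, f2]
    have h3 : LL x / AA x ^ 2 ≤ (LL x + LL 1 * (2 * AA 1 * (CA * (1 - x)))) / AA 1 ^ 2 := by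
      rw [div_le_div_iff₀ (by positivity) (by positivity)]
      have : LL x * (AA 1 ^ 2 - AA x ^ 2) ≤ LL 1 * (2 * AA 1 * (CA * (1 - x))) * AA x ^ 2 := by
        calc LL x * (AA 1 ^ 2 - AA x ^ 2) ≤ LL 1 * (2 * AA 1 * (CA * (1 - x))) :=
              mul_le_mul hL1 hsq hsq0 (by linarith)
          _ ≤ _ := by
              have h9 : (1:ℝ) ≤ AA x ^ 2 := by nlinarith
              have h10 : 0 ≤ LL 1 * (2 * AA 1 * (CA * (1 - x))) := by
                have : 0 ≤ 1 - x := by linarith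
                have : 0 ≤ LL 1 := by linarith
                have : 0 ≤ AA 1 := by linarith
                positivity
              nlinarith
      nlinarith
    calc _ = LL 1 / AA 1 ^ 2 - (LL x + LL 1 * (2 * AA 1 * (CA * (1 - x)))) / AA 1 ^ 2 := by ring
      _ ≤ _ := by linarith
  · rw [f1, f2]
    have h3 : LL x / AA 1 ^ 2 ≤ LL x / AA x ^ 2 := by
      apply div_le_div_of_nonneg_left (by linarith) (by positivity)
      linarith
    have h4 : (LL 1 - LL x) / AA 1 ^ 2 ≤ LL 1 - LL x := by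
      apply div_le_self (by linarith)
      nlinarith
    calc _ ≤ LL 1 / AA 1 ^ 2 - LL x / AA 1 ^ 2 := by linarith
      _ = (LL 1 - LL x) / AA 1 ^ 2 := by ring
      _ ≤ _ := h4

theorem E_lower {x : ℝ} (h0 : 0 ≤ x) (h1 : x ≤ 1) : (MM 1 - MM x) / MM 1 ≤ Ef x := by
  have hA := AA_ge h0 h1
  have hM1 := MM_one_gt
  have hM := MM_ge h0 h1
  have hMm := MM_mono h0 h1 le_rfl
  have hS := SSq_le_S1 h0 h1
  have hS' := SSq_ge tc h0
  have h2 : 1 - 1 / SSq tc x ≤ 1 / MM 1 := by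
    rw [← S1_inv]
    have : 1 / S1 ≤ 1 / SSq tc x := one_div_le_one_div_of_le (by linarith) hS
    linarith
  have h3 : (MM 1 - MM x) / MM 1 ≤ 1 - MM x * (1 - 1 / SSq tc x) := by
    have : MM x * (1 - 1 / SSq tc x) ≤ MM x * (1 / MM 1) := mul_le_mul_of_nonneg_left h2 (by linarith)
    have e : (MM 1 - MM x) / MM 1 = 1 - MM x * (1 / MM 1) := by
      have : MM 1 ≠ 0 := by linarith
      field_simp
    rw [e]; linarith
  have h4 : 0 ≤ (MM 1 - MM x) / MM 1 := div_nonneg (by linarith) (by linarith)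
  unfold Ef
  have h5 : 0 ≤ 1 - MM x * (1 - 1 / SSq tc x) := h4.trans h3
  have h6 : 1 ≤ AA x ^ 2 := by nlinarith
  have h7 := mul_nonneg (sub_nonneg.2 h6) h5
  linarith

theorem E_upper {x : ℝ} (h0 : 0 ≤ x) (h1 : x ≤ 1) :
    Ef x ≤ AA 1 ^ 2 * ((LL 1 - LL x) + MM 1 * (CS * (1 - x))) := by
  have hA := AA_ge h0 h1
  have hAm := AA_mono h0 h1 le_rfl
  have hM1 := MM_one_gt
  have hM := MM_ge h0 h1
  have hMm := MM_mono h0 h1 le_rfl
  have hS := SSq_le_S1 h0 h1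
  have hS' := SSq_ge tc h0
  have hS1 := S1_gt
  have hd := (S_diff h0 h1).2
  have hMd := (M_diff h0 h1).2
  have hlow := E_lower h0 h1
  have h2 : 1 / SSq tc x - 1 / S1 ≤ S1 - SSq tc x := by
    have : 1 / SSq tc x - 1 / S1 = (S1 - SSq tc x) / (SSq tc x * S1) := by
      have : SSq tc x ≠ 0 := by linarith
      have : S1 ≠ 0 := by linarith
      field_simp
    rw [this]
    apply div_le_self (by linarith)
    nlinarith
  have h3 : 1 - MM x * (1 - 1 / SSq tc x) ≤ (LL 1 - LL x) + MM 1 * (CS * (1 - x)) := by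
    have e : 1 - MM x * (1 - 1 / SSq tc x) =
        (MM 1 - MM x) / MM 1 + MM x * (1 / SSq tc x - 1 / S1) := by
      have h9 : 1 / S1 = 1 - 1 / MM 1 := by have := S1_inv; linarith
      rw [h9]
      have : MM 1 ≠ 0 := by linarith
      field_simp
      ring
    rw [e]
    have h5 : (MM 1 - MM x) / MM 1 ≤ MM 1 - MM x := by
      apply div_le_self (by linarith) hM1.le
    have h6 : MM x * (1 / SSq tc x - 1 / S1) ≤ MM 1 * (CS * (1 - x)) := by
      apply mul_le_mul hMm (h2.trans hd) ?_ (by linarith)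
      have := one_div_le_one_div_of_le (by linarith) hS
      linarith
    linarith
  unfold Ef
  have h7 : 0 ≤ (LL 1 - LL x) + MM 1 * (CS * (1 - x)) := by
    have := LL_mono h0 h1 le_rfl
    have hc := CS_nonneg
    have : 0 ≤ 1 - x := by linarith
    have : 0 ≤ MM 1 * (CS * (1 - x)) := by positivity
    linarith
  calc AA x ^ 2 * (1 - MM x * (1 - 1 / SSq tc x)) ≤ AA x ^ 2 * ((LL 1 - LL x) + MM 1 * (CS * (1 - x))) :=
        mul_le_mul_of_nonneg_left h3 (by positivity)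
    _ ≤ _ := by
        apply mul_le_mul_of_nonneg_right _ h7
        nlinarith

/-! ### derivatives -/

theorem AA_hasDerivAt {x : ℝ} (h0 : 0 < x) (h1 : x < 1) :
    HasDerivAt AA ((LL x - AA x) / (2 * x)) x := by
  have hx : x ∈ Ioo (-1 : ℝ) 1 := ⟨by linarith, h1⟩
  have h := hasDerivAt_tsum_of_isPreconnected (𝕜 := ℝ) (F := ℝ) (u := fun n : ℕ => (n : ℝ) * an n)
    (g := fun n y => an n * y ^ n) (g' := fun n y => an n * (n * y ^ (n - 1))) (t := Ioo (-1 : ℝ) 1)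
    (y₀ := 0) (y := x) summable_nan isOpen_Ioo isPreconnected_Ioo
    (fun n y _ => (hasDerivAt_pow n y).const_mul (an n))
    (fun n y hy => by
      have ha := an_pos n
      rw [norm_mul, norm_mul, Real.norm_eq_abs, abs_of_pos ha, Real.norm_natCast, norm_pow,
        Real.norm_eq_abs]
      have : |y| ≤ 1 := abs_le.2 ⟨hy.1.le, hy.2.le⟩
      have h2 : |y| ^ (n - 1) ≤ 1 := pow_le_one₀ (abs_nonneg _) this
      have h3 : (n : ℝ) * |y| ^ (n - 1) ≤ n * 1 := mul_le_mul_of_nonneg_left h2 (by positivity)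
      nlinarith)
    ⟨by norm_num, by norm_num⟩
    (by
      refine summable_of_ne_finset_zero (s := {0}) (fun b hb => ?_)
      have : b ≠ 0 := by simpa using hb
      simp [this]) hx
  have e : ∑' n : ℕ, an n * ((n : ℝ) * x ^ (n - 1)) = (LL x - AA x) / (2 * x) := by
    rw [eq_div_iff (by positivity)]
    have s1 := summable_pow summable_bn (fun n => by have := an_pos n; positivity) h0.le h1.le
    have s2 := summable_pow summable_an (fun n => (an_pos n).le) h0.le h1.le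
    unfold LL
    rw [AA_eq, ← s1.tsum_sub s2, ← tsum_mul_right]
    refine tsum_congr fun n => ?_
    rcases n with _ | n
    · simp
    · rw [Nat.add_sub_cancel, pow_succ]
      ring
  rw [e] at h
  exact h

theorem Y_hasDerivAt {x : ℝ} (h0 : 0 < x) (h1 : x < 1) :
    HasDerivAt (fun x => x * AA x ^ 2) (AA x * LL x) x := by
  have h := (hasDerivAt_id x).mul ((AA_hasDerivAt h0 h1).pow 2)
  have e : 1 * AA x ^ 2 + id x * (((2 : ℕ) : ℝ) * AA x ^ (2 - 1) * ((LL x - AA x) / (2 * x))) =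
      AA x * LL x := by
    simp only [id]
    push_cast
    field_simp
    norm_num
  rw [← e]
  exact h

theorem S_hasDerivAt {x : ℝ} (h0 : 0 < x) (h1 : x < 1) :
    HasDerivAt (SSq tc) (tc ^ 2 * (AA x * LL x) / (2 * SSq tc x)) x := by
  have h := ((Y_hasDerivAt h0 h1).const_mul (tc ^ 2)).const_add 1
  have hne : 1 + tc ^ 2 * (x * AA x ^ 2) ≠ 0 := by positivity
  exact h.sqrt hne

theorem Ph_hasDerivAt {x : ℝ} (h0 : 0 < x) (h1 : x < 1) :
    HasDerivAt (Ph tc) ((LL x - AA x) / (2 * x) + tc ^ 2 * (AA x * LL x) / (2 * SSq tc x)) x :=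
  ((AA_hasDerivAt h0 h1).add (S_hasDerivAt h0 h1)).sub_const 1

theorem Z_hasDerivAt {x : ℝ} (h0 : 0 < x) (h1 : x < 1) :
    HasDerivAt (Zf tc) ((1 + tc) ^ 2 * (AA x * Ef x) / Ph tc x ^ 3) x := by
  have hP := Ph_ge h0.le h1.le
  have hS := SSq_ge tc h0.le
  have hA := AA_ge h0.le h1.le
  have hS0 : SSq tc x ≠ 0 := by linarith
  have hP0 : Ph tc x ≠ 0 := by linarith
  have h := ((Y_hasDerivAt h0 h1).const_mul ((1 + tc) ^ 2)).div ((Ph_hasDerivAt h0 h1).pow 2)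
    (pow_ne_zero 2 hP0)
  have e1 : tc ^ 2 * (x * AA x ^ 2) = SSq tc x ^ 2 - 1 := by rw [SSq_sq tc h0.le]; ring
  have hLL := LL_eq h0.le h1.le
  have key : AA x * LL x * Ph tc x - 2 * (x * AA x ^ 2) *
      ((LL x - AA x) / (2 * x) + tc ^ 2 * (AA x * LL x) / (2 * SSq tc x)) = AA x * Ef x := by
    have e2 : 2 * (x * AA x ^ 2) * ((LL x - AA x) / (2 * x) + tc ^ 2 * (AA x * LL x) / (2 * SSq tc x)) =
        AA x ^ 2 * (LL x - AA x) + (tc ^ 2 * (x * AA x ^ 2)) * (AA x * LL x) / SSq tc x := by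
      field_simp
    rw [e2, e1]
    unfold Ef Ph
    rw [hLL]
    field_simp
    ring
  have e : ((1 + tc) ^ 2 * (AA x * LL x) * Ph tc x ^ 2 - (1 + tc) ^ 2 * (x * AA x ^ 2) *
      (((2 : ℕ) : ℝ) * Ph tc x ^ (2 - 1) * ((LL x - AA x) / (2 * x) +
        tc ^ 2 * (AA x * LL x) / (2 * SSq tc x)))) / (Ph tc x ^ 2) ^ 2 =
      (1 + tc) ^ 2 * (AA x * Ef x) / Ph tc x ^ 3 := by
    rw [← key]
    rw [div_eq_div_iff (by positivity) (by positivity)]
    push_cast
    norm_num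
    ring
  rw [← e]
  exact h

theorem AA_cont : ContinuousOn AA (Icc 0 1) := by
  refine continuousOn_tsum (u := an) (fun n => by fun_prop) summable_an (fun n x hx => ?_)
  rw [norm_mul, Real.norm_eq_abs]
  change |an n| * ‖x ^ n‖ ≤ an n
  rw [abs_of_pos (an_pos n), norm_pow, Real.norm_eq_abs, abs_of_nonneg hx.1]
  have := pow_le_one₀ (n := n) hx.1 hx.2
  have := an_pos n
  nlinarith

theorem S_cont : ContinuousOn (SSq tc) (Icc 0 1) := by
  unfold SSq
  have := AA_cont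
  fun_prop

theorem Ph_cont : ContinuousOn (Ph tc) (Icc 0 1) := by
  have h1 := AA_cont
  have h2 := S_cont
  unfold Ph
  fun_prop

theorem Z_cont : ContinuousOn (Zf tc) (Icc 0 1) := by
  have h1 := AA_cont
  have h2 := Ph_cont
  unfold Zf
  refine ContinuousOn.div (by fun_prop) (by fun_prop) (fun x hx => ?_)
  have := Ph_ge hx.1 hx.2
  positivity

end Pool.Agent.TH979
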