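import Mathlib

set_option autoImplicit false

/-! Abstract Tauberian-type estimates. -/

namespace Pool.Agent.TH979

open Finset Set Filter

theorem one_sub_pow_ge {η : ℝ} (h0 : 0 < η) (h1 : η ≤ 1) (n : ℕ) (hn : n * η ≤ 1) :
    n * η / 2 ≤ 1 - (1 - η) ^ n := by
  have hb : 1 + n * η ≤ (1 + η) ^ n := by
    have := one_add_mul_le_pow (show (-2 : ℝ) ≤ η by linarith) n
    linarith
  have hs : 0 ≤ (1 - η) ^ n := pow_nonneg (by linarith) n
  have hp : (1 + η) ^ n * (1 - η) ^ n ≤ 1 := by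
    rw [← mul_pow]
    apply pow_le_one₀
    · nlinarith
    · nlinarith
  have h2 : (1 + n * η) * (1 - η) ^ n ≤ 1 :=
    le_trans (mul_le_mul_of_nonneg_right hb hs) hp
  have hnn : 0 ≤ (n : ℝ) * η := by positivity
  nlinarith

theorem lower_D (b : ℕ → ℝ) (hb : ∀ n, 0 ≤ b n) (hs : Summable b) (c' : ℝ) (hc : 0 < c') (n0 : ℕ)
    (hn0 : 1 ≤ n0) (hlow : ∀ n : ℕ, n0 ≤ n → c' / (n * Real.sqrt n) ≤ b n) (η : ℝ) (hη0 : 0 < η)
    (hη : η * (4 * n0) ≤ 1) :
    c' / 4 * Real.sqrt η ≤ ∑' n, b n * (1 - (1 - η) ^ n) := by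
  have hn0' : (1 : ℝ) ≤ n0 := by exact_mod_cast hn0
  have hη1 : η ≤ 1 := by nlinarith
  have hinv : 4 * (n0 : ℝ) ≤ 1 / η := by
    rw [le_div_iff₀ hη0]; linarith
  set N := ⌊1 / η⌋₊ with hN
  have hN1 : (N : ℝ) ≤ 1 / η := Nat.floor_le (by positivity)
  have hN2 : 1 / η < N + 1 := Nat.lt_floor_add_one _
  have hN4 : 4 * n0 ≤ N := Nat.le_floor (by push_cast; linarith)
  have hN4' : 4 * (n0 : ℝ) ≤ N := by exact_mod_cast hN4
  have hterm0 : ∀ n, 0 ≤ b n * (1 - (1 - η) ^ n) := fun n =>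
    mul_nonneg (hb n) (by
      have := pow_le_one₀ (n := n) (show 0 ≤ 1 - η by linarith) (by linarith)
      linarith)
  have hsum : Summable (fun n => b n * (1 - (1 - η) ^ n)) := by
    refine Summable.of_nonneg_of_le hterm0 (fun n => ?_) hs
    have := pow_nonneg (show 0 ≤ 1 - η by linarith) n
    have := hb n
    nlinarith
  have hle := hsum.sum_le_tsum (Finset.Ico n0 N) (fun n _ => hterm0 n)
  refine le_trans ?_ hle
  have hsq : 0 < Real.sqrt η := Real.sqrt_pos.2 hη0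
  have hsqsq : Real.sqrt η * Real.sqrt η = η := Real.mul_self_sqrt hη0.le
  have hterm : ∀ n ∈ Finset.Ico n0 N, c' * η * Real.sqrt η / 2 ≤ b n * (1 - (1 - η) ^ n) := by
    intro n hn
    rw [Finset.mem_Ico] at hn
    have hnR : (n0 : ℝ) ≤ n := by exact_mod_cast hn.1
    have hnN : (n : ℝ) ≤ N := by exact_mod_cast hn.2.le
    have hnpos : 0 < (n : ℝ) := by linarith
    have hnη : n * η ≤ 1 := by
      have : (n : ℝ) ≤ 1 / η := by linarith
      rw [le_div_iff₀ hη0] at this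
      exact this
    have h1 := one_sub_pow_ge hη0 hη1 n hnη
    have h2 := hlow n hn.1
    have hsn : 0 < Real.sqrt n := Real.sqrt_pos.2 hnpos
    have h3 : c' / (n * Real.sqrt n) * (n * η / 2) ≤ b n * (1 - (1 - η) ^ n) :=
      mul_le_mul h2 h1 (by positivity) (hb n)
    refine le_trans ?_ h3
    have e : c' / (n * Real.sqrt n) * (n * η / 2) = c' * η / 2 * (1 / Real.sqrt n) := by
      field_simp
    rw [e]
    have h4 : Real.sqrt η ≤ 1 / Real.sqrt n := by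
      rw [le_div_iff₀ hsn, ← Real.sqrt_mul hη0.le, Real.sqrt_le_one]
      linarith
    have h5 : 0 ≤ c' * η / 2 := by positivity
    have := mul_le_mul_of_nonneg_left h4 h5
    linarith
  have hcard := Finset.card_nsmul_le_sum (Finset.Ico n0 N) _ _ hterm
  refine le_trans ?_ hcard
  rw [nsmul_eq_mul, Nat.card_Ico]
  have hsub : ((N - n0 : ℕ) : ℝ) = N - n0 := by
    rw [Nat.cast_sub (by omega)]
  rw [hsub]
  have h6 : 1 / (2 * η) ≤ (N : ℝ) - n0 := by
    have e : 1 / (2 * η) = (1 / η) / 2 := by field_simp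
    rw [e]
    linarith
  have h7 : 0 ≤ c' * η * Real.sqrt η / 2 := by positivity
  have h8 := mul_le_mul_of_nonneg_right h6 h7
  refine le_trans (le_of_eq ?_) h8
  field_simp
  ring

theorem one_sub_pow_le {η κ : ℝ} (h0 : 0 < η) (h1 : η ≤ 1) (hκ0 : 0 < κ) (hκ1 : κ ≤ 1) (n : ℕ) :
    1 - (1 - η) ^ n ≤ (n : ℝ) ^ κ * η ^ κ := by
  have hnn : 0 ≤ (n : ℝ) * η := by positivity
  rw [← Real.mul_rpow (Nat.cast_nonneg n) h0.le]
  have hs : 0 ≤ (1 - η) ^ n := pow_nonneg (by linarith) n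
  rcases le_total 1 ((n : ℝ) * η) with h | h
  · have := Real.one_le_rpow h hκ0.le
    linarith
  · have hb : 1 - n * η ≤ (1 - η) ^ n := by
      have := one_add_mul_le_pow (show (-2 : ℝ) ≤ -η by linarith) n
      have e : 1 + -η = 1 - η := by ring
      rw [e] at this
      linarith
    rcases eq_or_lt_of_le hnn with h2 | h2
    · rw [← h2] at hb ⊢
      rw [Real.zero_rpow hκ0.ne']
      linarith
    · have h3 := Real.rpow_le_rpow_of_exponent_ge h2 h hκ1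
      rw [Real.rpow_one] at h3
      linarith

theorem upper_D (b : ℕ → ℝ) (hb : ∀ n, 0 ≤ b n) (κ : ℝ) (hκ0 : 0 < κ) (hκ1 : κ ≤ 1)
    (hs : Summable b) (hs2 : Summable (fun n => b n * (n : ℝ) ^ κ)) (η : ℝ) (hη0 : 0 < η) (hη : η ≤ 1) :
    ∑' n, b n * (1 - (1 - η) ^ n) ≤ η ^ κ * ∑' n, b n * (n : ℝ) ^ κ := by
  rw [← tsum_mul_left]
  refine Summable.tsum_le_tsum (fun n => ?_) ?_ (hs2.mul_left _)
  · have := mul_le_mul_of_nonneg_left (one_sub_pow_le hη0 hη hκ0 hκ1 n) (hb n)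
    linarith
  · refine Summable.of_nonneg_of_le (fun n => ?_) (fun n => ?_) hs
    · refine mul_nonneg (hb n) ?_
      have := pow_le_one₀ (n := n) (show 0 ≤ 1 - η by linarith) (by linarith)
      linarith
    · have := pow_nonneg (show 0 ≤ 1 - η by linarith) n
      have := hb n
      nlinarith

/-- the sums at the boundary -/
theorem hasSum_boundary (q : ℕ → ℝ) (Z P : ℝ → ℝ) (hq : ∀ n, 0 ≤ q n) (hZ0 : ∀ x, 0 ≤ x → 0 ≤ Z x)
    (hsum : ∀ x, 0 < x → x < 1 → Summable (fun n => q n * Z x ^ n))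
    (heq : ∀ x, 0 < x → x < 1 → ∑' n, q n * Z x ^ n = P x)
    (hmono : ∀ x, 0 < x → x < 1 → Z x ≤ Z 1)
    (hPle : ∀ x, 0 < x → x < 1 → P x ≤ P 1)
    (hZc : ContinuousWithinAt Z (Icc 0 1) 1) (hPc : ContinuousWithinAt P (Icc 0 1) 1) :
    Summable (fun n => q n * Z 1 ^ n) ∧ ∑' n, q n * Z 1 ^ n = P 1 := by
  have hsub : Ioo (0 : ℝ) 1 ⊆ Icc 0 1 := Ioo_subset_Icc_self
  have hZt : Tendsto Z (nhdsWithin 1 (Ioo 0 1)) (nhds (Z 1)) := hZc.mono hsub
  have hPt : Tendsto P (nhdsWithin 1 (Ioo 0 1)) (nhds (P 1)) := hPc.mono hsub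
  haveI : (nhdsWithin (1 : ℝ) (Ioo 0 1)).NeBot := by
    rw [← mem_closure_iff_nhdsWithin_neBot, closure_Ioo (by norm_num : (0 : ℝ) ≠ 1)]
    exact ⟨zero_le_one, le_rfl⟩
  have hpart : ∀ N, ∑ n ∈ range N, q n * Z 1 ^ n ≤ P 1 := by
    intro N
    have h1 : Tendsto (fun x => ∑ n ∈ range N, q n * Z x ^ n) (nhdsWithin 1 (Ioo 0 1))
        (nhds (∑ n ∈ range N, q n * Z 1 ^ n)) :=
      tendsto_finset_sum _ fun n _ => (hZt.pow n).const_mul _
    refine le_of_tendsto h1 ?_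
    filter_upwards [self_mem_nhdsWithin] with x hx
    have h2 := (hsum x hx.1 hx.2).sum_le_tsum (range N)
      (fun n _ => mul_nonneg (hq n) (pow_nonneg (hZ0 x hx.1.le) n))
    rw [heq x hx.1 hx.2] at h2
    exact h2.trans (hPle x hx.1 hx.2)
  have hS : Summable (fun n => q n * Z 1 ^ n) :=
    summable_of_sum_range_le (fun n => mul_nonneg (hq n) (pow_nonneg (hZ0 1 zero_le_one) n)) hpart
  refine ⟨hS, le_antisymm ?_ ?_⟩
  · exact le_of_tendsto hS.hasSum.tendsto_sum_nat (Eventually.of_forall hpart)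
  · refine le_of_tendsto hPt ?_
    filter_upwards [self_mem_nhdsWithin] with x hx
    rw [← heq x hx.1 hx.2]
    refine Summable.tsum_le_tsum (fun n => ?_) (hsum x hx.1 hx.2) hS
    exact mul_le_mul_of_nonneg_left (pow_le_pow_left₀ (hZ0 x hx.1.le) (hmono x hx.1 hx.2) n) (hq n)

end Pool.Agent.TH979
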