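import Pool.Agent.TH979.Ident
import Pool.Agent.TH979.Tau

set_option autoImplicit false

/-! The return probabilities are not of the form `c n^{-d} ρ^{2n}`. -/

namespace Pool.Agent.TH979

open Finset Set Filter

theorem Z1_pos : 0 < Zf tc 1 := by
  have h1 := Z_strictMono (show (0 : ℝ) < 1 / 2 by norm_num) (by norm_num) (le_refl (1 : ℝ))
  have h2 : 0 ≤ Zf tc (1 / 2) := Z_nonneg (by norm_num)
  linarith

theorem boundary : Summable (fun n => qn n * Zf tc 1 ^ n) ∧ ∑' n, qn n * Zf tc 1 ^ n = Ph tc 1 :=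
  hasSum_boundary qn (Zf tc) (Ph tc) qn_nonneg (fun _ h => Z_nonneg h)
    (fun _ h0 h1 => qn_summable h0 h1) (fun _ h0 h1 => qn_eq h0 h1)
    (fun _ h0 h1 => (Z_strictMono h0 h1 le_rfl).le) (fun _ h0 h1 => Ph_le h0.le h1.le)
    (Z_cont 1 ⟨zero_le_one, le_rfl⟩) (Ph_cont 1 ⟨zero_le_one, le_rfl⟩)

/-- the sequence of normalized return probabilities -/
noncomputable def bn (n : ℕ) : ℝ := qn n * Zf tc 1 ^ n

theorem bn_nonneg (n : ℕ) : 0 ≤ bn n := mul_nonneg (qn_nonneg n) (pow_nonneg Z1_pos.le n)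

/-- the distance to the critical point -/
noncomputable def et (v : ℝ) : ℝ := 1 - Zf tc (xv v) / Zf tc 1

theorem et_pos {v : ℝ} (hv : 0 < v) : 0 < et v := by
  have h := Z_strictMono (xv_pos hv) (xv_lt v) (le_refl (1 : ℝ))
  have h1 := Z1_pos
  unfold et
  rw [sub_pos, div_lt_one h1]
  exact h

theorem et_le {v : ℝ} (hv : 0 < v) : et v ≤ 1 := by
  have h : 0 ≤ Zf tc (xv v) := Z_nonneg (xv_pos hv).le
  have h1 := Z1_pos
  have := div_nonneg h h1.le
  unfold et
  linarith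

theorem D_eq {v : ℝ} (hv : 0 < v) :
    Ph tc 1 - Ph tc (xv v) = ∑' n, bn n * (1 - (1 - et v) ^ n) := by
  obtain ⟨hS, he⟩ := boundary
  have h0 := xv_pos hv
  have h1 := xv_lt v
  rw [← he, ← qn_eq h0 h1, ← hS.tsum_sub (qn_summable h0 h1)]
  refine tsum_congr fun n => ?_
  have hz := Z1_pos
  unfold bn et
  have e : 1 - (1 - Zf tc (xv v) / Zf tc 1) = Zf tc (xv v) / Zf tc 1 := by ring
  rw [e, div_pow]
  field_simp

theorem et_bounds : ∃ v0 c C : ℝ, 1 ≤ v0 ∧ 0 < c ∧ 0 < C ∧ ∀ v, v0 ≤ v →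
    c * (Real.exp (-v) ^ 2 * v) ≤ et v ∧ et v ≤ C * (Real.exp (-v) ^ 2 * v) := by
  obtain ⟨v0, c, C, hv0, hc, hC, h⟩ := Z_bounds
  have hz := Z1_pos
  refine ⟨v0, c / Zf tc 1, C / Zf tc 1, hv0, by positivity, by positivity, fun v hv => ?_⟩
  have h1 := h v hv
  have e : et v = (Zf tc 1 - Zf tc (xv v)) / Zf tc 1 := by
    unfold et; field_simp
  rw [e]
  constructor
  · rw [div_mul_eq_mul_div, div_le_div_iff_of_pos_right hz]
    exact h1.1
  · rw [div_mul_eq_mul_div, div_le_div_iff_of_pos_right hz]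
    exact h1.2

theorem exp_sq_le {v : ℝ} (hv : 1 ≤ v) : Real.exp (-v) ^ 2 * v ≤ 1 / v := by
  have h1 := Real.add_one_le_exp v
  have h2 : Real.exp (-v) ≤ 1 / v := by
    rw [Real.exp_neg, ← one_div]
    exact one_div_le_one_div_of_le (by linarith) (by linarith)
  have h0 := Real.exp_pos (-v)
  calc Real.exp (-v) ^ 2 * v ≤ (1 / v) ^ 2 * v := by
        refine mul_le_mul_of_nonneg_right (pow_le_pow_left₀ h0.le h2 2) (by linarith)
    _ = 1 / v := by field_simp

theorem caseA (c' : ℝ) (hc : 0 < c') (n0 : ℕ) (hn0 : 1 ≤ n0)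
    (hlow : ∀ n : ℕ, n0 ≤ n → c' / (n * Real.sqrt n) ≤ bn n) : False := by
  obtain ⟨v0, c, C, hv0, hc0, hC0, h⟩ := et_bounds
  set K := (CA + CS) ^ 2 * 16 / (c' ^ 2 * c) with hK
  have hK0 : 0 ≤ K := by positivity
  set v := v0 + 4 * n0 * C + K + 1 with hv
  have hn0' : (1 : ℝ) ≤ n0 := by exact_mod_cast hn0
  have hp : 0 ≤ 4 * (n0 : ℝ) * C := by positivity
  have hvv0 : v0 ≤ v := by linarith
  have hv1 : 1 ≤ v := by linarith
  have hvpos : 0 < v := by linarith
  obtain ⟨he1, he2⟩ := h v hvv0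
  have hη : et v * (4 * n0) ≤ 1 := by
    have h3 := exp_sq_le hv1
    have h4 : et v ≤ C * (1 / v) := he2.trans (mul_le_mul_of_nonneg_left h3 hC0.le)
    have h5 : et v * (4 * n0) ≤ C * (1 / v) * (4 * n0) :=
      mul_le_mul_of_nonneg_right h4 (by positivity)
    refine h5.trans ?_
    rw [show C * (1 / v) * (4 * n0) = (4 * n0 * C) / v by ring, div_le_one hvpos]
    linarith
  have hD := lower_D bn bn_nonneg boundary.1 c' hc n0 hn0 hlow (et v) (et_pos hvpos) hη
  rw [← D_eq hvpos] at hD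
  have hP := (Ph_diff (xv_pos hvpos).le (xv_lt v).le).2
  rw [one_sub_xv] at hP
  have hCA := CA_nonneg
  have hCS := CS_nonneg
  have h6 : c' / 4 * Real.sqrt (et v) ≤ (CA + CS) * Real.exp (-v) := hD.trans hP
  have h7 : (c' / 4 * Real.sqrt (et v)) ^ 2 ≤ ((CA + CS) * Real.exp (-v)) ^ 2 :=
    pow_le_pow_left₀ (by positivity) h6 2
  rw [mul_pow, mul_pow, Real.sq_sqrt (et_pos hvpos).le] at h7
  have h8 : (c' / 4) ^ 2 * (c * (Real.exp (-v) ^ 2 * v)) ≤ (CA + CS) ^ 2 * Real.exp (-v) ^ 2 :=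
    le_trans (mul_le_mul_of_nonneg_left he1 (by positivity)) h7
  have he : 0 < Real.exp (-v) ^ 2 := by positivity
  have h9 : (c' / 4) ^ 2 * c * v ≤ (CA + CS) ^ 2 := by
    have : ((c' / 4) ^ 2 * c * v) * Real.exp (-v) ^ 2 ≤ (CA + CS) ^ 2 * Real.exp (-v) ^ 2 := by
      linarith
    exact le_of_mul_le_mul_right this he
  have h10 : v ≤ K := by
    rw [hK, le_div_iff₀ (by positivity)]
    linarith
  linarith

theorem caseB (κ : ℝ) (hκ0 : 1 / 2 < κ) (hκ1 : κ ≤ 1)
    (hs : Summable (fun n => bn n * (n : ℝ) ^ κ)) : False := by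
  obtain ⟨v0, c, C, hv0, hc0, hC0, h⟩ := et_bounds
  set T := ∑' n, bn n * (n : ℝ) ^ κ with hT
  have hT0 : 0 ≤ T := tsum_nonneg fun n => mul_nonneg (bn_nonneg n) (by positivity)
  have hS1 := S1_gt
  have htc := tc_pos
  set a := tc ^ 2 / (2 * S1) with ha
  have ha0 : 0 < a := by positivity
  have key : ∀ v, v0 ≤ v → a ≤ T * C ^ κ * (v ^ κ * Real.exp (-(2 * κ - 1) * v)) := by
    intro v hv
    have hvpos : 0 < v := by linarith
    obtain ⟨he1, he2⟩ := h v hv
    have hD := upper_D bn bn_nonneg κ (by linarith) hκ1 boundary.1 hs (et v) (et_pos hvpos)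
      (et_le hvpos)
    rw [← D_eq hvpos] at hD
    have hP := (Ph_diff (xv_pos hvpos).le (xv_lt v).le).1
    rw [one_sub_xv] at hP
    have h1 : a * Real.exp (-v) ≤ et v ^ κ * T := hP.trans hD
    have h2 : et v ^ κ ≤ (C * (Real.exp (-v) ^ 2 * v)) ^ κ :=
      Real.rpow_le_rpow (et_pos hvpos).le he2 (by linarith)
    have h3 : (C * (Real.exp (-v) ^ 2 * v)) ^ κ = C ^ κ * (Real.exp (-(2 * κ) * v) * v ^ κ) := by
      rw [Real.mul_rpow hC0.le (by positivity), Real.mul_rpow (by positivity) hvpos.le]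
      congr 2
      rw [← Real.exp_nat_mul, ← Real.exp_mul]
      congr 1
      push_cast
      ring
    rw [h3] at h2
    have h4 : a * Real.exp (-v) ≤ C ^ κ * (Real.exp (-(2 * κ) * v) * v ^ κ) * T :=
      h1.trans (mul_le_mul_of_nonneg_right h2 hT0)
    have h5 : a = a * Real.exp (-v) * Real.exp v := by
      rw [mul_assoc, ← Real.exp_add]
      simp
    rw [h5]
    refine (mul_le_mul_of_nonneg_right h4 (Real.exp_pos v).le).trans (le_of_eq ?_)
    have h6 : Real.exp (-(2 * κ - 1) * v) = Real.exp (-(2 * κ) * v) * Real.exp v := by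
      rw [← Real.exp_add]; congr 1; ring
    rw [h6]
    ring
  have hlim := (tendsto_rpow_mul_exp_neg_mul_atTop_nhds_zero κ (2 * κ - 1) (by linarith)).const_mul
    (T * C ^ κ)
  rw [mul_zero] at hlim
  have hge : a ≤ 0 := by
    refine ge_of_tendsto hlim ?_
    filter_upwards [eventually_ge_atTop v0] with v hv
    exact key v hv
  linarith

theorem rpow_three_half {n : ℕ} (hn : 1 ≤ n) : (n : ℝ) ^ (-(3 / 2 : ℝ)) = 1 / (n * Real.sqrt n) := by
  have hn' : (0 : ℝ) < n := by exact_mod_cast hn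
  rw [Real.rpow_neg hn'.le, ← one_div]
  congr 1
  rw [show (3 / 2 : ℝ) = 1 + 1 / 2 by norm_num, Real.rpow_add hn', Real.rpow_one,
    ← Real.sqrt_eq_rpow]

theorem caseA' (c' : ℝ) (hc : 0 < c')
    (hlow : ∀ᶠ n : ℕ in atTop, c' * (n : ℝ) ^ (-(3 / 2 : ℝ)) ≤ bn n) : False := by
  obtain ⟨N, hN⟩ := eventually_atTop.1 hlow
  refine caseA c' hc (max N 1) (le_max_right _ _) (fun n hn => ?_)
  have h1 : 1 ≤ n := le_trans (le_max_right _ _) hn
  have h2 := hN n (le_trans (le_max_left _ _) hn)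
  rw [rpow_three_half h1] at h2
  rw [div_eq_mul_one_div]
  exact h2

theorem caseB' (C' p : ℝ) (hp1 : 3 / 2 < p) (hp2 : p ≤ 2)
    (hup : ∀ᶠ n : ℕ in atTop, bn n ≤ C' * (n : ℝ) ^ (-p)) : False := by
  refine caseB (p / 2 - 1 / 4) (by linarith) (by linarith) ?_
  have hs : Summable (fun n : ℕ => (n : ℝ) ^ (p / 2 - 1 / 4 - p)) :=
    Real.summable_nat_rpow.2 (by linarith)
  refine Summable.of_norm_bounded_eventually_nat (hs.mul_left C') ?_
  filter_upwards [hup, eventually_ge_atTop 1] with n hn h1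
  have hn' : (0 : ℝ) < n := by exact_mod_cast h1
  rw [Real.norm_eq_abs, abs_of_nonneg (mul_nonneg (bn_nonneg n) (by positivity))]
  have h2 : bn n * (n : ℝ) ^ (p / 2 - 1 / 4) ≤ C' * (n : ℝ) ^ (-p) * (n : ℝ) ^ (p / 2 - 1 / 4) :=
    mul_le_mul_of_nonneg_right hn (by positivity)
  refine h2.trans (le_of_eq ?_)
  rw [mul_assoc, ← Real.rpow_add hn']
  congr 2
  ring

theorem not_equiv (c d ρ : ℝ) (hc : 0 < c) (hρ : 0 ≤ ρ)
    (h : Asymptotics.IsEquivalent atTop qn (fun n : ℕ => c * (n : ℝ) ^ (-d) * ρ ^ (2 * n))) :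
    False := by
  obtain ⟨φ, hφ, he⟩ := h.exists_eq_mul
  have hz := Z1_pos
  set θ := ρ ^ 2 * Zf tc 1 with hθ
  have hθ0 : 0 ≤ θ := by positivity
  have e1 : ∀ᶠ n : ℕ in atTop, bn n = φ n * (c * ((n : ℝ) ^ (-d) * θ ^ n)) := by
    filter_upwards [he] with n hn
    unfold bn
    rw [hn, hθ, mul_pow, ← pow_mul]
    simp only [Pi.mul_apply]
    ring
  have e2 : ∀ᶠ n : ℕ in atTop, c / 2 * ((n : ℝ) ^ (-d) * θ ^ n) ≤ bn n ∧
      bn n ≤ 2 * c * ((n : ℝ) ^ (-d) * θ ^ n) := by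
    have hlo : ∀ᶠ n in atTop, 1 / 2 < φ n := hφ.eventually (lt_mem_nhds (by norm_num))
    have hhi : ∀ᶠ n in atTop, φ n < 2 := hφ.eventually (gt_mem_nhds (by norm_num))
    filter_upwards [e1, hlo, hhi] with n h1 h2 h3
    rw [h1]
    have h4 : 0 ≤ c * ((n : ℝ) ^ (-d) * θ ^ n) := by positivity
    constructor
    · have := mul_le_mul_of_nonneg_right h2.le h4
      linarith
    · have := mul_le_mul_of_nonneg_right h3.le h4
      linarith
  rcases lt_trichotomy θ 1 with hlt | heq | hgt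
  · -- θ < 1
    obtain ⟨m, hm⟩ := exists_nat_ge (2 - d)
    have hlim := tendsto_pow_const_mul_const_pow_of_abs_lt_one m
      (show |θ| < 1 by rw [abs_of_nonneg hθ0]; exact hlt)
    have hev : ∀ᶠ n : ℕ in atTop, (n : ℝ) ^ m * θ ^ n < 1 :=
      hlim.eventually (gt_mem_nhds (by norm_num))
    refine caseB' (2 * c) 2 (by norm_num) le_rfl ?_
    filter_upwards [e2, hev, eventually_ge_atTop 1] with n h1 h2 h3
    refine h1.2.trans (mul_le_mul_of_nonneg_left ?_ (by positivity))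
    have hn' : (1 : ℝ) ≤ n := by exact_mod_cast h3
    have hn0 : (0 : ℝ) < n := by linarith
    have h4 : θ ^ n ≤ (n : ℝ) ^ (-(m : ℝ)) := by
      rw [Real.rpow_neg hn0.le, Real.rpow_natCast, ← one_div, le_div_iff₀ (by positivity)]
      linarith
    calc (n : ℝ) ^ (-d) * θ ^ n ≤ (n : ℝ) ^ (-d) * (n : ℝ) ^ (-(m : ℝ)) :=
          mul_le_mul_of_nonneg_left h4 (by positivity)
      _ = (n : ℝ) ^ (-d + -(m : ℝ)) := by rw [Real.rpow_add hn0]
      _ ≤ (n : ℝ) ^ (-2 : ℝ) := Real.rpow_le_rpow_of_exponent_le hn' (by linarith)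
  · -- θ = 1
    rcases le_or_gt d (3 / 2) with hd | hd
    · refine caseA' (c / 2) (by positivity) ?_
      filter_upwards [e2, eventually_ge_atTop 1] with n h1 h3
      refine le_trans (mul_le_mul_of_nonneg_left ?_ (by positivity)) h1.1
      have hn' : (1 : ℝ) ≤ n := by exact_mod_cast h3
      rw [heq, one_pow, mul_one]
      exact Real.rpow_le_rpow_of_exponent_le hn' (by linarith)
    · refine caseB' (2 * c) (min d 2) (lt_min hd (by norm_num)) (min_le_right _ _) ?_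
      filter_upwards [e2, eventually_ge_atTop 1] with n h1 h3
      refine h1.2.trans (mul_le_mul_of_nonneg_left ?_ (by positivity))
      have hn' : (1 : ℝ) ≤ n := by exact_mod_cast h3
      rw [heq, one_pow, mul_one]
      exact Real.rpow_le_rpow_of_exponent_le hn' (by
        have := min_le_left d 2
        linarith)
  · -- θ > 1
    obtain ⟨m, hm⟩ := exists_nat_ge (d - 3 / 2)
    have hθ1 : 0 < θ := by linarith
    have hlim := tendsto_pow_const_mul_const_pow_of_abs_lt_one m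
      (show |θ⁻¹| < 1 by
        rw [abs_of_nonneg (by positivity)]
        exact inv_lt_one_of_one_lt₀ hgt)
    have hev : ∀ᶠ n : ℕ in atTop, (n : ℝ) ^ m * θ⁻¹ ^ n < 1 :=
      hlim.eventually (gt_mem_nhds (by norm_num))
    refine caseA' (c / 2) (by positivity) ?_
    filter_upwards [e2, hev, eventually_ge_atTop 1] with n h1 h2 h3
    refine le_trans (mul_le_mul_of_nonneg_left ?_ (by positivity)) h1.1
    have hn' : (1 : ℝ) ≤ n := by exact_mod_cast h3
    have hn0 : (0 : ℝ) < n := by linarith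
    have h4 : (n : ℝ) ^ (m : ℝ) ≤ θ ^ n := by
      rw [Real.rpow_natCast]
      rw [inv_pow, ← div_eq_mul_inv, div_lt_one (by positivity)] at h2
      exact h2.le
    calc (n : ℝ) ^ (-(3 / 2 : ℝ)) ≤ (n : ℝ) ^ (-d + (m : ℝ)) :=
          Real.rpow_le_rpow_of_exponent_le hn' (by linarith)
      _ = (n : ℝ) ^ (-d) * (n : ℝ) ^ (m : ℝ) := by rw [Real.rpow_add hn0]
      _ ≤ (n : ℝ) ^ (-d) * θ ^ n := mul_le_mul_of_nonneg_left h4 (by positivity)

end Pool.Agent.TH979
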