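import Pool.Agent.TH979.RD2

set_option autoImplicit false

/-! The free product of two copies of `ℤ^6` has rapid decay. -/

namespace Pool.Agent.TH979

open scoped ENNReal

/-- `ℤ^6` in multiplicative form -/
abbrev Z6 : Type := Multiplicative (Fin 6 → ℤ)

/-- the `ℓ¹` length -/
def l1 (a : Z6) : ℕ := ∑ j, (Multiplicative.toAdd a j).natAbs

/-- product weight -/
def vv (a : Z6) : ℕ := ∏ j, (1 + (Multiplicative.toAdd a j).natAbs)

theorem l1_one : l1 1 = 0 := by simp [l1]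

theorem l1_pos (a : Z6) (h : a ≠ 1) : 1 ≤ l1 a := by
  by_contra hc
  apply h
  have h0 : l1 a = 0 := by omega
  unfold l1 at h0
  rw [Finset.sum_eq_zero_iff] at h0
  have : Multiplicative.toAdd a = 0 := by
    funext j
    have := h0 j (Finset.mem_univ _)
    simpa using this
  exact this

theorem vv_ne (a : Z6) : vv a ≠ 0 := by
  unfold vv
  exact Finset.prod_ne_zero_iff.2 fun j _ => by omega

theorem vv_le (a : Z6) : vv a ^ 2 ≤ (1 + l1 a) ^ 12 := by
  have : vv a ≤ (1 + l1 a) ^ 6 := by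
    unfold vv
    calc ∏ j : Fin 6, (1 + (Multiplicative.toAdd a j).natAbs) ≤ ∏ _j : Fin 6, (1 + l1 a) := by
          refine Finset.prod_le_prod' fun j _ => ?_
          have : (Multiplicative.toAdd a j).natAbs ≤ l1 a := by
            unfold l1
            exact Finset.single_le_sum (f := fun j => (Multiplicative.toAdd a j).natAbs)
              (fun _ _ => Nat.zero_le _) (Finset.mem_univ j)
          omega
      _ = (1 + l1 a) ^ 6 := by simp
  calc vv a ^ 2 ≤ ((1 + l1 a) ^ 6) ^ 2 := Nat.pow_le_pow_left this 2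
    _ = _ := by rw [← pow_mul]

theorem tsum_fin_prod (u : ℤ → ℝ≥0∞) (n : ℕ) :
    ∑' a : Fin n → ℤ, ∏ j, u (a j) = (∑' k, u k) ^ n := by
  induction n with
  | zero =>
    rw [tsum_eq_single (fun i => i.elim0)]
    · simp
    · intro b hb
      exact absurd (Subsingleton.elim _ _) hb
  | succ n ih =>
    rw [← Equiv.tsum_eq (Fin.consEquiv (fun _ : Fin (n+1) => ℤ))]
    have : ∀ p : ℤ × (Fin n → ℤ), ∏ j, u ((Fin.consEquiv (fun _ : Fin (n+1) => ℤ)) p j) =
        u p.1 * ∏ j, u (p.2 j) := by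
      intro p
      rw [Fin.prod_univ_succ]
      simp [Fin.consEquiv]
    simp_rw [this]
    rw [ENNReal.tsum_prod (f := fun (k : ℤ) (b : Fin n → ℤ) => u k * ∏ j, u (b j))]
    simp_rw [ENNReal.tsum_mul_left]
    rw [ih, ENNReal.tsum_mul_right, pow_succ, mul_comm]

theorem tsum_int_ne_top : ∑' k : ℤ, ((1 + k.natAbs : ℕ) : ℝ≥0∞)⁻¹ ^ 2 ≠ ∞ := by
  have h : Summable (fun k : ℤ => (1 : ℝ) / ((1 + k.natAbs : ℕ) : ℝ) ^ 2) := by
    have h1 : Summable (fun k : ℕ => (1 : ℝ) / ((k : ℝ) + 1) ^ 2) := by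
      have := (summable_nat_add_iff 1).2 (Real.summable_one_div_nat_pow.2 (by norm_num : 1 < 2))
      refine this.congr fun k => ?_
      push_cast
      rfl
    refine Summable.of_nat_of_neg ?_ ?_
    · refine h1.congr fun k => ?_
      simp [add_comm]
    · refine h1.congr fun k => ?_
      simp [add_comm]
  have h2 := h.tsum_ofReal_ne_top
  refine ne_of_eq_of_ne ?_ h2
  refine tsum_congr fun k => ?_
  rw [ENNReal.ofReal_div_of_pos (by positivity), ENNReal.ofReal_pow (by positivity)]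
  simp only [ENNReal.ofReal_one, ENNReal.ofReal_natCast]
  rw [one_div, ENNReal.inv_pow]

theorem vv_sum : ∑' a : Z6, ((vv a : ℝ≥0∞))⁻¹ ^ 2 ≠ ∞ := by
  have h : ∀ a : Fin 6 → ℤ, ((vv (Multiplicative.ofAdd a) : ℝ≥0∞))⁻¹ ^ 2 =
      ∏ j, (((1 + (a j).natAbs : ℕ) : ℝ≥0∞)⁻¹ ^ 2) := by
    intro a
    unfold vv
    rw [Finset.prod_pow]
    congr 1
    push_cast
    rw [ENNReal.prod_inv_distrib]
    · rfl
    · intro i _ j _ _
      left
      positivity
  rw [← Equiv.tsum_eq (Multiplicative.ofAdd (α := Fin 6 → ℤ))]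
  simp_rw [h]
  rw [tsum_fin_prod (fun k => ((1 + k.natAbs : ℕ) : ℝ≥0∞)⁻¹ ^ 2)]
  exact ENNReal.pow_ne_top tsum_int_ne_top

/-- the group -/
abbrev GG : Type := FP Z6

/-- basis vectors -/
def bas (j : Fin 6) : Z6 := Multiplicative.ofAdd (Pi.single j (1 : ℤ))

theorem mem_closure_bas (a : Z6) : a ∈ Subgroup.closure (Set.range bas) := by
  have h : a = ∏ j, bas j ^ (Multiplicative.toAdd a j) := by
    apply Multiplicative.toAdd.injective
    rw [toAdd_prod]
    funext k
    simp only [toAdd_zpow, bas, toAdd_ofAdd, Finset.sum_apply, Pi.smul_apply]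
    rw [Finset.sum_eq_single k]
    · simp
    · intro b _ hb
      simp [Pi.single_apply, hb.symm]
    · simp
  rw [h]
  exact Subgroup.prod_mem _ fun j _ => Subgroup.zpow_mem _ (Subgroup.subset_closure (Set.mem_range_self j)) _

/-- generating set -/
def SS : Finset GG := Finset.univ.image (fun p : Bool × Fin 6 => em p.1 (bas p.2))

theorem mem_SS (i : Bool) (j : Fin 6) : em i (bas j) ∈ SS :=
  Finset.mem_image.2 ⟨(i, j), Finset.mem_univ _, rfl⟩

theorem closure_SS : Subgroup.closure (SS : Set GG) = ⊤ := by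
  rw [eq_top_iff]
  intro x _
  have hem : ∀ (i : Bool) (a : Z6), em i a ∈ Subgroup.closure (SS : Set GG) := by
    intro i a
    have h1 : Subgroup.closure (Set.range bas) ≤ (Subgroup.closure (SS : Set GG)).comap (em i) := by
      rw [Subgroup.closure_le]
      rintro _ ⟨j, rfl⟩
      exact Subgroup.subset_closure (mem_SS i j)
    exact h1 (mem_closure_bas a)
  induction x using Monoid.CoprodI.induction_on with
  | one => exact Subgroup.one_mem _
  | of i m => exact hem i m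
  | mul x y hx hy => exact Subgroup.mul_mem _ (hx trivial) (hy trivial)

theorem l1_mul_le (a b : Z6) : l1 (a * b) ≤ l1 a + l1 b := by
  unfold l1
  rw [← Finset.sum_add_distrib]
  refine Finset.sum_le_sum fun j _ => ?_
  rw [toAdd_mul, Pi.add_apply]
  exact Int.natAbs_add_le _ _

theorem l1_inv (a : Z6) : l1 a⁻¹ = l1 a := by
  unfold l1
  refine Finset.sum_congr rfl fun j _ => ?_
  rw [toAdd_inv, Pi.neg_apply, Int.natAbs_neg]

theorem l1_bas (j : Fin 6) : l1 (bas j) = 1 := by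
  unfold l1 bas
  rw [Finset.sum_eq_single j]
  · simp
  · intro b _ hb
    simp [Pi.single_apply, hb]
  · simp

theorem af_mul_gen (y : GG) (hy : y ∈ SS ∨ y⁻¹ ∈ SS) (x : GG) :
    af l1 (y * x) ≤ 1 + af l1 x := by
  obtain ⟨i, a, ha, rfl⟩ : ∃ (i : Bool) (a : Z6), l1 a = 1 ∧ y = em i a := by
    rcases hy with hy | hy
    · obtain ⟨p, _, hp⟩ := Finset.mem_image.1 hy
      exact ⟨p.1, bas p.2, l1_bas _, hp.symm⟩
    · obtain ⟨p, _, hp⟩ := Finset.mem_image.1 hy
      refine ⟨p.1, (bas p.2)⁻¹, by rw [l1_inv, l1_bas], ?_⟩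
      rw [map_inv, hp, inv_inv]
  rw [af_em_mul l1 l1_one, af_dec l1 l1_one i x]
  have := l1_mul_le a (hd i x)
  omega

theorem af_prod_le (l : List GG) (hl : ∀ y ∈ l, y ∈ SS ∨ y⁻¹ ∈ SS) : af l1 l.prod ≤ l.length := by
  induction l with
  | nil => simp [af_one]
  | cons y l ih =>
    rw [List.prod_cons, List.length_cons]
    have h1 := af_mul_gen y (hl y (by simp)) l.prod
    have h2 := ih (fun z hz => hl z (by simp [hz]))
    omega

theorem af_le_word (x : GG) : af l1 x ≤ sInf {n : ℕ | ∃ l : List GG, l.length = n ∧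
    (∀ y ∈ l, y ∈ SS ∨ y⁻¹ ∈ SS) ∧ l.prod = x} := by
  have hne : {n : ℕ | ∃ l : List GG, l.length = n ∧
    (∀ y ∈ l, y ∈ SS ∨ y⁻¹ ∈ SS) ∧ l.prod = x}.Nonempty := by
    have hx : x ∈ Subgroup.closure (SS : Set GG) := by rw [closure_SS]; trivial
    rw [← Subgroup.mem_toSubmonoid, Subgroup.closure_toSubmonoid] at hx
    obtain ⟨l, hl, hp⟩ := Submonoid.exists_list_of_mem_closure hx
    exact ⟨l.length, l, rfl, fun y hy => by simpa using hl y hy, hp⟩
  obtain ⟨l, hl, hl2, hl3⟩ := Nat.sInf_mem hne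
  rw [← hl, ← hl3]
  exact af_prod_le l hl2

theorem rd_GG : ∃ S : Finset GG, Subgroup.closure (S : Set GG) = ⊤ ∧
        ∃ (C : ℝ) (s : ℕ), ∀ f g : GG →₀ ℝ, ∀ T : Finset GG,
          ∑ x ∈ T, (f.sum (fun y a => a * g (y⁻¹ * x))) ^ 2 ≤
            C * (f.sum (fun x a => a ^ 2 *
                  (1 + ((sInf {n : ℕ | ∃ l : List GG, l.length = n ∧
                      (∀ y ∈ l, y ∈ S ∨ y⁻¹ ∈ S) ∧ l.prod = x} : ℕ) : ℝ)) ^ (2 * s)))
              * g.sum (fun _ a => a ^ 2) := by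
  refine ⟨SS, closure_SS, ?_⟩
  obtain ⟨C, hC, h⟩ := rd_real l1 vv 12 l1_one l1_pos vv_ne vv_le vv_sum
  refine ⟨C, 8, fun f g T => (h f g T).trans ?_⟩
  have hN : 0 ≤ g.sum (fun _ a => a ^ 2) := Finset.sum_nonneg fun i _ => by positivity
  refine mul_le_mul_of_nonneg_right (mul_le_mul_of_nonneg_left ?_ hC) hN
  refine Finset.sum_le_sum fun x _ => ?_
  have h1 : (af l1 x : ℝ) ≤ ((sInf {n : ℕ | ∃ l : List GG, l.length = n ∧
                      (∀ y ∈ l, y ∈ SS ∨ y⁻¹ ∈ SS) ∧ l.prod = x} : ℕ) : ℝ) := by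
    exact_mod_cast af_le_word x
  show f x ^ 2 * _ ≤ f x ^ 2 * _
  refine mul_le_mul_of_nonneg_left ?_ (by positivity)
  exact pow_le_pow_left₀ (by positivity) (by linarith) _

end Pool.Agent.TH979
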