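import Pool.Agent.TH979.Bnd

set_option autoImplicit false

/-! The identity `Σ q_n Z(x)^n = Φ(x)` on `(0, 1)`. -/

namespace Pool.Agent.TH979

open Finset Set

/-- the walk operator -/
noncomputable def TT : (GG → ℝ) →ₗ[ℝ] (GG → ℝ) := conv (stepm (wI tc) yI)

/-- even return probabilities -/
noncomputable def qn (n : ℕ) : ℝ := (TT ^ (2 * n)) (dl GG) 1

/-- parity character of `ℤ^6` -/
def par : Z6 →* ℤˣ := (zpowersHom ℤˣ (-1)).comp
  (AddMonoidHom.toMultiplicative (Pi.evalAddMonoidHom (fun _ : Fin 6 => ℤ) 0))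

theorem par_apply (a : Z6) : par a = (-1 : ℤˣ) ^ (Multiplicative.toAdd a 0) := by
  unfold par
  simp [zpowersHom_apply]

/-- parity character of the free product -/
def chi : GG →* ℤˣ := Monoid.CoprodI.lift (fun _ : Bool => par)

theorem chi_em (i : Bool) (a : Z6) : chi (em i a) = par a := by
  unfold chi em
  rw [Monoid.CoprodI.lift_of]

theorem chi_yI (s : (Fin 6 → Bool) ⊕ Bool) : chi (yI s) = -1 := by
  cases s with
  | inl ε =>
    simp only [yI, Sum.elim_inl]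
    rw [chi_em, par_apply]
    unfold vec
    rw [toAdd_ofAdd]
    by_cases h : ε 0 = true <;> simp [h]
  | inr b =>
    simp only [yI, Sum.elim_inr]
    rw [chi_em]
    cases b
    · simp [stB, par_apply, toAdd_bas]
    · simp [stB, par_apply, toAdd_bas]

theorem odd_vanish (n : ℕ) : ∀ x : GG, (TT ^ n) (dl GG) x * ((chi x : ℤ) : ℝ) =
    (-1) ^ n * (TT ^ n) (dl GG) x := by
  induction n with
  | zero =>
    intro x
    rw [pow_zero, pow_zero]
    by_cases h : x = 1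
    · rw [h]; simp
    · have : (1 : (GG → ℝ) →ₗ[ℝ] (GG → ℝ)) (dl GG) x = 0 := dl_ne h
      rw [this]; ring
  | succ n ih =>
    intro x
    rw [pow_succ' TT]
    have e : (TT * TT ^ n) (dl GG) x = ∑ s, wI tc s * (TT ^ n) (dl GG) ((yI s)⁻¹ * x) :=
      conv_stepm _ _ _ _
    rw [e, Finset.sum_mul, Finset.mul_sum]
    refine Finset.sum_congr rfl fun s _ => ?_
    have h1 := ih ((yI s)⁻¹ * x)
    have h2 : ((chi x : ℤ) : ℝ) = -((chi ((yI s)⁻¹ * x) : ℤ) : ℝ) := by
      rw [map_mul, map_inv, chi_yI]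
      simp
    rw [h2, pow_succ]
    linear_combination (-(wI tc s)) * h1

theorem odd_zero (n : ℕ) : (TT ^ (2 * n + 1)) (dl GG) 1 = 0 := by
  have h := odd_vanish (2 * n + 1) 1
  have h1 : ((-1 : ℝ)) ^ (2 * n + 1) = -1 := by rw [pow_succ, pow_mul]; norm_num
  rw [h1, map_one] at h
  simp at h
  linarith

theorem qn_nonneg (n : ℕ) : 0 ≤ qn n :=
  pow_nonneg' _ _ (wI_nonneg tc_pos) _ dl_nonneg _ _

theorem z_sq {x : ℝ} (h0 : 0 < x) (h1 : x < 1) :
    ((1 + tc) * Real.sqrt x * AA (Real.sqrt x ^ 2) / Ph tc (Real.sqrt x ^ 2)) ^ 2 = Zf tc x := by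
  rw [Real.sq_sqrt h0.le]
  have e := Real.sq_sqrt h0.le
  have hP := Ph_ge h0.le h1.le
  have hP0 : Ph tc x ≠ 0 := by linarith
  unfold Zf
  rw [div_pow]
  congr 1
  calc ((1 + tc) * Real.sqrt x * AA x) ^ 2 = (1 + tc) ^ 2 * (Real.sqrt x ^ 2 * AA x ^ 2) := by ring
    _ = _ := by rw [e]

theorem qn_summable {x : ℝ} (h0 : 0 < x) (h1 : x < 1) :
    Summable (fun n => qn n * Zf tc x ^ n) := by
  have hs0 : 0 < Real.sqrt x := Real.sqrt_pos.2 h0
  have hs1 : Real.sqrt x < 1 := by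
    rw [Real.sqrt_lt' one_pos]; simpa using h1
  obtain ⟨hF0, hF1, hF, hsm, hP, hA⟩ := resolvent tc (Real.sqrt x) tc_pos hs0 hs1
  set z := (1 + tc) * Real.sqrt x * AA (Real.sqrt x ^ 2) / Ph tc (Real.sqrt x ^ 2) with hz
  have ht := tc_pos
  have hz0 : 0 ≤ z := by
    have : 0 ≤ AA (Real.sqrt x ^ 2) := by linarith
    have : 0 ≤ Ph tc (Real.sqrt x ^ 2) := by linarith
    positivity
  have h := gf_summable _ _ (wI_nonneg ht) _ hF0 z hz0 hF
  have i1 : Function.Injective (fun k : ℕ => 2 * k) := fun a b h => by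
    have h' : 2 * a = 2 * b := h
    omega
  have h2 := h.comp_injective i1
  refine h2.congr fun n => ?_
  show z ^ (2 * n) * qn n = _
  rw [pow_mul, z_sq h0 h1, mul_comm]

theorem qn_small {x : ℝ} (h0 : 0 < x) (h1 : x < 1 / 4) (hZ : Zf tc x < 1) :
    ∑' n, qn n * Zf tc x ^ n = Ph tc x := by
  have hx1 : x < 1 := by linarith
  have hs0 : 0 < Real.sqrt x := Real.sqrt_pos.2 h0
  have hs1 : Real.sqrt x ≤ 1 / 2 := by
    rw [Real.sqrt_le_left (by norm_num)]
    linarith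
  have hs2 : Real.sqrt x < 1 := by linarith
  obtain ⟨hF0, hF1, hF, hsm, hP, hA⟩ := resolvent tc (Real.sqrt x) tc_pos hs0 hs2
  set z := (1 + tc) * Real.sqrt x * AA (Real.sqrt x ^ 2) / Ph tc (Real.sqrt x ^ 2) with hz
  have ht := tc_pos
  have hz0 : 0 ≤ z := by
    have : 0 ≤ AA (Real.sqrt x ^ 2) := by linarith
    have : 0 ≤ Ph tc (Real.sqrt x ^ 2) := by linarith
    positivity
  have hz1 : z < 1 := by
    have := z_sq h0 hx1
    rw [← hz] at this
    nlinarith
  have h := gf_eq _ _ (wI_nonneg ht) (wI_sum ht) _ hF0 _ (hsm hs1) z hz0 hz1 hF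
  have hs := gf_summable _ _ (wI_nonneg ht) _ hF0 z hz0 hF
  have h2 := even_odd_aux _ qn z hs (fun n => rfl) odd_zero
  rw [h2, hF1, z_sq h0 hx1, Real.sq_sqrt h0.le] at h
  exact h

theorem ps_analytic (c : ℕ → ℝ) (r : ℝ) (hr : 0 < r) (hs : Summable (fun n => |c n| * r ^ n)) {x : ℝ}
    (hx : |x| < r) : AnalyticAt ℝ (fun x => ∑' n, c n * x ^ n) x := by
  set p := FormalMultilinearSeries.ofScalars ℝ c with hp
  let r' : NNReal := ⟨r, hr.le⟩
  have hr' : (r' : ℝ) = r := rfl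
  have hrad : (r' : ENNReal) ≤ p.radius := by
    refine p.le_radius_of_summable ?_
    refine hs.congr fun n => ?_
    rw [hp, FormalMultilinearSeries.ofScalars_norm, Real.norm_eq_abs, hr']
  have hpos : 0 < p.radius := lt_of_lt_of_le (by
    rw [ENNReal.coe_pos, ← NNReal.coe_pos, hr']
    exact hr) hrad
  have h := p.hasFPowerSeriesOnBall hpos
  have h2 := h.analyticAt_of_mem (y := x) (by
    rw [Metric.mem_eball, edist_dist, dist_zero_right, Real.norm_eq_abs]
    refine lt_of_lt_of_le ?_ hrad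
    rw [← ENNReal.ofReal_coe_nnreal, hr']
    exact (ENNReal.ofReal_lt_ofReal_iff hr).2 hx)
  have e : p.sum = fun x => ∑' n, c n * x ^ n := by
    funext y
    rw [hp]
    have := FormalMultilinearSeries.ofScalars_sum_eq (𝕜 := ℝ) (E := ℝ) c y
    rw [show FormalMultilinearSeries.sum (FormalMultilinearSeries.ofScalars ℝ c) y =
      FormalMultilinearSeries.ofScalarsSum c y from rfl, this]
    rfl
  rw [e] at h2
  exact h2

theorem AA_analytic {x : ℝ} (h0 : 0 < x) (h1 : x < 1) : AnalyticAt ℝ AA x := by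
  refine ps_analytic an 1 one_pos ?_ (by rw [abs_of_pos h0]; exact h1)
  refine summable_an.congr fun n => ?_
  rw [one_pow, mul_one, abs_of_pos (an_pos n)]

theorem S_analytic {x : ℝ} (h0 : 0 < x) (h1 : x < 1) : AnalyticAt ℝ (SSq tc) x := by
  have hA := AA_analytic h0 h1
  have h2 : AnalyticAt ℝ (fun x => 1 + tc ^ 2 * (x * AA x ^ 2)) x :=
    analyticAt_const.add (analyticAt_const.mul (analyticAt_id.mul (hA.pow 2)))
  have hpos : 0 < 1 + tc ^ 2 * (x * AA x ^ 2) := by positivity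
  have h3 : AnalyticAt ℝ (fun x => Real.exp (Real.log (1 + tc ^ 2 * (x * AA x ^ 2)) * (1 / 2))) x :=
    ((h2.log hpos).mul analyticAt_const).rexp
  refine h3.congr ?_
  have hc := h2.continuousAt.eventually (lt_mem_nhds hpos)
  filter_upwards [hc] with y hy
  rw [← Real.rpow_def_of_pos hy, ← Real.sqrt_eq_rpow]
  rfl

theorem Ph_analytic {x : ℝ} (h0 : 0 < x) (h1 : x < 1) : AnalyticAt ℝ (Ph tc) x :=
  ((AA_analytic h0 h1).add (S_analytic h0 h1)).sub analyticAt_const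

theorem Z_analytic {x : ℝ} (h0 : 0 < x) (h1 : x < 1) : AnalyticAt ℝ (Zf tc) x := by
  have hP := Ph_ge h0.le h1.le
  exact (analyticAt_const.mul (analyticAt_id.mul ((AA_analytic h0 h1).pow 2))).div
    ((Ph_analytic h0 h1).pow 2) (pow_ne_zero 2 (by linarith))

theorem qn_eq {x : ℝ} (h0 : 0 < x) (h1 : x < 1) : ∑' n, qn n * Zf tc x ^ n = Ph tc x := by
  have a1 : AnalyticOnNhd ℝ (fun x => ∑' n, qn n * Zf tc x ^ n) (Ioo 0 1) := by
    intro y hy
    set y' := (y + 1) / 2 with hy'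
    have hyy : y < y' := by rw [hy']; linarith [hy.2]
    have hy1 : y' < 1 := by rw [hy']; linarith [hy.2]
    have hy0 : 0 < y' := by linarith [hy.1]
    have hlt := Z_strictMono hy.1 hyy hy1.le
    have hnn : 0 ≤ Zf tc y := Z_nonneg hy.1.le
    have h2 := ps_analytic qn (Zf tc y') (by linarith) (by
      refine (qn_summable hy0 hy1).congr fun n => ?_
      rw [abs_of_nonneg (qn_nonneg n)]) (x := Zf tc y) (by rw [abs_of_nonneg hnn]; exact hlt)
    exact h2.comp (Z_analytic hy.1 hy.2)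
  have a2 : AnalyticOnNhd ℝ (Ph tc) (Ioo 0 1) := fun y hy => Ph_analytic hy.1 hy.2
  -- small x
  have hc : ContinuousWithinAt (Zf tc) (Icc 0 1) 0 := Z_cont 0 ⟨le_rfl, zero_le_one⟩
  have hev : ∀ᶠ y in nhdsWithin 0 (Icc (0 : ℝ) 1), Zf tc y < 1 := by
    have h3 := hc.eventually (gt_mem_nhds (show Zf tc 0 < 1 by rw [Z_zero]; norm_num))
    exact h3
  obtain ⟨ε, hε, hball⟩ := Metric.mem_nhdsWithin_iff.1 hev
  set δ := min ε (1 / 4) with hδ
  have hδ0 : 0 < δ := lt_min hε (by norm_num)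
  have hsm : ∀ y, 0 < y → y < δ → ∑' n, qn n * Zf tc y ^ n = Ph tc y := by
    intro y hy0 hy1
    have hy2 : y < 1 / 4 := lt_of_lt_of_le hy1 (min_le_right _ _)
    refine qn_small hy0 hy2 ?_
    apply hball
    refine ⟨?_, hy0.le, by linarith⟩
    rw [Metric.mem_ball, dist_zero_right, Real.norm_eq_abs, abs_of_pos hy0]
    exact lt_of_lt_of_le hy1 (min_le_left _ _)
  have hz : δ / 2 ∈ Ioo (0 : ℝ) 1 := by
    refine ⟨by linarith, ?_⟩
    have : δ ≤ 1 / 4 := min_le_right _ _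
    linarith
  have hfg : (fun x => ∑' n, qn n * Zf tc x ^ n) =ᶠ[nhds (δ / 2)] Ph tc := by
    have : Ioo 0 δ ∈ nhds (δ / 2) := Ioo_mem_nhds (by linarith) (by linarith)
    filter_upwards [this] with y hy
    exact hsm y hy.1 hy.2
  exact a1.eqOn_of_preconnected_of_eventuallyEq a2 isPreconnected_Ioo hz hfg ⟨h0, h1⟩

end Pool.Agent.TH979
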