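import Pool.Agent.TH614.HS.Defs2

/-!
# The quartic of a generator in terms of a root datum (helper979 for helper614)
-/

set_option autoImplicit false

namespace Pool.Agent.TH979.J3614

open Polynomial Pool.Agent.TH614.HS

section

variable {L : Type} [Field L] {th x0 x1 x2 y0 y1 y2 s mu eta : L}

theorem rel1 (hx : x0 ≠ 0) (hs : s ≠ 0) (h : RDa th x0 x1 x2 y0 y1 y2 s mu eta) :
    x1 * x2 = s ^ 3 * x0 ^ 2 * (mu ^ 2 - 1) := by
  have h1 := h 1 (x1 / x0) (x2 / x0) 0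
    ⟨by field_simp; ring, by field_simp; ring, by field_simp; ring⟩
  unfold Dq at h1
  field_simp at h1
  linear_combination h1

theorem rel2 (hx : x0 ≠ 0) (hs : s ≠ 0) (hpl : x0 * y0 + x1 * y1 + x2 * y2 = 0)
    (h : RDa th x0 x1 x2 y0 y1 y2 s mu eta) :
    y1 * y2 = s * x0 ^ 2 * (1 - eta ^ 2) := by
  have h1 := h 0 (y2 / x0) (-y1 / x0) 1
    ⟨by field_simp; linear_combination -hpl, by field_simp; ring, by field_simp; ring⟩
  unfold Dq at h1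
  field_simp at h1
  linear_combination -h1

theorem rel3 (hx : x0 ≠ 0) (hs : s ≠ 0) (hpl : x0 * y0 + x1 * y1 + x2 * y2 = 0)
    (h : RDa th x0 x1 x2 y0 y1 y2 s mu eta) :
    x2 * y2 - x1 * y1 = s ^ 2 * x0 ^ 2 * (2 * mu * eta + th) := by
  have h1 := h 1 ((x1 + y2) / x0) ((x2 - y1) / x0) 1
    ⟨by field_simp; linear_combination -hpl, by field_simp; ring, by field_simp; ring⟩
  have h2 := rel1 hx hs h
  have h3 := rel2 hx hs hpl h
  unfold Dq at h1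
  field_simp at h1
  linear_combination h1 - h2 + h3

theorem rel4 (hx : x0 ≠ 0) (hs : s ≠ 0) (hth : th ^ 2 = 3)
    (hpl : x0 * y0 + x1 * y1 + x2 * y2 = 0)
    (h : RDa th x0 x1 x2 y0 y1 y2 s mu eta) :
    y0 ^ 2 = s ^ 4 * x0 ^ 2 * (4 * (mu ^ 2 + th * mu * eta + eta ^ 2) - 1) := by
  have h1 := rel1 hx hs h
  have h2 := rel2 hx hs hpl h
  have h3 := rel3 hx hs hpl h
  have h4 : x0 ^ 2 * y0 ^ 2 = (x2 * y2 - x1 * y1) ^ 2 + 4 * (x1 * x2) * (y1 * y2) := by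
    linear_combination (x0 * y0 - x1 * y1 - x2 * y2) * hpl
  rw [h1, h2, h3] at h4
  have h5 : x0 ^ 2 ≠ 0 := pow_ne_zero 2 hx
  apply mul_left_cancel₀ h5
  linear_combination h4 + s ^ 4 * x0 ^ 4 * hth

end

theorem CUB : S_CUB := by
  intro L _ D x s mu eta hx hRD w
  obtain ⟨hx0, -, hpl⟩ := hx
  obtain ⟨hs, hrd⟩ := hRD
  have hth := D.th2
  have h1 := rel1 hx0 hs hrd
  have h2 := rel2 hx0 hs hpl hrd
  have h3 := rel3 hx0 hs hpl hrd
  have h4 := rel4 hx0 hs hth hpl hrd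
  have e : (D.Phi x).eval (s * (1 + w)) = x ^ 2 * (s * (1 + w)) ^ 4
      - 4 * x ^ (D.q ^ 5) * x ^ D.q * (s * (1 + w)) ^ 3
      - 2 * D.th * (x ^ (D.q ^ 2) * x ^ (D.q ^ 5) - x ^ (D.q ^ 4) * x ^ D.q) * (s * (1 + w)) ^ 2
      + 4 * x ^ (D.q ^ 2) * x ^ (D.q ^ 4) * (s * (1 + w)) - (x ^ (D.q ^ 3)) ^ 2 := by
    simp only [HD.Phi, eval_add, eval_sub, eval_mul, eval_C, eval_pow, eval_X]
  rw [e]
  linear_combination (-4 * (s * (1 + w)) ^ 3) * h2 + (2 * D.th * (s * (1 + w)) ^ 2) * h3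
    + 4 * (s * (1 + w)) * h1 - h4
    + s ^ 4 * x ^ 2 * (2 * (1 + w) ^ 2 - 4 * eta ^ 2 * w * (w + 1)) * hth

end Pool.Agent.TH979.J3614
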