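import Pool.Agent.TH979.Word

set_option autoImplicit false

/-! Rapid decay inequality for the free product of two copies of a group. -/

namespace Pool.Agent.TH979

open scoped ENNReal

theorem cs_tsum {ι : Type} (a b : ι → ℝ≥0∞) :
    (∑' i, a i * b i) ^ 2 ≤ (∑' i, a i ^ 2) * ∑' i, b i ^ 2 := by
  have key : ∀ s : Finset ι, ∑ i ∈ s, a i * b i ≤
      ((∑' i, a i ^ 2) * ∑' i, b i ^ 2) ^ (1 / 2 : ℝ) := by
    intro s
    have h := ENNReal.inner_le_Lp_mul_Lq s a b (p := 2) (q := 2) ⟨by norm_num, by norm_num, by norm_num⟩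
    refine h.trans ?_
    rw [ENNReal.mul_rpow_of_nonneg _ _ (by norm_num)]
    have e : ∀ c : ι → ℝ≥0∞, ∑ i ∈ s, c i ^ (2 : ℝ) ≤ ∑' i, c i ^ 2 := by
      intro c
      have : ∀ i, c i ^ (2 : ℝ) = c i ^ 2 := fun i => by
        rw [← ENNReal.rpow_natCast]; norm_num
      simp_rw [this]
      exact ENNReal.sum_le_tsum s
    gcongr
    · exact e a
    · exact e b
  have h2 : ∑' i, a i * b i ≤ ((∑' i, a i ^ 2) * ∑' i, b i ^ 2) ^ (1 / 2 : ℝ) := by
    rw [ENNReal.tsum_eq_iSup_sum]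
    exact iSup_le key
  calc (∑' i, a i * b i) ^ 2 ≤ (((∑' i, a i ^ 2) * ∑' i, b i ^ 2) ^ (1 / 2 : ℝ)) ^ 2 := by
        gcongr
    _ = _ := by
        rw [← ENNReal.rpow_natCast, ← ENNReal.rpow_mul]
        norm_num

/-- weighted Cauchy-Schwarz -/
theorem cs_weight {ι : Type} (v u : ι → ℝ≥0∞) (hv : ∀ i, v i ≠ 0) (hv' : ∀ i, v i ≠ ∞) :
    (∑' i, u i) ^ 2 ≤ (∑' i, (v i)⁻¹ ^ 2) * ∑' i, v i ^ 2 * u i ^ 2 := by
  have h := cs_tsum (fun i => (v i)⁻¹) (fun i => v i * u i)
  have e : ∀ i, (v i)⁻¹ * (v i * u i) = u i := fun i => by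
    rw [← mul_assoc, ENNReal.inv_mul_cancel (hv i) (hv' i), one_mul]
  simp_rw [e, mul_pow] at h
  exact h

/-- an elementary inequality -/
theorem add_sq_le (m : ℕ) (a b : ℝ≥0∞) :
    (a + b) ^ 2 ≤ (1 + ((m : ℝ≥0∞) + 1)⁻¹) * a ^ 2 + (1 + ((m : ℝ≥0∞) + 1)) * b ^ 2 := by
  by_cases ha : a = ∞
  · rw [ha]; simp
  by_cases hb : b = ∞
  · rw [hb]; simp
  lift a to NNReal using ha
  lift b to NNReal using hb
  have h0 : ((m : ℝ≥0∞) + 1)⁻¹ = (((m : NNReal) + 1)⁻¹ : NNReal) := by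
    rw [ENNReal.coe_inv (by positivity)]; norm_num
  rw [h0]
  norm_cast
  rw [← NNReal.coe_le_coe]
  push_cast
  have hm : (0 : ℝ) < (m : ℝ) + 1 := by positivity
  have h1 : 0 ≤ ((m : ℝ) + 1)⁻¹ * ((a : ℝ) - ((m : ℝ) + 1) * b) ^ 2 := by positivity
  have h2 : ((m : ℝ) + 1)⁻¹ * ((a : ℝ) - ((m : ℝ) + 1) * b) ^ 2 =
      ((m : ℝ) + 1)⁻¹ * a ^ 2 - 2 * a * b + ((m : ℝ) + 1) * b ^ 2 := by
    field_simp
    ring
  nlinarith

theorem add_sq_le_two (a b : ℝ≥0∞) : (a + b) ^ 2 ≤ 2 * a ^ 2 + 2 * b ^ 2 := by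
  have := add_sq_le 0 a b
  norm_num at this
  convert this using 2

variable {A : Type} [Group A] [DecidableEq A]

theorem inj_aux (m : ℕ) : ∀ (i : Bool) (x x₁ z z₁ : FP A), hd i x = 1 → hd i x₁ = 1 →
    len x = m → len x₁ = m → hd i z ≠ 1 → hd i z₁ ≠ 1 → x⁻¹ * z = x₁⁻¹ * z₁ → x = x₁ := by
  induction m with
  | zero =>
    intro i x x₁ z z₁ _ _ h1 h2 _ _ _
    rw [eq_one_of_len h1, eq_one_of_len h2]
  | succ m ih =>
    intro i x x₁ z z₁ hx hx₁ hl hl₁ hz hz₁ he
    have key : ∀ y : FP A, hd i y = 1 → len y = m + 1 → hd (!i) y ≠ 1 := by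
      intro y hy hly hc
      have : y = 1 := hd_eq_one_all (fun j => by
        rcases Bool.eq_or_eq_not j i with h | h
        · rw [h]; exact hy
        · rw [h]; exact hc)
      rw [this, len_one] at hly
      omega
    have hb := key x hx hl
    have hb₁ := key x₁ hx₁ hl₁
    have e : ∀ y w : FP A, y⁻¹ * w = (tl (!i) y)⁻¹ * (em (!i) (hd (!i) y)⁻¹ * w) := by
      intro y w
      conv_lhs => rw [← em_hd_mul_tl (!i) y]
      rw [mul_inv_rev, ← map_inv, mul_assoc]
    have hh : ∀ w : FP A, hd i w ≠ 1 → ∀ b : A, hd (!i) (em (!i) b * w) = b := by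
      intro w hw b
      rw [hd_em_mul, hd_other hw, mul_one]
    rw [e x, e x₁] at he
    have h3 : tl (!i) x = tl (!i) x₁ := by
      refine ih (!i) _ _ _ _ (hd_tl _ _) (hd_tl _ _) ?_ ?_ ?_ ?_ he
      · have := len_of_hd_ne_one hb; omega
      · have := len_of_hd_ne_one hb₁; omega
      · rw [hh z hz]; exact inv_ne_one.2 hb
      · rw [hh z₁ hz₁]; exact inv_ne_one.2 hb₁
    rw [h3] at he
    have h4 := mul_left_cancel he
    have h5 := congrArg (hd (!i)) h4
    rw [hh z hz, hh z₁ hz₁, inv_inj] at h5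
    rw [← em_hd_mul_tl (!i) x, ← em_hd_mul_tl (!i) x₁, h3, h5]

/-- convolution -/
noncomputable def cv (f g : FP A → ℝ≥0∞) (z : FP A) : ℝ≥0∞ := ∑' x, f x * g (x⁻¹ * z)

open Classical in
theorem inj_sum (i : Bool) (m : ℕ) (g : FP A → ℝ≥0∞) :
    ∑' z : FP A, ∑' x : FP A, (if hd i x = 1 ∧ len x = m ∧ hd i z ≠ 1 then g (x⁻¹ * z) else 0)
      ≤ ∑' y, g y := by
  rw [← ENNReal.tsum_prod (f := fun z x => (if hd i x = 1 ∧ len x = m ∧ hd i z ≠ 1 then
    g (x⁻¹ * z) else 0))]
  let S : Set (FP A × FP A) := {p | hd i p.2 = 1 ∧ len p.2 = m ∧ hd i p.1 ≠ 1}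
  have h1 : ∀ p : FP A × FP A, (if hd i p.2 = 1 ∧ len p.2 = m ∧ hd i p.1 ≠ 1 then
      g (p.2⁻¹ * p.1) else 0) = S.indicator (fun p => g (p.2⁻¹ * p.1)) p := by
    intro p
    rw [Set.indicator_apply]
    rfl
  simp_rw [h1]
  rw [← tsum_subtype S (fun p => g (p.2⁻¹ * p.1))]
  refine ENNReal.tsum_comp_le_tsum_of_injective (f := fun p : S => (p.1.2⁻¹ * p.1.1)) ?_ g
  rintro ⟨⟨z, x⟩, hx, hl, hz⟩ ⟨⟨z₁, x₁⟩, hx₁, hl₁, hz₁⟩ he
  have h2 : x = x₁ := inj_aux m i x x₁ z z₁ hx hx₁ hl hl₁ hz hz₁ he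
  have h3 : z = z₁ := by
    simp only at he
    rw [h2] at he
    exact mul_left_cancel he
  simp [h2, h3]

/-- decomposition of a sum over the free product -/
theorem tsum_dec (i : Bool) (φ : FP A → ℝ≥0∞) :
    ∑' x, φ x = ∑' a : A, ∑' y : Hs i A, φ (em i a * y.1) := by
  rw [← ENNReal.tsum_prod (f := fun (a : A) (y : Hs i A) => φ (em i a * y.1))]
  rw [← Equiv.tsum_eq (dec i).symm]
  rfl

theorem tsum_Hs_le (i : Bool) (φ : FP A → ℝ≥0∞) : ∑' y : Hs i A, φ y.1 ≤ ∑' y, φ y :=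
  ENNReal.tsum_comp_le_tsum_of_injective (f := fun y : Hs i A => y.1) Subtype.val_injective φ

open Classical in
theorem tsum_Hs_eq (i : Bool) (φ : FP A → ℝ≥0∞) :
    ∑' y : Hs i A, φ y.1 = ∑' y, if hd i y = 1 then φ y else 0 := by
  have := tsum_subtype {y : FP A | hd i y = 1} φ
  refine this.trans ?_
  refine tsum_congr fun y => ?_
  rw [Set.indicator_apply]
  rfl

/-- the part of `f` on elements beginning with a syllable of the copy `i` -/
noncomputable def part (i : Bool) (f : FP A → ℝ≥0∞) (x : FP A) : ℝ≥0∞ :=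
  if hd i x = 1 then 0 else f x

/-- removal of the first syllable `a` -/
noncomputable def rem (i : Bool) (a : A) (f : FP A → ℝ≥0∞) (y : FP A) : ℝ≥0∞ :=
  if hd i y = 1 then (if a = 1 then 0 else f (em i a * y)) else 0

theorem part_add (f : FP A → ℝ≥0∞) (h1 : f 1 = 0) (x : FP A) :
    part true f x + part false f x = f x := by
  unfold part
  by_cases ht : hd true x = 1
  · by_cases hf : hd false x = 1
    · have : x = 1 := hd_eq_one_all (fun j => by cases j <;> assumption)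
      rw [if_pos ht, if_pos hf, this, h1, add_zero]
    · rw [if_pos ht, if_neg hf, zero_add]
  · have hf : hd false x = 1 := hd_other ht
    rw [if_neg ht, if_pos hf, add_zero]

theorem cv_part (i : Bool) (f g : FP A → ℝ≥0∞) (z : FP A) :
    cv (part i f) g z = ∑' a : A, cv (rem i a f) g (em i a⁻¹ * z) := by
  unfold cv
  rw [tsum_dec i]
  refine tsum_congr fun a => ?_
  have h : ∀ y : FP A, rem i a f y * g (y⁻¹ * (em i a⁻¹ * z)) =
      if hd i y = 1 then (if a = 1 then 0 else f (em i a * y)) * g (y⁻¹ * (em i a⁻¹ * z)) else 0 := by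
    intro y
    unfold rem
    split_ifs <;> simp
  simp_rw [h]
  rw [← tsum_Hs_eq i (fun y => (if a = 1 then 0 else f (em i a * y)) * g (y⁻¹ * (em i a⁻¹ * z)))]
  refine tsum_congr fun y => ?_
  have h1 : part i f (em i a * y.1) = if a = 1 then 0 else f (em i a * y.1) := by
    unfold part
    rw [hd_em_mul' y.2]
  rw [h1, mul_inv_rev, ← map_inv, mul_assoc]

section Main

variable (w : FP A → ℝ≥0∞) (v : A → ℝ≥0∞)

/-- the constants -/
noncomputable def Bk (K : ℝ≥0∞) : ℕ → ℝ≥0∞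
  | 0 => 1
  | m + 1 => (1 + ((m : ℝ≥0∞) + 1)⁻¹) * Bk K m + (1 + ((m : ℝ≥0∞) + 1)) * (2 * K)

theorem weight_rem (hw1 : ∀ i a y, hd i y = 1 → w y ≤ w (em i a * y)) (i : Bool)
    (f : FP A → ℝ≥0∞) :
    ∑' a : A, ∑' y, w y * rem i a f y ^ 2 ≤ ∑' x, w x * part i f x ^ 2 := by
  rw [tsum_dec i (fun x => w x * part i f x ^ 2)]
  refine ENNReal.tsum_le_tsum fun a => ?_
  have h : ∀ y : FP A, w y * rem i a f y ^ 2 =
      if hd i y = 1 then w y * (if a = 1 then 0 else f (em i a * y)) ^ 2 else 0 := by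
    intro y; unfold rem; split_ifs <;> simp
  simp_rw [h]
  rw [← tsum_Hs_eq i (fun y => w y * (if a = 1 then 0 else f (em i a * y)) ^ 2)]
  refine ENNReal.tsum_le_tsum fun y => ?_
  have h1 : part i f (em i a * y.1) = if a = 1 then 0 else f (em i a * y.1) := by
    unfold part
    rw [hd_em_mul' y.2]
  rw [h1]
  gcongr
  exact hw1 i a y.1 y.2

theorem weight_rem' (hw2 : ∀ i a y, hd i y = 1 → v a ^ 2 ≤ w (em i a * y)) (i : Bool)
    (f : FP A → ℝ≥0∞) :
    ∑' a : A, v a ^ 2 * ∑' y, rem i a f y ^ 2 ≤ ∑' x, w x * part i f x ^ 2 := by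
  rw [tsum_dec i (fun x => w x * part i f x ^ 2)]
  refine ENNReal.tsum_le_tsum fun a => ?_
  have h : ∀ y : FP A, rem i a f y ^ 2 =
      if hd i y = 1 then (if a = 1 then 0 else f (em i a * y)) ^ 2 else 0 := by
    intro y; unfold rem; split_ifs <;> simp
  simp_rw [h]
  rw [← tsum_Hs_eq i (fun y => (if a = 1 then 0 else f (em i a * y)) ^ 2), ← ENNReal.tsum_mul_left]
  refine ENNReal.tsum_le_tsum fun y => ?_
  have h1 : part i f (em i a * y.1) = if a = 1 then 0 else f (em i a * y.1) := by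
    unfold part
    rw [hd_em_mul' y.2]
  rw [h1]
  gcongr
  exact hw2 i a y.1 y.2

/-- the creation part -/
noncomputable def Dp (i : Bool) (f g : FP A → ℝ≥0∞) (z : FP A) : ℝ≥0∞ :=
  cv (rem i (hd i z) f) g (tl i z)

open Classical in
/-- the rest -/
noncomputable def Ep (i : Bool) (f g : FP A → ℝ≥0∞) (z : FP A) : ℝ≥0∞ :=
  ∑' a : A, if a = hd i z then 0 else cv (rem i a f) g (em i a⁻¹ * z)

theorem cv_part_eq (i : Bool) (f g : FP A → ℝ≥0∞) (z : FP A) :
    cv (part i f) g z = Dp i f g z + Ep i f g z := by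
  rw [cv_part, ENNReal.tsum_eq_add_tsum_ite (hd i z)]
  unfold Dp Ep
  rw [tl_eq]
  congr 1
  refine tsum_congr fun a => ?_
  by_cases h : a = hd i z <;> simp [h]

theorem Dp_eq_zero (i : Bool) (f g : FP A → ℝ≥0∞) (z : FP A) (h : hd i z = 1) :
    Dp i f g z = 0 := by
  unfold Dp cv
  rw [ENNReal.tsum_eq_zero]
  intro x
  unfold rem
  rw [h]
  simp

theorem Ep_bound (hv : ∀ a, v a ≠ 0) (hv' : ∀ a, v a ≠ ∞)
    (hw2 : ∀ i a y, hd i y = 1 → v a ^ 2 ≤ w (em i a * y)) (i : Bool)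
    (m : ℕ) (f g : FP A → ℝ≥0∞) (hf : ∀ x, f x ≠ 0 → len x = m + 1) :
    ∑' z, Ep i f g z ^ 2 ≤ (∑' a, (v a)⁻¹ ^ 2) * ((∑' x, w x * part i f x ^ 2) * ∑' y, g y ^ 2) := by
  classical
  calc ∑' z, Ep i f g z ^ 2
      ≤ ∑' z, (∑' a, (v a)⁻¹ ^ 2) * ∑' a, v a ^ 2 *
          (if a = hd i z then 0 else cv (rem i a f) g (em i a⁻¹ * z)) ^ 2 :=
        ENNReal.tsum_le_tsum fun z => cs_weight v _ hv hv'
    _ = (∑' a, (v a)⁻¹ ^ 2) * ∑' a, v a ^ 2 * ∑' z,
          (if a = hd i z then 0 else cv (rem i a f) g (em i a⁻¹ * z)) ^ 2 := by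
        rw [ENNReal.tsum_mul_left, ENNReal.tsum_comm]
        simp_rw [ENNReal.tsum_mul_left]
    _ ≤ (∑' a, (v a)⁻¹ ^ 2) * ∑' a, v a ^ 2 * ((∑' y, rem i a f y ^ 2) * ∑' y, g y ^ 2) := by
        gcongr with a
        rw [← Equiv.tsum_eq (Equiv.mulLeft (em i a))]
        have h1 : ∀ z : FP A, (if a = hd i (Equiv.mulLeft (em i a) z) then 0 else
            cv (rem i a f) g (em i a⁻¹ * (Equiv.mulLeft (em i a) z))) ^ 2 =
            if hd i z = 1 then 0 else cv (rem i a f) g z ^ 2 := by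
          intro z
          rw [Equiv.coe_mulLeft, hd_em_mul, ← mul_assoc, ← map_mul, inv_mul_cancel, map_one,
            one_mul]
          by_cases h : hd i z = 1
          · simp [h]
          · rw [if_neg, if_neg h]
            intro h2
            exact h (by simpa using h2)
        simp_rw [h1]
        have h2 : ∀ z : FP A, (if hd i z = 1 then 0 else cv (rem i a f) g z ^ 2) ≤
            (∑' y, rem i a f y ^ 2) *
              ∑' x, (if hd i x = 1 ∧ len x = m ∧ hd i z ≠ 1 then g (x⁻¹ * z) ^ 2 else 0) := by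
          intro z
          by_cases h : hd i z = 1
          · simp [h]
          · rw [if_neg h]
            have h3 : cv (rem i a f) g z = ∑' x, rem i a f x *
                (if hd i x = 1 ∧ len x = m ∧ hd i z ≠ 1 then g (x⁻¹ * z) else 0) := by
              unfold cv
              refine tsum_congr fun x => ?_
              by_cases hx : rem i a f x = 0
              · rw [hx]; simp
              · have hx1 : hd i x = 1 := by
                  by_contra hc; apply hx; unfold rem; rw [if_neg hc]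
                have ha1 : a ≠ 1 := by
                  intro hc; apply hx; unfold rem; rw [if_pos hx1, if_pos hc]
                have hx2 : f (em i a * x) ≠ 0 := by
                  intro hc; apply hx; unfold rem; rw [if_pos hx1, if_neg ha1, hc]
                have hx3 := hf _ hx2
                rw [len_em_mul hx1 ha1] at hx3
                rw [if_pos ⟨hx1, by omega, h⟩]
            rw [h3]
            refine (cs_tsum _ _).trans ?_
            gcongr with x
            split_ifs <;> simp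
        refine (ENNReal.tsum_le_tsum h2).trans ?_
        rw [ENNReal.tsum_mul_left]
        exact mul_le_mul_right (inj_sum i m (fun y => g y ^ 2)) _
    _ = (∑' a, (v a)⁻¹ ^ 2) * ((∑' a, v a ^ 2 * ∑' y, rem i a f y ^ 2) * ∑' y, g y ^ 2) := by
        congr 1
        simp_rw [← mul_assoc]
        rw [ENNReal.tsum_mul_right]
    _ ≤ _ := by
        gcongr
        exact weight_rem' w v hw2 i f

theorem rd_len (hv : ∀ a, v a ≠ 0) (hv' : ∀ a, v a ≠ ∞) (hw0 : ∀ x, 1 ≤ w x)
    (hw1 : ∀ i a y, hd i y = 1 → w y ≤ w (em i a * y))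
    (hw2 : ∀ i a y, hd i y = 1 → v a ^ 2 ≤ w (em i a * y)) (k : ℕ) :
    ∀ f g : FP A → ℝ≥0∞, (∀ x, f x ≠ 0 → len x = k) →
      ∑' z, cv f g z ^ 2 ≤ Bk (2 * ∑' a, (v a)⁻¹ ^ 2) k *
        ((∑' x, w x * f x ^ 2) * ∑' y, g y ^ 2) := by
  classical
  induction k with
  | zero =>
    intro f g hf
    have h1 : ∀ z, cv f g z = f 1 * g z := by
      intro z
      unfold cv
      rw [tsum_eq_single 1]
      · simp
      · intro x hx
        have : f x = 0 := by
          by_contra hc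
          exact hx (eq_one_of_len (hf x hc))
        rw [this, zero_mul]
    simp_rw [h1, mul_pow, ENNReal.tsum_mul_left]
    simp only [Bk, one_mul]
    gcongr
    calc f 1 ^ 2 ≤ w 1 * f 1 ^ 2 := le_mul_of_one_le_left' (hw0 1)
      _ ≤ ∑' x, w x * f x ^ 2 := ENNReal.le_tsum 1
  | succ m ih =>
    intro f g hf
    have hf1 : f 1 = 0 := by
      by_contra hc
      have := hf 1 hc
      rw [len_one] at this
      omega
    have hsplit : ∀ z, cv f g z = (Dp true f g z + Dp false f g z) +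
        (Ep true f g z + Ep false f g z) := by
      intro z
      have : cv f g z = cv (part true f) g z + cv (part false f) g z := by
        unfold cv
        rw [← ENNReal.tsum_add]
        refine tsum_congr fun x => ?_
        rw [← add_mul, part_add f hf1]
      rw [this, cv_part_eq, cv_part_eq]
      ring
    have hD : ∀ z, (Dp true f g z + Dp false f g z) ^ 2 =
        Dp true f g z ^ 2 + Dp false f g z ^ 2 := by
      intro z
      by_cases h : hd true z = 1
      · rw [Dp_eq_zero true f g z h]; simp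
      · rw [Dp_eq_zero false f g z (hd_other h)]; simp
    have hw_split : (∑' x, w x * part true f x ^ 2) + (∑' x, w x * part false f x ^ 2) =
        ∑' x, w x * f x ^ 2 := by
      rw [← ENNReal.tsum_add]
      refine tsum_congr fun x => ?_
      rw [← mul_add]
      congr 1
      rw [← part_add f hf1 x]
      unfold part
      by_cases h : hd true x = 1
      · simp [h]
      · have h' : hd false x = 1 := hd_other h
        simp [h']
    have hDb : ∀ i, ∑' z, Dp i f g z ^ 2 ≤ Bk (2 * ∑' a, (v a)⁻¹ ^ 2) m *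
        ((∑' x, w x * part i f x ^ 2) * ∑' y, g y ^ 2) := by
      intro i
      rw [tsum_dec i]
      calc ∑' (a : A) (y : Hs i A), Dp i f g (em i a * y.1) ^ 2
          = ∑' (a : A) (y : Hs i A), cv (rem i a f) g y.1 ^ 2 := by
            refine tsum_congr fun a => tsum_congr fun y => ?_
            unfold Dp
            rw [hd_em_mul' y.2, tl_em_mul' y.2]
        _ ≤ ∑' (a : A), ∑' y : FP A, cv (rem i a f) g y ^ 2 :=
            ENNReal.tsum_le_tsum fun a => tsum_Hs_le i _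
        _ ≤ ∑' (a : A), Bk (2 * ∑' a, (v a)⁻¹ ^ 2) m *
              ((∑' x, w x * rem i a f x ^ 2) * ∑' y, g y ^ 2) := by
            refine ENNReal.tsum_le_tsum fun a => ih _ _ ?_
            intro x hx
            have hx1 : hd i x = 1 := by
              by_contra hc; apply hx; unfold rem; rw [if_neg hc]
            have ha1 : a ≠ 1 := by
              intro hc; apply hx; unfold rem; rw [if_pos hx1, if_pos hc]
            have hx2 : f (em i a * x) ≠ 0 := by
              intro hc; apply hx; unfold rem; rw [if_pos hx1, if_neg ha1, hc]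
            have hx3 := hf _ hx2
            rw [len_em_mul hx1 ha1] at hx3
            omega
        _ = Bk (2 * ∑' a, (v a)⁻¹ ^ 2) m *
              ((∑' a : A, ∑' x, w x * rem i a f x ^ 2) * ∑' y, g y ^ 2) := by
            rw [ENNReal.tsum_mul_left, ENNReal.tsum_mul_right]
        _ ≤ _ := by
            gcongr
            exact weight_rem w hw1 i f
    have hEb : ∀ i, ∑' z, Ep i f g z ^ 2 ≤ (∑' a, (v a)⁻¹ ^ 2) *
        ((∑' x, w x * part i f x ^ 2) * ∑' y, g y ^ 2) :=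
      fun i => Ep_bound w v hv hv' hw2 i m f g hf
    set K := ∑' a, (v a)⁻¹ ^ 2 with hK
    set N := ∑' y, g y ^ 2 with hN
    set Wt := ∑' x, w x * part true f x ^ 2 with hWt
    set Wf := ∑' x, w x * part false f x ^ 2 with hWf
    have c1 : ∑' z, (Dp true f g z ^ 2 + Dp false f g z ^ 2) ≤
        Bk (2 * K) m * (Wt * N) + Bk (2 * K) m * (Wf * N) := by
      rw [ENNReal.tsum_add]
      exact add_le_add (hDb true) (hDb false)
    have c2 : ∑' z, (2 * Ep true f g z ^ 2 + 2 * Ep false f g z ^ 2) ≤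
        2 * (K * (Wt * N)) + 2 * (K * (Wf * N)) := by
      rw [ENNReal.tsum_add, ENNReal.tsum_mul_left, ENNReal.tsum_mul_left]
      gcongr
      · exact hEb true
      · exact hEb false
    calc ∑' z, cv f g z ^ 2
        ≤ ∑' z, ((1 + ((m : ℝ≥0∞) + 1)⁻¹) * (Dp true f g z ^ 2 + Dp false f g z ^ 2) +
            (1 + ((m : ℝ≥0∞) + 1)) * (2 * Ep true f g z ^ 2 + 2 * Ep false f g z ^ 2)) := by
          refine ENNReal.tsum_le_tsum fun z => ?_
          rw [hsplit]
          refine (add_sq_le m _ _).trans ?_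
          rw [hD]
          gcongr
          exact add_sq_le_two _ _
      _ = (1 + ((m : ℝ≥0∞) + 1)⁻¹) * ∑' z, (Dp true f g z ^ 2 + Dp false f g z ^ 2) +
            (1 + ((m : ℝ≥0∞) + 1)) * ∑' z, (2 * Ep true f g z ^ 2 + 2 * Ep false f g z ^ 2) := by
          rw [ENNReal.tsum_add, ENNReal.tsum_mul_left, ENNReal.tsum_mul_left]
      _ ≤ (1 + ((m : ℝ≥0∞) + 1)⁻¹) * (Bk (2 * K) m * (Wt * N) + Bk (2 * K) m * (Wf * N)) +
            (1 + ((m : ℝ≥0∞) + 1)) * (2 * (K * (Wt * N)) + 2 * (K * (Wf * N))) := by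
          gcongr
      _ ≤ ((1 + ((m : ℝ≥0∞) + 1)⁻¹) * Bk (2 * K) m + (1 + ((m : ℝ≥0∞) + 1)) * (2 * (2 * K))) *
            ((Wt + Wf) * N) := by
          have e1 : (1 + ((m : ℝ≥0∞) + 1)⁻¹) * (Bk (2 * K) m * (Wt * N) + Bk (2 * K) m * (Wf * N)) +
            (1 + ((m : ℝ≥0∞) + 1)) * (2 * (K * (Wt * N)) + 2 * (K * (Wf * N))) =
            ((1 + ((m : ℝ≥0∞) + 1)⁻¹) * Bk (2 * K) m + (1 + ((m : ℝ≥0∞) + 1)) * (2 * K)) *
            ((Wt + Wf) * N) := by ring
          rw [e1]
          gcongr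
          exact le_mul_of_one_le_left' (by norm_num)
      _ = Bk (2 * K) (m + 1) * ((∑' x, w x * f x ^ 2) * N) := by
          rw [hw_split]
          rfl

end Main

end Pool.Agent.TH979
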