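import Pool.Agent.TH979.RD

set_option autoImplicit false

/-! Rapid decay inequality for the free product of two copies of a group: summation over lengths. -/

namespace Pool.Agent.TH979

open scoped ENNReal

variable {A : Type} [Group A] [DecidableEq A]

theorem Bk_eq (K : ℝ≥0∞) (m : ℕ) : Bk K m = ((m : ℝ≥0∞) + 1) * (1 + 2 * K * m) := by
  induction m with
  | zero => simp [Bk]
  | succ m ih =>
    rw [Bk, ih]
    have h : (1 + ((m : ℝ≥0∞) + 1)⁻¹) * ((m : ℝ≥0∞) + 1) = m + 1 + 1 := by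
      rw [add_mul, one_mul, ENNReal.inv_mul_cancel (by positivity)
        (by exact ENNReal.add_ne_top.2 ⟨ENNReal.natCast_ne_top m, ENNReal.one_ne_top⟩)]
    rw [← mul_assoc, h]
    push_cast
    ring

theorem Bk_le (K : ℝ≥0∞) (m : ℕ) : Bk K m ≤ (1 + 2 * K) * ((m : ℝ≥0∞) + 1) ^ 2 := by
  rw [Bk_eq]
  have h : 1 + 2 * K * (m : ℝ≥0∞) ≤ (1 + 2 * K) * ((m : ℝ≥0∞) + 1) := by
    have : (1 + 2 * K) * ((m : ℝ≥0∞) + 1) = 1 + 2 * K * m + (m + 2 * K) := by ring
    rw [this]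
    exact le_self_add
  calc ((m : ℝ≥0∞) + 1) * (1 + 2 * K * m) ≤ ((m : ℝ≥0∞) + 1) * ((1 + 2 * K) * ((m : ℝ≥0∞) + 1)) := by
        gcongr
    _ = _ := by ring

theorem zeta_ne_top : ∑' k : ℕ, ((k : ℝ≥0∞) + 1)⁻¹ ^ 2 ≠ ∞ := by
  have h : Summable (fun k : ℕ => (1 : ℝ) / ((k : ℝ) + 1) ^ 2) := by
    have := (summable_nat_add_iff 1).2 (Real.summable_one_div_nat_pow.2 (by norm_num : 1 < 2))
    refine this.congr fun k => ?_
    push_cast
    rfl
  have h2 := h.tsum_ofReal_ne_top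
  refine ne_of_eq_of_ne ?_ h2
  refine tsum_congr fun k => ?_
  rw [ENNReal.ofReal_div_of_pos (by positivity), ENNReal.ofReal_pow (by positivity),
    ENNReal.ofReal_add (by positivity) (by norm_num)]
  simp only [ENNReal.ofReal_one, ENNReal.ofReal_natCast]
  rw [one_div, ENNReal.inv_pow]

theorem rd_all (w : FP A → ℝ≥0∞) (v : A → ℝ≥0∞)
    (hv : ∀ a, v a ≠ 0) (hv' : ∀ a, v a ≠ ∞) (hw0 : ∀ x, 1 ≤ w x)
    (hw1 : ∀ i a y, hd i y = 1 → w y ≤ w (em i a * y))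
    (hw2 : ∀ i a y, hd i y = 1 → v a ^ 2 ≤ w (em i a * y)) (f g : FP A → ℝ≥0∞) :
    ∑' z, cv f g z ^ 2 ≤ ((∑' k : ℕ, ((k : ℝ≥0∞) + 1)⁻¹ ^ 2) *
      (1 + 2 * (2 * ∑' a, (v a)⁻¹ ^ 2))) *
        ((∑' x, (w x * ((len x : ℝ≥0∞) + 1) ^ 4) * f x ^ 2) * ∑' y, g y ^ 2) := by
  classical
  set K := 2 * ∑' a, (v a)⁻¹ ^ 2 with hK
  let fk : ℕ → FP A → ℝ≥0∞ := fun k x => if len x = k then f x else 0
  have hf : ∀ x, f x = ∑' k, fk k x := by
    intro x
    rw [tsum_eq_single (len x)]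
    · simp [fk]
    · intro k hk
      simp only [fk]
      rw [if_neg (fun h => hk h.symm)]
  have h1 : ∀ z, cv f g z = ∑' k, cv (fk k) g z := by
    intro z
    unfold cv
    rw [ENNReal.tsum_comm]
    refine tsum_congr fun x => ?_
    rw [ENNReal.tsum_mul_right, ← hf]
  have h2 : ∀ z, cv f g z ^ 2 ≤ (∑' k : ℕ, ((k : ℝ≥0∞) + 1)⁻¹ ^ 2) *
      ∑' k : ℕ, ((k : ℝ≥0∞) + 1) ^ 2 * cv (fk k) g z ^ 2 := by
    intro z
    rw [h1]
    exact cs_weight (fun k : ℕ => (k : ℝ≥0∞) + 1) _ (fun k => by positivity)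
      (fun k => ENNReal.add_ne_top.2 ⟨ENNReal.natCast_ne_top k, ENNReal.one_ne_top⟩)
  calc ∑' z, cv f g z ^ 2 ≤ ∑' z, (∑' k : ℕ, ((k : ℝ≥0∞) + 1)⁻¹ ^ 2) *
      ∑' k : ℕ, ((k : ℝ≥0∞) + 1) ^ 2 * cv (fk k) g z ^ 2 := ENNReal.tsum_le_tsum h2
    _ = (∑' k : ℕ, ((k : ℝ≥0∞) + 1)⁻¹ ^ 2) * ∑' k : ℕ, ((k : ℝ≥0∞) + 1) ^ 2 *
          ∑' z, cv (fk k) g z ^ 2 := by
        rw [ENNReal.tsum_mul_left, ENNReal.tsum_comm]
        simp_rw [ENNReal.tsum_mul_left]
    _ ≤ (∑' k : ℕ, ((k : ℝ≥0∞) + 1)⁻¹ ^ 2) * ∑' k : ℕ, ((k : ℝ≥0∞) + 1) ^ 2 *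
          (((1 + 2 * K) * ((k : ℝ≥0∞) + 1) ^ 2) * ((∑' x, w x * fk k x ^ 2) * ∑' y, g y ^ 2)) := by
        refine mul_le_mul_right (ENNReal.tsum_le_tsum fun k => ?_) _
        refine mul_le_mul_right ?_ _
        refine (rd_len w v hv hv' hw0 hw1 hw2 k (fk k) g ?_).trans ?_
        · intro x hx
          by_contra hc
          exact hx (by simp only [fk]; rw [if_neg hc])
        · exact mul_le_mul_left (Bk_le K k) _
    _ = ((∑' k : ℕ, ((k : ℝ≥0∞) + 1)⁻¹ ^ 2) * (1 + 2 * K)) *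
          ((∑' k : ℕ, ((k : ℝ≥0∞) + 1) ^ 4 * ∑' x, w x * fk k x ^ 2) * ∑' y, g y ^ 2) := by
        rw [mul_assoc]
        congr 1
        rw [← ENNReal.tsum_mul_right, ← ENNReal.tsum_mul_left]
        refine tsum_congr fun k => ?_
        ring
    _ = _ := by
        congr 2
        simp_rw [← ENNReal.tsum_mul_left]
        rw [ENNReal.tsum_comm]
        refine tsum_congr fun x => ?_
        rw [tsum_eq_single (len x)]
        · simp only [fk, if_true]
          ring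
        · intro k hk
          simp only [fk]
          rw [if_neg (fun h => hk h.symm)]
          simp

theorem len_le_af (l : A → ℕ) (hl1 : l 1 = 0) (hl : ∀ a, a ≠ 1 → 1 ≤ l a) :
    ∀ (n : ℕ) (x : FP A), len x = n → n ≤ af l x := by
  intro n
  induction n with
  | zero => intro x _; exact Nat.zero_le _
  | succ n ih =>
    intro x hx
    have hx1 : x ≠ 1 := by
      intro h; rw [h, len_one] at hx; omega
    obtain ⟨i, hi⟩ := exists_hd_ne_one hx1
    rw [len_of_hd_ne_one hi] at hx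
    have := ih (tl i x) (by omega)
    rw [af_dec l hl1 i]
    have := hl _ hi
    omega

/-- Rapid decay for finitely supported real functions. -/
theorem rd_real (l v : A → ℕ) (p : ℕ) (hl1 : l 1 = 0) (hl : ∀ a, a ≠ 1 → 1 ≤ l a)
    (hv0 : ∀ a, v a ≠ 0) (hv : ∀ a, v a ^ 2 ≤ (1 + l a) ^ p)
    (hK : ∑' a, ((v a : ℝ≥0∞))⁻¹ ^ 2 ≠ ∞) :
    ∃ C : ℝ, 0 ≤ C ∧ ∀ f g : FP A →₀ ℝ, ∀ T : Finset (FP A),
      ∑ x ∈ T, (f.sum (fun y a => a * g (y⁻¹ * x))) ^ 2 ≤
        C * (f.sum (fun x a => a ^ 2 * (1 + (af l x : ℝ)) ^ (p + 4))) * g.sum (fun _ a => a ^ 2) := by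
  set Ce : ℝ≥0∞ := ((∑' k : ℕ, ((k : ℝ≥0∞) + 1)⁻¹ ^ 2) *
      (1 + 2 * (2 * ∑' a, ((v a : ℝ≥0∞))⁻¹ ^ 2))) with hCe
  have hCt : Ce ≠ ∞ := by
    refine ENNReal.mul_ne_top zeta_ne_top ?_
    refine ENNReal.add_ne_top.2 ⟨ENNReal.one_ne_top, ?_⟩
    exact ENNReal.mul_ne_top (by norm_num) (ENNReal.mul_ne_top (by norm_num) hK)
  refine ⟨Ce.toReal, ENNReal.toReal_nonneg, fun f g T => ?_⟩
  let F : FP A → ℝ≥0∞ := fun x => ENNReal.ofReal |f x|
  let Gg : FP A → ℝ≥0∞ := fun x => ENNReal.ofReal |g x|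
  let w : FP A → ℝ≥0∞ := fun x => (((1 + af l x) ^ p : ℕ) : ℝ≥0∞)
  have main := rd_all w (fun a => (v a : ℝ≥0∞)) (fun a => by simpa using hv0 a)
    (fun a => ENNReal.natCast_ne_top _) (fun x => by
      simp only [w]
      exact_mod_cast Nat.one_le_pow _ _ (by omega)) (fun i a y hy => by
      simp only [w]
      have : af l y ≤ af l (em i a * y) := by
        rw [af_em_mul l hl1, syl_of_hd_eq_one hy]
        omega
      exact_mod_cast Nat.pow_le_pow_left (by omega) p) (fun i a y hy => by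
      simp only [w]
      have h1 : l a ≤ af l (em i a * y) := by
        rw [af_em_mul l hl1, hy, mul_one]
        omega
      have h2 : v a ^ 2 ≤ (1 + af l (em i a * y)) ^ p :=
        (hv a).trans (Nat.pow_le_pow_left (by omega) p)
      exact_mod_cast h2) F Gg
  have hcv : ∀ z, cv F Gg z = ENNReal.ofReal (f.sum (fun y a => |a| * |g (y⁻¹ * z)|)) := by
    intro z
    unfold cv
    rw [tsum_eq_sum (s := f.support)]
    · rw [Finsupp.sum, ENNReal.ofReal_sum_of_nonneg (fun i _ => by positivity)]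
      refine Finset.sum_congr rfl fun y _ => ?_
      rw [ENNReal.ofReal_mul (abs_nonneg _)]
    · intro y hy
      have : f y = 0 := by simpa using hy
      simp [F, this]
  have hg2 : ∑' y, Gg y ^ 2 = ENNReal.ofReal (g.sum (fun _ a => a ^ 2)) := by
    rw [tsum_eq_sum (s := g.support)]
    · rw [Finsupp.sum, ENNReal.ofReal_sum_of_nonneg (fun i _ => by positivity)]
      refine Finset.sum_congr rfl fun y _ => ?_
      simp only [Gg]
      rw [← ENNReal.ofReal_pow (abs_nonneg _), sq_abs]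
    · intro y hy
      have : g y = 0 := by simpa using hy
      simp [Gg, this]
  have hf2 : ∑' x, (w x * ((len x : ℝ≥0∞) + 1) ^ 4) * F x ^ 2 ≤
      ENNReal.ofReal (f.sum (fun x a => a ^ 2 * (1 + (af l x : ℝ)) ^ (p + 4))) := by
    rw [tsum_eq_sum (s := f.support)]
    · rw [Finsupp.sum, ENNReal.ofReal_sum_of_nonneg (fun i _ => by positivity)]
      refine Finset.sum_le_sum fun x _ => ?_
      simp only [F, w]
      have hlen := len_le_af l hl1 hl (len x) x rfl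
      have e1 : ENNReal.ofReal ((f x) ^ 2 * (1 + (af l x : ℝ)) ^ (p + 4)) =
          (((1 + af l x) ^ (p + 4) : ℕ) : ℝ≥0∞) * ENNReal.ofReal |f x| ^ 2 := by
        rw [← ENNReal.ofReal_pow (abs_nonneg _), sq_abs, mul_comm, ENNReal.ofReal_mul (by positivity)]
        congr 1
        rw [← ENNReal.ofReal_natCast]
        push_cast
        rfl
      rw [e1]
      refine mul_le_mul_left ?_ _
      have h3 : (1 + af l x) ^ p * (len x + 1) ^ 4 ≤ (1 + af l x) ^ (p + 4) := by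
        rw [pow_add]
        exact Nat.mul_le_mul_left _ (Nat.pow_le_pow_left (by omega) 4)
      exact_mod_cast h3
    · intro y hy
      have : f y = 0 := by simpa using hy
      simp [F, this]
  have h1 : ∀ x, (f.sum (fun y a => a * g (y⁻¹ * x))) ^ 2 ≤ (cv F Gg x).toReal ^ 2 := by
    intro x
    have hnn : 0 ≤ f.sum (fun y a => |a| * |g (y⁻¹ * x)|) :=
      Finset.sum_nonneg fun i _ => by positivity
    rw [hcv, ENNReal.toReal_ofReal hnn, ← sq_abs]
    refine pow_le_pow_left₀ (abs_nonneg _) ?_ 2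
    unfold Finsupp.sum
    refine (Finset.abs_sum_le_sum_abs _ _).trans (le_of_eq ?_)
    refine Finset.sum_congr rfl fun y _ => abs_mul _ _
  have hN : 0 ≤ g.sum (fun _ a => a ^ 2) := Finset.sum_nonneg fun i _ => by positivity
  have hM : 0 ≤ f.sum (fun x a => a ^ 2 * (1 + (af l x : ℝ)) ^ (p + 4)) :=
    Finset.sum_nonneg fun i _ => by positivity
  have h2 : ENNReal.ofReal (∑ x ∈ T, (f.sum (fun y a => a * g (y⁻¹ * x))) ^ 2) ≤
      ENNReal.ofReal (Ce.toReal * (f.sum (fun x a => a ^ 2 * (1 + (af l x : ℝ)) ^ (p + 4))) *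
        g.sum (fun _ a => a ^ 2)) := by
    calc ENNReal.ofReal (∑ x ∈ T, (f.sum (fun y a => a * g (y⁻¹ * x))) ^ 2)
        ≤ ENNReal.ofReal (∑ x ∈ T, (cv F Gg x).toReal ^ 2) :=
          ENNReal.ofReal_le_ofReal (Finset.sum_le_sum fun x _ => h1 x)
      _ = ∑ x ∈ T, cv F Gg x ^ 2 := by
          rw [ENNReal.ofReal_sum_of_nonneg (fun i _ => by positivity)]
          refine Finset.sum_congr rfl fun x _ => ?_
          rw [ENNReal.ofReal_pow ENNReal.toReal_nonneg, ENNReal.ofReal_toReal]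
          rw [hcv]
          exact ENNReal.ofReal_ne_top
      _ ≤ ∑' x, cv F Gg x ^ 2 := ENNReal.sum_le_tsum T
      _ ≤ Ce * ((∑' x, (w x * ((len x : ℝ≥0∞) + 1) ^ 4) * F x ^ 2) * ∑' y, Gg y ^ 2) := main
      _ ≤ Ce * (ENNReal.ofReal (f.sum (fun x a => a ^ 2 * (1 + (af l x : ℝ)) ^ (p + 4))) *
            ENNReal.ofReal (g.sum (fun _ a => a ^ 2))) := by
          rw [hg2]
          gcongr
      _ = _ := by
          rw [mul_assoc Ce.toReal, ENNReal.ofReal_mul ENNReal.toReal_nonneg,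
            ENNReal.ofReal_toReal hCt, ENNReal.ofReal_mul hM]
  exact (ENNReal.ofReal_le_ofReal_iff (by positivity)).1 h2

end Pool.Agent.TH979
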