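import Pool.Agent.TH979.Walk2

set_option autoImplicit false

/-! The coefficient sequence `cc n ^ 6` and its generating functions. -/

namespace Pool.Agent.TH979

open Finset

theorem cc_zero : cc 0 = 1 := by simp [cc]

theorem cc_pos (n : ℕ) : 0 < cc n := by
  unfold cc
  have := Nat.centralBinom_pos n
  positivity

theorem cc_succ (n : ℕ) : cc (n + 1) = cc n * ((2 * n + 1) / (2 * n + 2)) := by
  unfold cc
  have h := Nat.succ_mul_centralBinom_succ n
  have h' : ((n : ℝ) + 1) * ((n + 1).centralBinom : ℝ) = 2 * (2 * n + 1) * (n.centralBinom : ℝ) := by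
    exact_mod_cast h
  have hn : (n : ℝ) + 1 ≠ 0 := by positivity
  have h2 : ((n + 1).centralBinom : ℝ) = 2 * (2 * n + 1) * (n.centralBinom : ℝ) / ((n : ℝ) + 1) := by
    rw [eq_div_iff hn]; linarith
  rw [h2, pow_succ]
  field_simp
  ring

theorem cc_upper (n : ℕ) : cc n ^ 2 * (2 * n + 1) ≤ 1 := by
  induction n with
  | zero => simp [cc_zero]
  | succ n ih =>
    rw [cc_succ]
    push_cast
    have h1 : (cc n * ((2 * n + 1) / (2 * n + 2))) ^ 2 * (2 * ((n : ℝ) + 1) + 1) =
        (cc n ^ 2 * (2 * n + 1)) * ((2 * n + 1) * (2 * n + 3) / (2 * n + 2) ^ 2) := by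
      field_simp
      ring
    rw [h1]
    have h2 : ((2 * n + 1) * (2 * n + 3) / (2 * n + 2) ^ 2 : ℝ) ≤ 1 := by
      rw [div_le_one (by positivity)]
      nlinarith
    have h3 : (0 : ℝ) ≤ (2 * n + 1) * (2 * n + 3) / (2 * n + 2) ^ 2 := by positivity
    exact mul_le_one₀ ih h3 h2

theorem cc_lower (n : ℕ) : 1 ≤ cc (n + 1) ^ 2 * (4 * (n + 1)) := by
  induction n with
  | zero => 
    rw [cc_succ, cc_zero]; norm_num
  | succ n ih =>
    rw [cc_succ]
    push_cast
    have h1 : (cc (n + 1) * ((2 * ((n : ℝ) + 1) + 1) / (2 * ((n : ℝ) + 1) + 2))) ^ 2 *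
        (4 * ((n : ℝ) + 1 + 1)) =
        (cc (n + 1) ^ 2 * (4 * (n + 1))) * ((2 * n + 3) ^ 2 / (4 * (n + 1) * (n + 2))) := by
      field_simp
      ring
    rw [h1]
    have h2 : (1 : ℝ) ≤ (2 * n + 3) ^ 2 / (4 * (n + 1) * (n + 2)) := by
      rw [one_le_div (by positivity)]
      nlinarith
    nlinarith

/-- the coefficients -/
noncomputable def an (n : ℕ) : ℝ := cc n ^ 6

theorem an_zero : an 0 = 1 := by simp [an, cc_zero]

theorem an_pos (n : ℕ) : 0 < an n := pow_pos (cc_pos n) 6

theorem an_upper (n : ℕ) : an n * (2 * n + 1) ^ 3 ≤ 1 := by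
  have h := cc_upper n
  have h0 : 0 ≤ cc n ^ 2 * (2 * n + 1) := by positivity
  have := pow_le_one₀ (n := 3) h0 h
  calc an n * (2 * n + 1) ^ 3 = (cc n ^ 2 * (2 * n + 1)) ^ 3 := by unfold an; ring
    _ ≤ 1 := this

theorem an_lower (n : ℕ) : 1 ≤ an (n + 1) * (4 * (n + 1)) ^ 3 := by
  have h := cc_lower n
  have := one_le_pow₀ (n := 3) h
  calc 1 ≤ (cc (n + 1) ^ 2 * (4 * (n + 1))) ^ 3 := this
    _ = _ := by unfold an; ring

theorem an_ratio (m n : ℕ) (h : m ≤ n) : an (m + 1) * an n ≤ an (n + 1) * an m := by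
  have h1 : cc (m + 1) * cc n ≤ cc (n + 1) * cc m := by
    rw [cc_succ, cc_succ]
    have hm := cc_pos m
    have hn := cc_pos n
    have h2 : ((2 * m + 1) / (2 * m + 2) : ℝ) ≤ (2 * n + 1) / (2 * n + 2) := by
      rw [div_le_div_iff₀ (by positivity) (by positivity)]
      have : (m : ℝ) ≤ n := by exact_mod_cast h
      nlinarith
    calc cc m * ((2 * m + 1) / (2 * m + 2)) * cc n = (cc m * cc n) * ((2 * m + 1) / (2 * m + 2)) := by
          ring
      _ ≤ (cc m * cc n) * ((2 * n + 1) / (2 * n + 2)) := mul_le_mul_of_nonneg_left h2 (by positivity)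
      _ = _ := by ring
  have h0 : 0 ≤ cc (m + 1) * cc n := by
    have := cc_pos (m + 1); have := cc_pos n; positivity
  calc an (m + 1) * an n = (cc (m + 1) * cc n) ^ 6 := by unfold an; ring
    _ ≤ (cc (n + 1) * cc m) ^ 6 := pow_le_pow_left₀ h0 h1 6
    _ = _ := by unfold an; ring

/-- `(2n+1) a_n ≤ 1/(4 n (n+1))` in shifted form -/
theorem bn_upper (n : ℕ) : (2 * ((n : ℝ) + 1) + 1) * an (n + 1) ≤ 1 / 4 * (1 / ((n + 1) * (n + 2))) := by
  have h := an_upper (n + 1)
  push_cast at h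
  have h1 : (2 * ((n : ℝ) + 1) + 1) * an (n + 1) ≤ 1 / (2 * ((n : ℝ) + 1) + 1) ^ 2 := by
    rw [le_div_iff₀ (by positivity)]
    calc _ = an (n + 1) * (2 * ((n : ℝ) + 1) + 1) ^ 3 := by ring
      _ ≤ 1 := h
  refine h1.trans ?_
  have : (1 / 4 * (1 / (((n : ℝ) + 1) * (n + 2))) : ℝ) = 1 / (4 * ((n + 1) * (n + 2))) := by
    field_simp
  rw [this]
  apply one_div_le_one_div_of_le (by positivity)
  nlinarith

theorem bn_lower (n : ℕ) : 1 / 32 * (1 / (((n : ℝ) + 1) * (n + 2))) ≤ (2 * ((n : ℝ) + 1) + 1) * an (n + 1) := by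
  have h := an_lower n
  have hp := an_pos (n + 1)
  have h1 : 1 / (4 * ((n : ℝ) + 1)) ^ 3 ≤ an (n + 1) := by
    rw [div_le_iff₀ (by positivity)]
    exact h
  calc 1 / 32 * (1 / (((n : ℝ) + 1) * (n + 2))) ≤ (2 * ((n : ℝ) + 1)) * (1 / (4 * ((n : ℝ) + 1)) ^ 3) := by
        have e : (2 * ((n : ℝ) + 1)) * (1 / (4 * ((n : ℝ) + 1)) ^ 3) = 1 / 32 * (1 / ((n + 1) * (n + 1))) := by
          field_simp
          norm_num
        rw [e]
        gcongr
        norm_num
    _ ≤ (2 * ((n : ℝ) + 1) + 1) * an (n + 1) := by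
        gcongr
        linarith

theorem hasSum_tele : HasSum (fun n : ℕ => 1 / (((n : ℝ) + 1) * (n + 2))) 1 := by
  rw [hasSum_iff_tendsto_nat_of_nonneg (fun n => by positivity)]
  have h : ∀ N : ℕ, ∑ n ∈ range N, 1 / (((n : ℝ) + 1) * (n + 2)) = 1 - 1 / ((N : ℝ) + 1) := by
    intro N
    induction N with
    | zero => simp
    | succ N ih =>
      rw [Finset.sum_range_succ, ih]
      push_cast
      field_simp
      ring
  simp_rw [h]
  have := tendsto_one_div_add_atTop_nhds_zero_nat (𝕜 := ℝ)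
  simpa using this.const_sub 1

theorem hasSum_T {x : ℝ} (h0 : 0 < x) (h1 : x < 1) :
    HasSum (fun n : ℕ => (1 - x ^ (n + 1)) * (1 / (((n : ℝ) + 1) * (n + 2))))
      (-((1 - x) / x) * Real.log (1 - x)) := by
  have hl := Real.hasSum_pow_div_log_of_abs_lt_one (x := x) (by rw [abs_of_pos h0]; exact h1)
  have hl2 : HasSum (fun n : ℕ => x ^ (n + 2) / ((n : ℝ) + 2)) (-Real.log (1 - x) - x) := by
    have h3 := (hasSum_nat_add_iff' 1).2 hl
    have e : (fun n : ℕ => x ^ (n + 1 + 1) / (((n + 1 : ℕ) : ℝ) + 1)) =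
        fun n : ℕ => x ^ (n + 2) / ((n : ℝ) + 2) := by
      funext n
      push_cast
      rw [add_assoc (n : ℝ)]
      norm_num
    have e2 : -Real.log (1 - x) - ∑ i ∈ range 1, x ^ (i + 1) / ((i : ℝ) + 1) =
        -Real.log (1 - x) - x := by simp
    rw [e, e2] at h3
    exact h3
  have h2 := hasSum_tele.sub (hl.sub (hl2.mul_left (1 / x)))
  have e : (fun n : ℕ => 1 / (((n : ℝ) + 1) * (n + 2)) - (x ^ (n + 1) / ((n : ℝ) + 1) -
      1 / x * (x ^ (n + 2) / ((n : ℝ) + 2)))) =
      fun n : ℕ => (1 - x ^ (n + 1)) * (1 / (((n : ℝ) + 1) * (n + 2))) := by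
    funext n
    have hn1 : ((n : ℝ) + 1) ≠ 0 := by positivity
    have hn2 : ((n : ℝ) + 2) ≠ 0 := by positivity
    field_simp
    ring
  have e2 : 1 - (-Real.log (1 - x) - 1 / x * (-Real.log (1 - x) - x)) =
      -((1 - x) / x) * Real.log (1 - x) := by
    field_simp
    ring
  rw [e, e2] at h2
  exact h2

theorem summable_bn : Summable (fun n : ℕ => (2 * (n : ℝ) + 1) * an n) := by
  rw [← summable_nat_add_iff 1]
  refine Summable.of_nonneg_of_le (fun n => ?_) (fun n => ?_) (hasSum_tele.summable.mul_left (1 / 4))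
  · have := an_pos (n + 1); positivity
  · push_cast
    exact bn_upper n

theorem summable_pow {c : ℕ → ℝ} (hc : Summable c) (hc0 : ∀ n, 0 ≤ c n) {x : ℝ} (h0 : 0 ≤ x)
    (h1 : x ≤ 1) : Summable (fun n => c n * x ^ n) := by
  refine Summable.of_nonneg_of_le (fun n => mul_nonneg (hc0 n) (pow_nonneg h0 n)) (fun n => ?_) hc
  calc c n * x ^ n ≤ c n * 1 := mul_le_mul_of_nonneg_left (pow_le_one₀ h0 h1) (hc0 n)
    _ = c n := mul_one _

theorem summable_an : Summable an := by
  refine Summable.of_nonneg_of_le (fun n => (an_pos n).le) (fun n => ?_) summable_bn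
  have := an_pos n
  nlinarith [mul_nonneg (Nat.cast_nonneg (α := ℝ) n) this.le]

theorem summable_nan : Summable (fun n : ℕ => (n : ℝ) * an n) := by
  refine Summable.of_nonneg_of_le (fun n => ?_) (fun n => ?_) summable_bn
  · have := an_pos n; positivity
  · have := an_pos n
    nlinarith [mul_nonneg (Nat.cast_nonneg (α := ℝ) n) this.le]

theorem AA_eq (x : ℝ) : AA x = ∑' n, an n * x ^ n := rfl

/-- `L = Σ (2n+1) a_n x^n` -/
noncomputable def LL (x : ℝ) : ℝ := ∑' n : ℕ, ((2 * (n : ℝ) + 1) * an n) * x ^ n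

/-- the renewal coefficients -/
noncomputable def un (n : ℕ) : ℝ :=
  if n = 0 then 0 else an n - ∑ k : Fin n, un k.1 * an (n - k.1)
termination_by n
decreasing_by exact k.2

theorem un_zero : un 0 = 0 := by rw [un]; simp

theorem un_rec (n : ℕ) (hn : n ≠ 0) : ∑ k ∈ range (n + 1), un k * an (n - k) = an n := by
  rw [Finset.sum_range_succ, Nat.sub_self, an_zero, mul_one]
  conv_lhs => rw [un.eq_def n]
  rw [if_neg hn, Finset.sum_range]
  ring

theorem un_nonneg (n : ℕ) : 0 ≤ un n := by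
  induction n using Nat.strong_induction_on with
  | _ n ih =>
    rcases n with _ | n
    · rw [un_zero]
    rcases n with _ | n
    · rw [un]
      simp [un_zero, (an_pos 1).le]
    · have h1 := un_rec (n + 1 + 1) (by omega)
      rw [Finset.sum_range_succ, Nat.sub_self, an_zero, mul_one] at h1
      have h2 := un_rec (n + 1) (by omega)
      have h3 : ∑ k ∈ range (n + 1 + 1), un k * an (n + 1 + 1 - k) ≤ an (n + 1 + 1) := by
        have hp := an_pos (n + 1)
        rw [← mul_le_mul_iff_left₀ hp, Finset.sum_mul]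
        calc ∑ k ∈ range (n + 1 + 1), un k * an (n + 1 + 1 - k) * an (n + 1)
            ≤ ∑ k ∈ range (n + 1 + 1), an (n + 1 + 1) * (un k * an (n + 1 - k)) := by
              refine Finset.sum_le_sum fun k hk => ?_
              have hk' : k ≤ n + 1 := by
                have := Finset.mem_range.1 hk; omega
              have hu := ih k (by omega)
              have e : n + 1 + 1 - k = (n + 1 - k) + 1 := by omega
              rw [e]
              have := an_ratio (n + 1 - k) (n + 1) (by omega)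
              nlinarith
          _ = an (n + 1 + 1) * an (n + 1) := by rw [← Finset.mul_sum, h2]
      linarith

theorem un_le (n : ℕ) : un n ≤ an n := by
  by_cases hn : n = 0
  · rw [hn, un_zero]; exact (an_pos 0).le
  · have h := un_rec n hn
    rw [Finset.sum_range_succ, Nat.sub_self, an_zero, mul_one] at h
    have : 0 ≤ ∑ k ∈ range n, un k * an (n - k) :=
      Finset.sum_nonneg fun k _ => mul_nonneg (un_nonneg k) (an_pos _).le
    linarith

theorem un_one : un 1 = an 1 := by
  rw [un]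
  simp [un_zero]

/-- `U = Σ u_n x^n` -/
noncomputable def UU (x : ℝ) : ℝ := ∑' n : ℕ, un n * x ^ n

/-- coefficients of `M = L / A²` -/
noncomputable def mn (n : ℕ) : ℝ := if n = 0 then 1 else (2 * (n : ℝ) - 1) * un n

/-- `M = L / A²` -/
noncomputable def MM (x : ℝ) : ℝ := ∑' n : ℕ, mn n * x ^ n

theorem mn_nonneg (n : ℕ) : 0 ≤ mn n := by
  unfold mn
  split_ifs with h
  · norm_num
  · have : (1 : ℝ) ≤ n := by exact_mod_cast Nat.one_le_iff_ne_zero.2 h
    exact mul_nonneg (by linarith) (un_nonneg n)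

theorem summable_un : Summable un :=
  Summable.of_nonneg_of_le un_nonneg un_le summable_an

theorem summable_mn : Summable mn := by
  refine Summable.of_nonneg_of_le mn_nonneg (fun n => ?_) summable_bn
  unfold mn
  split_ifs with h
  · rw [h, an_zero]; norm_num
  · have h1 := un_le n
    have h2 := un_nonneg n
    have : (1 : ℝ) ≤ n := by exact_mod_cast Nat.one_le_iff_ne_zero.2 h
    nlinarith [an_pos n]

theorem cauchy {c d : ℕ → ℝ} (hc : Summable c) (hc0 : ∀ n, 0 ≤ c n) (hd : Summable d)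
    (hd0 : ∀ n, 0 ≤ d n) {x : ℝ} (h0 : 0 ≤ x) (h1 : x ≤ 1) :
    (∑' n, c n * x ^ n) * (∑' n, d n * x ^ n) =
      ∑' n, (∑ k ∈ range (n + 1), c k * d (n - k)) * x ^ n := by
  have s1 := summable_pow hc hc0 h0 h1
  have s2 := summable_pow hd hd0 h0 h1
  rw [tsum_mul_tsum_eq_tsum_sum_range_of_summable_norm s1.norm s2.norm]
  refine tsum_congr fun n => ?_
  rw [Finset.sum_mul]
  refine Finset.sum_congr rfl fun k hk => ?_
  have hk' : k ≤ n := by have := Finset.mem_range.1 hk; omega
  have : x ^ n = x ^ k * x ^ (n - k) := by rw [← pow_add]; congr 1; omega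
  rw [this]
  ring

theorem UU_mul_AA {x : ℝ} (h0 : 0 ≤ x) (h1 : x ≤ 1) : UU x * AA x = AA x - 1 := by
  unfold UU
  rw [AA_eq, cauchy summable_un un_nonneg summable_an (fun n => (an_pos n).le) h0 h1]
  have s := summable_pow summable_an (fun n => (an_pos n).le) h0 h1
  have e : ∀ n : ℕ, (∑ k ∈ range (n + 1), un k * an (n - k)) * x ^ n =
      an n * x ^ n - if n = 0 then 1 else 0 := by
    intro n
    by_cases hn : n = 0
    · subst hn; simp [un_zero, an_zero]
    · rw [un_rec n hn, if_neg hn, sub_zero]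
  simp_rw [e]
  rw [s.tsum_sub (summable_of_ne_finset_zero (s := {0}) (fun b hb => by
    rw [if_neg]; simpa using hb)), tsum_ite_eq]

theorem LL_eq {x : ℝ} (h0 : 0 ≤ x) (h1 : x ≤ 1) : LL x = AA x ^ 2 * MM x := by
  have hb0 : ∀ n : ℕ, 0 ≤ (2 * (n : ℝ) + 1) * an n := fun n => by
    have := an_pos n; positivity
  have c1 := cauchy summable_mn mn_nonneg summable_an (fun n => (an_pos n).le) h0 h1
  have c2 := cauchy summable_un un_nonneg summable_bn hb0 h0 h1
  have sL := summable_pow summable_bn hb0 h0 h1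
  have key : MM x * AA x + UU x * LL x = LL x := by
    unfold MM UU LL
    rw [AA_eq, c1, c2, ← Summable.tsum_add]
    · refine tsum_congr fun n => ?_
      rw [← add_mul]
      congr 1
      have e1 : ∑ k ∈ range (n + 1), mn k * an (n - k) =
          an n + ∑ k ∈ range (n + 1), (2 * (k : ℝ) - 1) * (un k * an (n - k)) := by
        rw [Finset.sum_range_succ', Finset.sum_range_succ' (fun k => (2 * (k : ℝ) - 1) * (un k * an (n - k)))]
        have : ∀ k, mn (k + 1) = (2 * ((k + 1 : ℕ) : ℝ) - 1) * un (k + 1) := fun k => by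
          unfold mn; rw [if_neg (by omega)]
        simp only [this]
        simp only [mn, if_true, un_zero, Nat.sub_zero]
        rw [add_comm]
        simp only [one_mul, zero_mul, mul_zero, add_zero]
        congr 1
        refine Finset.sum_congr rfl fun k _ => ?_
        ring
      rw [e1, add_assoc, ← Finset.sum_add_distrib]
      have e2 : ∀ k ∈ range (n + 1), (2 * (k : ℝ) - 1) * (un k * an (n - k)) +
          un k * ((2 * ((n - k : ℕ) : ℝ) + 1) * an (n - k)) = (2 * n) * (un k * an (n - k)) := by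
        intro k hk
        have hk' : k ≤ n := by have := Finset.mem_range.1 hk; omega
        rw [Nat.cast_sub hk']
        ring
      rw [Finset.sum_congr rfl e2, ← Finset.mul_sum]
      by_cases hn : n = 0
      · subst hn; simp [un_zero]
      · rw [un_rec n hn]; ring
    · have := (summable_pow summable_mn mn_nonneg h0 h1).norm
      have h2 := (summable_pow summable_an (fun n => (an_pos n).le) h0 h1).norm
      have h3 := (summable_norm_sum_mul_range_of_summable_norm this h2).of_norm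
      refine h3.congr fun n => ?_
      rw [Finset.sum_mul]
      refine Finset.sum_congr rfl fun k hk => ?_
      have hk' : k ≤ n := by have := Finset.mem_range.1 hk; omega
      have : x ^ n = x ^ k * x ^ (n - k) := by rw [← pow_add]; congr 1; omega
      rw [this]
      ring
    · have := (summable_pow summable_un un_nonneg h0 h1).norm
      have h2 := sL.norm
      have h3 := (summable_norm_sum_mul_range_of_summable_norm this h2).of_norm
      refine h3.congr fun n => ?_
      rw [Finset.sum_mul]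
      refine Finset.sum_congr rfl fun k hk => ?_
      have hk' : k ≤ n := by have := Finset.mem_range.1 hk; omega
      have : x ^ n = x ^ k * x ^ (n - k) := by rw [← pow_add]; congr 1; omega
      rw [this]
      ring
  have hU := UU_mul_AA h0 h1
  have key2 : LL x - UU x * LL x = MM x * AA x := by linarith
  calc LL x = LL x * (AA x - UU x * AA x) := by rw [hU]; ring
    _ = (LL x - UU x * LL x) * AA x := by ring
    _ = (MM x * AA x) * AA x := by rw [key2]
    _ = _ := by ring

theorem mono_series {c : ℕ → ℝ} (hc : Summable c) (hc0 : ∀ n, 0 ≤ c n) {x y : ℝ} (h0 : 0 ≤ x)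
    (hxy : x ≤ y) (h1 : y ≤ 1) : ∑' n, c n * x ^ n ≤ ∑' n, c n * y ^ n := by
  refine Summable.tsum_le_tsum (fun n => ?_) (summable_pow hc hc0 h0 (hxy.trans h1))
    (summable_pow hc hc0 (h0.trans hxy) h1)
  exact mul_le_mul_of_nonneg_left (pow_le_pow_left₀ h0 hxy n) (hc0 n)

theorem AA_mono {x y : ℝ} (h0 : 0 ≤ x) (hxy : x ≤ y) (h1 : y ≤ 1) : AA x ≤ AA y :=
  mono_series summable_an (fun n => (an_pos n).le) h0 hxy h1

theorem LL_mono {x y : ℝ} (h0 : 0 ≤ x) (hxy : x ≤ y) (h1 : y ≤ 1) : LL x ≤ LL y :=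
  mono_series summable_bn (fun n => by have := an_pos n; positivity) h0 hxy h1

theorem MM_mono {x y : ℝ} (h0 : 0 ≤ x) (hxy : x ≤ y) (h1 : y ≤ 1) : MM x ≤ MM y :=
  mono_series summable_mn mn_nonneg h0 hxy h1

theorem ge_coeff {c : ℕ → ℝ} (hc : Summable c) (hc0 : ∀ n, 0 ≤ c n) {x : ℝ} (h0 : 0 ≤ x)
    (h1 : x ≤ 1) : c 0 ≤ ∑' n, c n * x ^ n := by
  have := (summable_pow hc hc0 h0 h1).le_tsum 0 (fun n _ => mul_nonneg (hc0 n) (pow_nonneg h0 n))
  simpa using this

theorem AA_ge {x : ℝ} (h0 : 0 ≤ x) (h1 : x ≤ 1) : 1 ≤ AA x := by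
  have := ge_coeff summable_an (fun n => (an_pos n).le) h0 h1
  rwa [an_zero] at this

theorem LL_ge {x : ℝ} (h0 : 0 ≤ x) (h1 : x ≤ 1) : 1 ≤ LL x := by
  have := ge_coeff summable_bn (fun n => by have := an_pos n; positivity) h0 h1
  unfold LL
  simpa [an_zero] using this

theorem MM_ge {x : ℝ} (h0 : 0 ≤ x) (h1 : x ≤ 1) : 1 ≤ MM x := by
  have := ge_coeff summable_mn mn_nonneg h0 h1
  have h2 : mn 0 = 1 := by simp [mn]
  rw [h2] at this
  exact this

theorem MM_one_gt : 1 < MM 1 := by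
  unfold MM
  have h := (summable_pow summable_mn mn_nonneg (x := 1) zero_le_one le_rfl).sum_le_tsum (range 2)
    (fun n _ => mul_nonneg (mn_nonneg n) (by positivity))
  have h2 : ∑ n ∈ range 2, mn n * (1 : ℝ) ^ n = 1 + un 1 := by
    rw [Finset.sum_range_succ, Finset.sum_range_one]
    simp [mn]
    norm_num
  rw [h2, un_one] at h
  have := an_pos 1
  linarith

/-- bounds for `L(1) - L(x)` -/
theorem LL_diff {x : ℝ} (h0 : 0 < x) (h1 : x < 1) :
    1 / 32 * (-((1 - x) / x) * Real.log (1 - x)) ≤ LL 1 - LL x ∧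
    LL 1 - LL x ≤ 1 / 4 * (-((1 - x) / x) * Real.log (1 - x)) := by
  have hT := hasSum_T h0 h1
  have hb0 : ∀ n : ℕ, 0 ≤ (2 * (n : ℝ) + 1) * an n := fun n => by
    have := an_pos n; positivity
  have s1 := summable_pow summable_bn hb0 (x := 1) zero_le_one le_rfl
  have s2 := summable_pow summable_bn hb0 h0.le h1.le
  have hd : LL 1 - LL x = ∑' n : ℕ, (1 - x ^ (n + 1)) * ((2 * ((n : ℝ) + 1) + 1) * an (n + 1)) := by
    unfold LL
    rw [← s1.tsum_sub s2, (s1.sub s2).tsum_eq_zero_add]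
    simp only [pow_zero, mul_one, sub_self, zero_add, one_pow]
    refine tsum_congr fun n => ?_
    push_cast
    ring
  have hs : Summable (fun n : ℕ => (1 - x ^ (n + 1)) * ((2 * ((n : ℝ) + 1) + 1) * an (n + 1))) := by
    have := (summable_nat_add_iff 1).2 (s1.sub s2)
    refine this.congr fun n => ?_
    push_cast
    ring
  have hx : ∀ n : ℕ, 0 ≤ 1 - x ^ (n + 1) := fun n => by
    have := pow_le_one₀ (n := n + 1) h0.le h1.le
    linarith
  rw [hd]
  constructor
  · rw [← hT.tsum_eq, ← tsum_mul_left]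
    refine Summable.tsum_le_tsum (fun n => ?_) (hT.summable.mul_left _) hs
    calc 1 / 32 * ((1 - x ^ (n + 1)) * (1 / (((n : ℝ) + 1) * (n + 2)))) =
          (1 - x ^ (n + 1)) * (1 / 32 * (1 / (((n : ℝ) + 1) * (n + 2)))) := by ring
      _ ≤ _ := mul_le_mul_of_nonneg_left (bn_lower n) (hx n)
  · rw [← hT.tsum_eq, ← tsum_mul_left]
    refine Summable.tsum_le_tsum (fun n => ?_) hs (hT.summable.mul_left _)
    calc _ ≤ (1 - x ^ (n + 1)) * (1 / 4 * (1 / (((n : ℝ) + 1) * (n + 2)))) :=
          mul_le_mul_of_nonneg_left (bn_upper n) (hx n)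
      _ = _ := by ring

/-- `Σ n a_n` -/
noncomputable def CA : ℝ := ∑' n : ℕ, (n : ℝ) * an n

theorem CA_nonneg : 0 ≤ CA := tsum_nonneg fun n => by have := an_pos n; positivity

theorem AA_diff {x : ℝ} (h0 : 0 ≤ x) (h1 : x ≤ 1) : AA 1 - AA x ≤ CA * (1 - x) := by
  have s1 := summable_pow summable_an (fun n => (an_pos n).le) (x := 1) zero_le_one le_rfl
  have s2 := summable_pow summable_an (fun n => (an_pos n).le) h0 h1
  rw [AA_eq, AA_eq, ← s1.tsum_sub s2]
  unfold CA
  rw [← tsum_mul_right]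
  refine Summable.tsum_le_tsum (fun n => ?_) (s1.sub s2) (summable_nan.mul_right _)
  have hb : 1 + (n : ℝ) * (x - 1) ≤ x ^ n := by
    have := one_add_mul_le_pow (a := x - 1) (by linarith) n
    simpa using this
  have := an_pos n
  rw [one_pow, mul_one]
  nlinarith

end Pool.Agent.TH979
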