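import Pool.Agent.TH979.Grp

set_option autoImplicit false

/-! The random walk on the free product of two copies of `ℤ^6`. -/

namespace Pool.Agent.TH979

open Finset

/-- convolution operator -/
noncomputable def conv {G : Type} [Group G] (ν : G →₀ ℝ) : (G → ℝ) →ₗ[ℝ] (G → ℝ) where
  toFun h := fun x => ν.sum (fun y a => a * h (y⁻¹ * x))
  map_add' f g := by
    funext x
    simp only [Pi.add_apply, mul_add]
    exact Finsupp.sum_add
  map_smul' c f := by
    funext x
    simp only [Pi.smul_apply, smul_eq_mul, RingHom.id_apply]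
    rw [Finsupp.mul_sum]
    refine Finsupp.sum_congr fun y _ => ?_
    ring

theorem conv_apply {G : Type} [Group G] (ν : G →₀ ℝ) (h : G → ℝ) (x : G) :
    conv ν h x = ν.sum (fun y a => a * h (y⁻¹ * x)) := rfl

/-- the measure given by a finite family of weighted steps -/
noncomputable def stepm {G : Type} {I : Type} [Fintype I] (w : I → ℝ) (y : I → G) : G →₀ ℝ :=
  ∑ s, Finsupp.single (y s) (w s)

theorem stepm_sum {G : Type} {I : Type} [Fintype I] (w : I → ℝ) (y : I → G)
    (φ : G → ℝ → ℝ) (h0 : ∀ g, φ g 0 = 0) (hadd : ∀ g a b, φ g (a + b) = φ g a + φ g b) :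
    (stepm w y).sum φ = ∑ s, φ (y s) (w s) := by
  unfold stepm
  rw [← Finsupp.sum_finsetSum_index h0 hadd]
  refine Finset.sum_congr rfl fun s _ => ?_
  rw [Finsupp.sum_single_index (h0 _)]

theorem conv_stepm {G : Type} [Group G] {I : Type} [Fintype I] (w : I → ℝ) (y : I → G)
    (h : G → ℝ) (x : G) : conv (stepm w y) h x = ∑ s, w s * h ((y s)⁻¹ * x) := by
  rw [conv_apply, stepm_sum]
  · intro g; ring
  · intro g a b; ring

/-- the indicator of the identity -/
noncomputable def dl (G : Type) [Group G] : G → ℝ := Set.indicator ({1} : Set G) (fun _ => (1 : ℝ))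

theorem dl_one {G : Type} [Group G] : dl G 1 = 1 := by simp [dl]

theorem dl_ne {G : Type} [Group G] {x : G} (h : x ≠ 1) : dl G x = 0 := by simp [dl, h]

theorem dl_nonneg {G : Type} [Group G] (x : G) : 0 ≤ dl G x := by
  by_cases h : x = 1
  · rw [h, dl_one]; norm_num
  · rw [dl_ne h]

section Abstract

variable {G : Type} [Group G] {I : Type} [Fintype I] (w : I → ℝ) (y : I → G)

theorem conv_nonneg (hw : ∀ s, 0 ≤ w s) (h : G → ℝ) (hh : ∀ x, 0 ≤ h x) (x : G) :
    0 ≤ conv (stepm w y) h x := by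
  rw [conv_stepm]
  exact Finset.sum_nonneg fun s _ => mul_nonneg (hw s) (hh _)

theorem pow_nonneg' (hw : ∀ s, 0 ≤ w s) (h : G → ℝ) (hh : ∀ x, 0 ≤ h x) (n : ℕ) (x : G) :
    0 ≤ ((conv (stepm w y)) ^ n) h x := by
  induction n generalizing x with
  | zero => simpa using hh x
  | succ n ih =>
    rw [pow_succ']
    exact conv_nonneg w y hw _ ih x

theorem pow_le' (hw : ∀ s, 0 ≤ w s) (hsum : ∑ s, w s = 1) (h : G → ℝ) (C : ℝ)
    (hh : ∀ x, h x ≤ C) (n : ℕ) (x : G) :
    ((conv (stepm w y)) ^ n) h x ≤ C := by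
  induction n generalizing x with
  | zero => simpa using hh x
  | succ n ih =>
    rw [pow_succ']
    show conv (stepm w y) _ x ≤ C
    rw [conv_stepm]
    calc ∑ s, w s * ((conv (stepm w y)) ^ n) h ((y s)⁻¹ * x) ≤ ∑ s, w s * C :=
          Finset.sum_le_sum fun s _ => mul_le_mul_of_nonneg_left (ih _) (hw s)
      _ = C := by rw [← Finset.sum_mul, hsum, one_mul]

/-- expansion of a solution of the resolvent equation -/
theorem resolvent_expand (F : G → ℝ) (z : ℝ)
    (hF : F = dl G + z • conv (stepm w y) F) (N : ℕ) (x : G) :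
    F x = ∑ n ∈ range N, z ^ n * ((conv (stepm w y)) ^ n) (dl G) x +
      z ^ N * ((conv (stepm w y)) ^ N) F x := by
  induction N with
  | zero => simp
  | succ N ih =>
    rw [Finset.sum_range_succ]
    have h1 : ((conv (stepm w y)) ^ N) F x = ((conv (stepm w y)) ^ N) (dl G) x +
        z * ((conv (stepm w y)) ^ (N + 1)) F x := by
      have h2 : ((conv (stepm w y)) ^ N) F =
          ((conv (stepm w y)) ^ N) (dl G) + z • ((conv (stepm w y)) ^ (N + 1)) F := by
        conv_lhs => rw [hF]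
        rw [map_add, map_smul, pow_succ]
        rfl
      rw [h2]
      simp
    rw [ih]
    conv_lhs => rw [h1]
    ring

theorem gf_le (hw : ∀ s, 0 ≤ w s) (F : G → ℝ) (hF0 : ∀ x, 0 ≤ F x) (z : ℝ) (hz : 0 ≤ z)
    (hF : F = dl G + z • conv (stepm w y) F) (N : ℕ) :
    ∑ n ∈ range N, z ^ n * ((conv (stepm w y)) ^ n) (dl G) 1 ≤ F 1 := by
  have h := resolvent_expand w y F z hF N 1
  have h2 : 0 ≤ z ^ N * ((conv (stepm w y)) ^ N) F 1 :=
    mul_nonneg (pow_nonneg hz _) (pow_nonneg' w y hw F hF0 N 1)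
  linarith

theorem gf_summable (hw : ∀ s, 0 ≤ w s) (F : G → ℝ) (hF0 : ∀ x, 0 ≤ F x) (z : ℝ) (hz : 0 ≤ z)
    (hF : F = dl G + z • conv (stepm w y) F) :
    Summable (fun n => z ^ n * ((conv (stepm w y)) ^ n) (dl G) 1) := by
  refine summable_of_sum_range_le (c := F 1) (fun n => ?_) (gf_le w y hw F hF0 z hz hF)
  exact mul_nonneg (pow_nonneg hz _) (pow_nonneg' w y hw _ dl_nonneg n 1)

theorem gf_eq (hw : ∀ s, 0 ≤ w s) (hsum : ∑ s, w s = 1) (F : G → ℝ) (hF0 : ∀ x, 0 ≤ F x)
    (C : ℝ) (hFC : ∀ x, F x ≤ C) (z : ℝ) (hz : 0 ≤ z) (hz1 : z < 1)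
    (hF : F = dl G + z • conv (stepm w y) F) :
    ∑' n, z ^ n * ((conv (stepm w y)) ^ n) (dl G) 1 = F 1 := by
  have hs := gf_summable w y hw F hF0 z hz hF
  have h1 := hs.hasSum.tendsto_sum_nat
  refine tendsto_nhds_unique h1 ?_
  have h2 : ∀ N, ∑ n ∈ range N, z ^ n * ((conv (stepm w y)) ^ n) (dl G) 1 =
      F 1 - z ^ N * ((conv (stepm w y)) ^ N) F 1 := by
    intro N
    have := resolvent_expand w y F z hF N 1
    linarith
  simp_rw [h2]
  have h3 : Filter.Tendsto (fun N => z ^ N * ((conv (stepm w y)) ^ N) F 1) Filter.atTop (nhds 0) := by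
    refine squeeze_zero (g := fun N => z ^ N * C) (fun N => ?_) (fun N => ?_) ?_
    · exact mul_nonneg (pow_nonneg hz _) (pow_nonneg' w y hw F hF0 N 1)
    · exact mul_le_mul_of_nonneg_left (pow_le' w y hw hsum F C hFC N 1) (pow_nonneg hz _)
    · have := (tendsto_pow_atTop_nhds_zero_of_lt_one hz hz1).mul_const C
      simpa using this
  have := h3.const_sub (F 1)
  simpa using this

end Abstract

/-! ### The walk on the first factor -/

/-- sign vectors -/
def vec (ε : Fin 6 → Bool) : Z6 := Multiplicative.ofAdd (fun j => if ε j then (1 : ℤ) else -1)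

/-- second factor steps -/
def stB (b : Bool) : Z6 := if b then bas 0 else (bas 0)⁻¹

/-- weights on the first factor -/
noncomputable def wA : (Fin 6 → Bool) → ℝ := fun _ => 1 / 64

/-- weights on the second factor -/
noncomputable def wB : Bool → ℝ := fun _ => 1 / 2

/-- simple random walk on `ℤ` -/
noncomputable def bb : ℕ → ℤ → ℝ
  | 0, k => if k = 0 then 1 else 0
  | n + 1, k => (bb n (k - 1) + bb n (k + 1)) / 2

/-- binomial coefficients with integer lower index -/
noncomputable def Cz (n : ℕ) (j : ℤ) : ℝ := if 0 ≤ j then (n.choose j.toNat : ℝ) else 0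

theorem Cz_succ (n : ℕ) (j : ℤ) : Cz (n + 1) j = Cz n j + Cz n (j - 1) := by
  unfold Cz
  rcases lt_trichotomy j 0 with h | h | h
  · rw [if_neg (by omega), if_neg (by omega), if_neg (by omega)]; norm_num
  · subst h; simp
  · obtain ⟨m, rfl⟩ : ∃ m : ℕ, j = (m : ℤ) + 1 := ⟨(j - 1).toNat, by omega⟩
    rw [if_pos (by omega), if_pos (by omega), if_pos (by omega)]
    have e1 : ((m : ℤ) + 1).toNat = m + 1 := by omega
    have e2 : ((m : ℤ) + 1 - 1).toNat = m := by omega
    rw [e1, e2, Nat.choose_succ_succ]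
    push_cast
    ring

theorem bb_formula (n : ℕ) : ∀ j : ℤ, bb n (n - 2 * j) = Cz n j / 2 ^ n ∧ bb n (n - 2 * j - 1) = 0 := by
  induction n with
  | zero =>
    intro j
    constructor
    · unfold bb Cz
      rcases lt_trichotomy j 0 with h | h | h
      · rw [if_neg (by push_cast; omega), if_neg (by omega)]; norm_num
      · subst h; simp
      · rw [if_neg (by push_cast; omega), if_pos (by omega), Nat.choose_eq_zero_of_lt (by omega)]
        norm_num
    · unfold bb
      rw [if_neg (by push_cast; omega)]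
  | succ n ih =>
    intro j
    constructor
    · unfold bb
      have e1 : ((n + 1 : ℕ) : ℤ) - 2 * j - 1 = (n : ℤ) - 2 * j := by push_cast; ring
      have e2 : ((n + 1 : ℕ) : ℤ) - 2 * j + 1 = (n : ℤ) - 2 * (j - 1) := by push_cast; ring
      rw [e1, e2, (ih j).1, (ih (j - 1)).1, Cz_succ]
      rw [pow_succ]
      field_simp
    · unfold bb
      have e1 : ((n + 1 : ℕ) : ℤ) - 2 * j - 1 - 1 = (n : ℤ) - 2 * j - 1 := by push_cast; ring
      have e2 : ((n + 1 : ℕ) : ℤ) - 2 * j - 1 + 1 = (n : ℤ) - 2 * (j - 1) - 1 := by push_cast; ring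
      rw [e1, e2, (ih j).2, (ih (j - 1)).2]
      norm_num

/-- the central return probabilities of simple random walk on `ℤ` -/
noncomputable def cc (n : ℕ) : ℝ := (n.centralBinom : ℝ) / 4 ^ n

theorem bb_even (n : ℕ) : bb (2 * n) 0 = cc n := by
  have h := (bb_formula (2 * n) n).1
  have e : ((2 * n : ℕ) : ℤ) - 2 * (n : ℤ) = 0 := by push_cast; ring
  rw [e] at h
  rw [h]
  unfold Cz cc
  rw [if_pos (by omega), Int.toNat_natCast, Nat.centralBinom_eq_two_mul_choose, pow_mul]
  norm_num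

theorem bb_odd (n : ℕ) : bb (2 * n + 1) 0 = 0 := by
  have h := (bb_formula (2 * n + 1) n).2
  have e : ((2 * n + 1 : ℕ) : ℤ) - 2 * (n : ℤ) - 1 = 0 := by push_cast; ring
  rw [e] at h
  exact h

theorem powA (n : ℕ) (a : Z6) :
    ((conv (stepm wA vec)) ^ n) (dl Z6) a = ∏ j, bb n (Multiplicative.toAdd a j) := by
  induction n generalizing a with
  | zero =>
    rw [pow_zero]
    show dl Z6 a = _
    unfold bb
    by_cases h : a = 1
    · rw [h, dl_one]; simp
    · rw [dl_ne h]
      symm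
      rw [Finset.prod_eq_zero_iff]
      by_contra hc
      push Not at hc
      apply h
      apply Multiplicative.toAdd.injective
      funext j
      have := hc j (Finset.mem_univ _)
      by_contra hc2
      exact this (if_neg hc2)
  | succ n ih =>
    rw [pow_succ']
    show conv (stepm wA vec) _ a = _
    rw [conv_stepm]
    simp_rw [ih]
    have h1 : ∀ (ε : Fin 6 → Bool) (j : Fin 6), bb n (Multiplicative.toAdd ((vec ε)⁻¹ * a) j) =
        (fun (j : Fin 6) (b : Bool) => bb n (Multiplicative.toAdd a j - (if b then 1 else -1))) j (ε j) := by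
      intro ε j
      simp only
      congr 1
      rw [toAdd_mul, toAdd_inv, Pi.add_apply, Pi.neg_apply]
      unfold vec
      simp only [toAdd_ofAdd]
      ring
    simp_rw [h1]
    unfold wA
    rw [← Finset.mul_sum, ← Fintype.prod_sum (fun (j : Fin 6) (b : Bool) => bb n (Multiplicative.toAdd a j - (if b then 1 else -1)))]
    have h2 : ∀ j : Fin 6, bb (n + 1) (Multiplicative.toAdd a j) =
        (1 / 2) * ∑ b : Bool, bb n (Multiplicative.toAdd a j - (if b then 1 else -1)) := by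
      intro j
      rw [Fintype.sum_bool]
      simp only [if_true, Bool.false_eq_true, if_false, sub_neg_eq_add]
      show (bb n _ + bb n _) / 2 = _
      ring
    simp_rw [h2]
    rw [Finset.prod_mul_distrib]
    simp only [Finset.prod_const, Finset.card_univ, Fintype.card_fin]
    norm_num

theorem powA_one_even (n : ℕ) : ((conv (stepm wA vec)) ^ (2 * n)) (dl Z6) 1 = cc n ^ 6 := by
  rw [powA]
  simp [bb_even]

theorem powA_one_odd (n : ℕ) : ((conv (stepm wA vec)) ^ (2 * n + 1)) (dl Z6) 1 = 0 := by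
  rw [powA]
  simp [bb_odd]

theorem wA_nonneg (s : Fin 6 → Bool) : 0 ≤ wA s := by unfold wA; norm_num

theorem wA_sum : ∑ s, wA s = 1 := by
  unfold wA
  rw [Finset.sum_const, Finset.card_univ]
  simp

theorem powA_nonneg (n : ℕ) (a : Z6) : 0 ≤ ((conv (stepm wA vec)) ^ n) (dl Z6) a :=
  pow_nonneg' wA vec wA_nonneg _ dl_nonneg n a

theorem powA_le_one (n : ℕ) (a : Z6) : ((conv (stepm wA vec)) ^ n) (dl Z6) a ≤ 1 := by
  refine pow_le' wA vec wA_nonneg wA_sum _ 1 (fun x => ?_) n a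
  by_cases h : x = 1
  · rw [h, dl_one]
  · rw [dl_ne h]; norm_num

/-- Green function of the walk on the first factor -/
noncomputable def gA (ζ : ℝ) (a : Z6) : ℝ := ∑' n, ζ ^ n * ((conv (stepm wA vec)) ^ n) (dl Z6) a

theorem gA_summable {ζ : ℝ} (h0 : 0 ≤ ζ) (h1 : ζ < 1) (a : Z6) :
    Summable (fun n => ζ ^ n * ((conv (stepm wA vec)) ^ n) (dl Z6) a) := by
  refine Summable.of_nonneg_of_le (fun n => mul_nonneg (pow_nonneg h0 n) (powA_nonneg n a))
    (fun n => ?_) (summable_geometric_of_lt_one h0 h1)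
  calc ζ ^ n * ((conv (stepm wA vec)) ^ n) (dl Z6) a ≤ ζ ^ n * 1 :=
        mul_le_mul_of_nonneg_left (powA_le_one n a) (pow_nonneg h0 n)
    _ = ζ ^ n := mul_one _

theorem gA_eq {ζ : ℝ} (h0 : 0 ≤ ζ) (h1 : ζ < 1) (a : Z6) :
    gA ζ a = dl Z6 a + ζ * conv (stepm wA vec) (gA ζ) a := by
  unfold gA
  rw [(gA_summable h0 h1 a).tsum_eq_zero_add]
  congr 1
  · simp
  · rw [conv_stepm]
    rw [Finset.mul_sum]
    have h2 : ∀ s : Fin 6 → Bool, ζ * (wA s * ∑' n, ζ ^ n * ((conv (stepm wA vec)) ^ n) (dl Z6) ((vec s)⁻¹ * a)) =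
        ∑' n, ζ * (wA s * (ζ ^ n * ((conv (stepm wA vec)) ^ n) (dl Z6) ((vec s)⁻¹ * a))) := by
      intro s
      rw [tsum_mul_left, tsum_mul_left]
    simp_rw [h2]
    rw [← Summable.tsum_finsetSum]
    · refine tsum_congr fun n => ?_
      rw [pow_succ' (conv (stepm wA vec)) n]
      show ζ ^ (n + 1) * conv (stepm wA vec) _ a = _
      rw [conv_stepm, Finset.mul_sum]
      refine Finset.sum_congr rfl fun s _ => ?_
      ring
    · intro s _
      exact ((gA_summable h0 h1 _).mul_left _).mul_left _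

theorem gA_nonneg {ζ : ℝ} (h0 : 0 ≤ ζ) (a : Z6) : 0 ≤ gA ζ a :=
  tsum_nonneg fun n => mul_nonneg (pow_nonneg h0 n) (powA_nonneg n a)

/-- the return generating function of the first factor, in the variable `x = ζ²` -/
noncomputable def AA (x : ℝ) : ℝ := ∑' n : ℕ, cc n ^ 6 * x ^ n

theorem even_odd_aux (q : ℕ → ℝ) (c : ℕ → ℝ) (ζ : ℝ) (hs : Summable (fun n => ζ ^ n * q n))
    (he : ∀ n, q (2 * n) = c n) (ho : ∀ n, q (2 * n + 1) = 0) :
    ∑' n, ζ ^ n * q n = ∑' n, c n * (ζ ^ 2) ^ n := by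
  have i1 : Function.Injective (fun k : ℕ => 2 * k) := fun a b h => by
    have h' : 2 * a = 2 * b := h
    omega
  have i2 : Function.Injective (fun k : ℕ => 2 * k + 1) := fun a b h => by
    have h' : 2 * a + 1 = 2 * b + 1 := h
    omega
  have he' : Summable (fun k : ℕ => ζ ^ (2 * k) * q (2 * k)) := hs.comp_injective i1
  have ho' : Summable (fun k : ℕ => ζ ^ (2 * k + 1) * q (2 * k + 1)) := hs.comp_injective i2
  rw [← tsum_even_add_odd (f := fun n => ζ ^ n * q n) he' ho']
  have e1 : ∀ k, ζ ^ (2 * k + 1) * q (2 * k + 1) = 0 := fun k => by rw [ho, mul_zero]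
  have e2 : ∀ k, ζ ^ (2 * k) * q (2 * k) = c k * (ζ ^ 2) ^ k := fun k => by
    rw [he, mul_comm, pow_mul]
  rw [tsum_congr e1, tsum_zero, add_zero, tsum_congr e2]

theorem gA_one {ζ : ℝ} (h0 : 0 ≤ ζ) (h1 : ζ < 1) : gA ζ 1 = AA (ζ ^ 2) :=
  even_odd_aux _ _ ζ (gA_summable h0 h1 1) powA_one_even powA_one_odd

theorem gA_one_ge {ζ : ℝ} (h0 : 0 ≤ ζ) (h1 : ζ < 1) : 1 ≤ gA ζ 1 := by
  unfold gA
  have := (gA_summable h0 h1 1).le_tsum 0 (fun n _ => mul_nonneg (pow_nonneg h0 n) (powA_nonneg n 1))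
  simpa [dl_one] using this

theorem gA_small {ζ : ℝ} (h0 : 0 ≤ ζ) (h1 : ζ ≤ 1 / 2) (a : Z6) : gA ζ a ≤ gA ζ 1 := by
  by_cases h : a = 1
  · rw [h]
  have h1' : ζ < 1 := by linarith
  refine le_trans ?_ (gA_one_ge h0 h1')
  unfold gA
  rw [(gA_summable h0 h1' a).tsum_eq_zero_add]
  have e : ζ ^ 0 * ((conv (stepm wA vec)) ^ 0) (dl Z6) a = 0 := by
    simp [dl_ne h]
  rw [e, zero_add]
  have hs : Summable (fun n : ℕ => ζ ^ (n + 1)) :=
    (summable_nat_add_iff 1).2 (summable_geometric_of_lt_one h0 h1')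
  calc ∑' n : ℕ, ζ ^ (n + 1) * ((conv (stepm wA vec)) ^ (n + 1)) (dl Z6) a
      ≤ ∑' n : ℕ, ζ ^ (n + 1) := by
        refine Summable.tsum_le_tsum (fun n => ?_) ((summable_nat_add_iff 1).2
          (gA_summable h0 h1' a)) hs
        calc _ ≤ ζ ^ (n + 1) * 1 :=
              mul_le_mul_of_nonneg_left (powA_le_one _ a) (pow_nonneg h0 _)
          _ = _ := mul_one _
    _ ≤ 1 := by
        have : ∑' n : ℕ, ζ ^ (n + 1) = ζ / (1 - ζ) := by
          simp_rw [pow_succ]
          rw [tsum_mul_right, tsum_geometric_of_lt_one h0 h1']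
          field_simp
        rw [this, div_le_one (by linarith)]
        linarith

end Pool.Agent.TH979
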