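import Pool.Agent.TH979.Walk

set_option autoImplicit false

/-! The generating function of the return probabilities of the walk on the free product. -/

namespace Pool.Agent.TH979

open Finset

/-- decay function on the second factor -/
noncomputable def pB (r : ℝ) (a : Z6) : ℝ :=
  if ∀ j : Fin 6, j ≠ 0 → Multiplicative.toAdd a j = 0 then
    r ^ (Multiplicative.toAdd a 0).natAbs else 0

theorem pB_one (r : ℝ) : pB r 1 = 1 := by simp [pB]

theorem pB_nonneg {r : ℝ} (hr : 0 ≤ r) (a : Z6) : 0 ≤ pB r a := by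
  unfold pB; split_ifs <;> positivity

theorem pB_le {r : ℝ} (hr : 0 ≤ r) (hr1 : r ≤ 1) (a : Z6) : pB r a ≤ 1 := by
  unfold pB
  split_ifs
  · exact pow_le_one₀ hr hr1
  · norm_num

theorem toAdd_bas (j : Fin 6) : Multiplicative.toAdd (bas j) = Pi.single j (1 : ℤ) := rfl

theorem pB_conv {r S y : ℝ} (hr : 0 < r) (h1 : (r + r⁻¹) / 2 = S / y) (h2 : r = S / y * (1 - 1 / S))
    (a : Z6) : conv (stepm wB stB) (pB r) a = S / y * (pB r a - 1 / S * dl Z6 a) := by
  rw [conv_stepm, Fintype.sum_bool]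
  unfold wB stB
  simp only [if_true, Bool.false_eq_true, if_false, inv_inv]
  have c1 : (∀ j : Fin 6, j ≠ 0 → Multiplicative.toAdd ((bas 0)⁻¹ * a) j = 0) ↔
      ∀ j : Fin 6, j ≠ 0 → Multiplicative.toAdd a j = 0 := by
    refine forall_congr' fun j => forall_congr' fun hj => ?_
    rw [toAdd_mul, toAdd_inv, toAdd_bas, Pi.add_apply, Pi.neg_apply, Pi.single_eq_of_ne hj]
    simp
  have c2 : (∀ j : Fin 6, j ≠ 0 → Multiplicative.toAdd (bas 0 * a) j = 0) ↔
      ∀ j : Fin 6, j ≠ 0 → Multiplicative.toAdd a j = 0 := by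
    refine forall_congr' fun j => forall_congr' fun hj => ?_
    rw [toAdd_mul, toAdd_bas, Pi.add_apply, Pi.single_eq_of_ne hj]
    simp
  have e1 : Multiplicative.toAdd ((bas 0)⁻¹ * a) 0 = Multiplicative.toAdd a 0 - 1 := by
    rw [toAdd_mul, toAdd_inv, toAdd_bas, Pi.add_apply, Pi.neg_apply, Pi.single_eq_same]
    ring
  have e2 : Multiplicative.toAdd (bas 0 * a) 0 = Multiplicative.toAdd a 0 + 1 := by
    rw [toAdd_mul, toAdd_bas, Pi.add_apply, Pi.single_eq_same]
    ring
  unfold pB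
  rw [e1, e2]
  simp only [c1, c2]
  by_cases h : ∀ j : Fin 6, j ≠ 0 → Multiplicative.toAdd a j = 0
  · rw [if_pos h, if_pos h, if_pos h]
    by_cases h3 : Multiplicative.toAdd a 0 = 0
    · have ha : a = 1 := by
        apply Multiplicative.toAdd.injective
        funext j
        by_cases hj : j = 0
        · rw [hj]; exact h3
        · exact h j hj
      rw [h3, ha, dl_one]
      norm_num
      rw [h2]
      ring
    · have ha : a ≠ 1 := by
        intro hc; apply h3; rw [hc]; rfl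
      rw [dl_ne ha, mul_zero, sub_zero]
      obtain ⟨m, hm⟩ : ∃ m : ℕ, (Multiplicative.toAdd a 0).natAbs = m + 1 :=
        ⟨(Multiplicative.toAdd a 0).natAbs - 1, by omega⟩
      have key : r ^ (Multiplicative.toAdd a 0 - 1).natAbs +
          r ^ (Multiplicative.toAdd a 0 + 1).natAbs = r ^ m + r ^ (m + 2) := by
        rcases lt_or_gt_of_ne h3 with h4 | h4
        · have h5 : (Multiplicative.toAdd a 0 - 1).natAbs = m + 2 := by omega
          have h6 : (Multiplicative.toAdd a 0 + 1).natAbs = m := by omega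
          rw [h5, h6, add_comm]
        · have h5 : (Multiplicative.toAdd a 0 - 1).natAbs = m := by omega
          have h6 : (Multiplicative.toAdd a 0 + 1).natAbs = m + 2 := by omega
          rw [h5, h6]
      rw [hm, ← h1]
      have : r ^ (m + 1) * r⁻¹ = r ^ m := by
        rw [pow_succ, mul_assoc, mul_inv_cancel₀ hr.ne', mul_one]
      calc 1 / 2 * r ^ (Multiplicative.toAdd a 0 - 1).natAbs +
          1 / 2 * r ^ (Multiplicative.toAdd a 0 + 1).natAbs = (r ^ m + r ^ (m + 2)) / 2 := by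
            rw [← key]; ring
        _ = _ := by rw [← this]; ring
  · rw [if_neg h, if_neg h, if_neg h]
    have ha : a ≠ 1 := by
      intro hc; apply h; rw [hc]; intro j _; rfl
    rw [dl_ne ha]
    ring

/-- decay function on the first factor -/
noncomputable def pA (ζ : ℝ) (a : Z6) : ℝ := gA ζ a / gA ζ 1

theorem pA_conv {ζ : ℝ} (h0 : 0 < ζ) (h1 : ζ < 1) (a : Z6) :
    conv (stepm wA vec) (pA ζ) a = 1 / ζ * (pA ζ a - 1 / gA ζ 1 * dl Z6 a) := by
  have hg : (0 : ℝ) < gA ζ 1 := lt_of_lt_of_le one_pos (gA_one_ge h0.le h1)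
  have e : pA ζ = (gA ζ 1)⁻¹ • gA ζ := by
    funext b; unfold pA; simp; ring
  have h := gA_eq h0.le h1 a
  rw [e, map_smul]
  simp only [Pi.smul_apply, smul_eq_mul]
  have h3 : conv (stepm wA vec) (gA ζ) a = (gA ζ a - dl Z6 a) / ζ := by
    rw [eq_div_iff h0.ne']
    linarith
  rw [h3]
  field_simp

/-- the syllable functions -/
noncomputable def pp (ζ r : ℝ) : Bool → Z6 → ℝ := fun b => if b then pA ζ else pB r

theorem pp_one {ζ r : ℝ} (h0 : 0 ≤ ζ) (h1 : ζ < 1) (i : Bool) : pp ζ r i 1 = 1 := by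
  unfold pp
  cases i
  · simp [pB_one]
  · have hg : (0 : ℝ) < gA ζ 1 := lt_of_lt_of_le one_pos (gA_one_ge h0 h1)
    simp only [if_true, pA]
    exact div_self hg.ne'

/-- steps of the walk on the free product -/
def yI : (Fin 6 → Bool) ⊕ Bool → GG := Sum.elim (fun ε => em true (vec ε)) (fun b => em false (stB b))

/-- weights of the steps -/
noncomputable def wI (t : ℝ) : (Fin 6 → Bool) ⊕ Bool → ℝ :=
  Sum.elim (fun ε => 1 / (1 + t) * wA ε) (fun b => t / (1 + t) * wB b)

theorem wI_nonneg {t : ℝ} (ht : 0 < t) (s : (Fin 6 → Bool) ⊕ Bool) : 0 ≤ wI t s := by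
  cases s
  · simp only [wI, Sum.elim_inl, wA]; positivity
  · simp only [wI, Sum.elim_inr, wB]; positivity

theorem wI_sum {t : ℝ} (ht : 0 < t) : ∑ s, wI t s = 1 := by
  rw [Fintype.sum_sum_type]
  simp only [wI, Sum.elim_inl, Sum.elim_inr]
  rw [← Finset.mul_sum, ← Finset.mul_sum, wA_sum, Fintype.sum_bool]
  unfold wB
  field_simp
  ring

theorem conv_mf (t : ℝ) (φ : Bool → Z6 → ℝ) (hφ : ∀ i, φ i 1 = 1) (x : GG) :
    conv (stepm (wI t) yI) (mf φ) x =
      1 / (1 + t) * (conv (stepm wA vec) (φ true) (hd true x) * mf φ (tl true x)) +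
      t / (1 + t) * (conv (stepm wB stB) (φ false) (hd false x) * mf φ (tl false x)) := by
  rw [conv_stepm, Fintype.sum_sum_type, conv_stepm, conv_stepm]
  congr 1
  · rw [Finset.sum_mul, Finset.mul_sum]
    refine Finset.sum_congr rfl fun ε _ => ?_
    simp only [wI, yI, Sum.elim_inl]
    rw [← map_inv, mf_em_mul φ hφ]
    ring
  · rw [Finset.sum_mul, Finset.mul_sum]
    refine Finset.sum_congr rfl fun ε _ => ?_
    simp only [wI, yI, Sum.elim_inr]
    rw [← map_inv, mf_em_mul φ hφ]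
    ring

theorem mf_nonneg (φ : Bool → Z6 → ℝ) (hφ : ∀ i a, 0 ≤ φ i a) (x : GG) : 0 ≤ mf φ x := by
  unfold mf
  refine List.prod_nonneg ?_
  intro c hc
  obtain ⟨p, _, rfl⟩ := List.mem_map.1 hc
  exact hφ _ _

theorem mf_le_one (φ : Bool → Z6 → ℝ) (hφ : ∀ i a, 0 ≤ φ i a) (hφ1 : ∀ i a, φ i a ≤ 1) (x : GG) :
    mf φ x ≤ 1 := by
  unfold mf
  generalize syl x = l
  induction l with
  | nil => simp
  | cons p l ih =>
    rw [List.map_cons, List.prod_cons]
    have h1 : 0 ≤ (l.map (fun p => φ p.1 p.2)).prod := by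
      refine List.prod_nonneg ?_
      intro c hc
      obtain ⟨p, _, rfl⟩ := List.mem_map.1 hc
      exact hφ _ _
    exact mul_le_one₀ (hφ1 _ _) h1 ih

/-- `S = √(1 + t² x A(x)²)` -/
noncomputable def SSq (t x : ℝ) : ℝ := Real.sqrt (1 + t ^ 2 * (x * AA x ^ 2))

/-- `Φ = A + S - 1` -/
noncomputable def Ph (t x : ℝ) : ℝ := AA x + SSq t x - 1

/-- `Z = z² = (1+t)² x A² / Φ²` -/
noncomputable def Zf (t x : ℝ) : ℝ := (1 + t) ^ 2 * (x * AA x ^ 2) / Ph t x ^ 2

/-- the solution of the resolvent equation -/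
noncomputable def Fs (t ζ : ℝ) : GG → ℝ := fun x =>
  Ph t (ζ ^ 2) * mf (pp ζ ((SSq t (ζ ^ 2) - 1) / (t * ζ * AA (ζ ^ 2)))) x

theorem resolvent (t ζ : ℝ) (ht : 0 < t) (h0 : 0 < ζ) (h1 : ζ < 1) :
    (∀ x, 0 ≤ Fs t ζ x) ∧ Fs t ζ 1 = Ph t (ζ ^ 2) ∧
    Fs t ζ = dl GG + ((1 + t) * ζ * AA (ζ ^ 2) / Ph t (ζ ^ 2)) • conv (stepm (wI t) yI) (Fs t ζ) ∧
    (ζ ≤ 1 / 2 → ∀ x, Fs t ζ x ≤ Ph t (ζ ^ 2)) ∧ 1 ≤ Ph t (ζ ^ 2) ∧ 1 ≤ AA (ζ ^ 2) := by
  have hgA := gA_one h0.le h1
  have hA1 : 1 ≤ AA (ζ ^ 2) := by rw [← hgA]; exact gA_one_ge h0.le h1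
  set Av := AA (ζ ^ 2) with hAv
  set y := t * ζ * Av with hy
  have hy0 : 0 < y := by positivity
  have hSdef : SSq t (ζ ^ 2) = Real.sqrt (1 + y ^ 2) := by
    unfold SSq; congr 1; rw [hy, ← hAv]; ring
  set S := SSq t (ζ ^ 2) with hS
  have hS2 : S ^ 2 = 1 + y ^ 2 := by rw [hSdef]; exact Real.sq_sqrt (by positivity)
  have hS0 : 0 ≤ S := by rw [hSdef]; exact Real.sqrt_nonneg _
  have hS1 : 1 < S := by
    have : (0 : ℝ) < y ^ 2 := by positivity
    nlinarith
  set r := (S - 1) / y with hr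
  have hr0 : 0 < r := div_pos (by linarith) hy0
  have hr1 : r ≤ 1 := by
    rw [hr, div_le_one hy0]
    nlinarith
  have hrinv : r⁻¹ = (S + 1) / y := by
    rw [hr, inv_div]
    rw [div_eq_div_iff (by linarith) hy0.ne']
    nlinarith
  have hB1 : (r + r⁻¹) / 2 = S / y := by
    rw [hrinv, hr]; field_simp; ring
  have hB2 : r = S / y * (1 - 1 / S) := by
    rw [hr]
    field_simp
  have hPh : Ph t (ζ ^ 2) = Av + S - 1 := rfl
  have hPh1 : 1 ≤ Ph t (ζ ^ 2) := by rw [hPh]; linarith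
  have hPh0 : 0 < Ph t (ζ ^ 2) := by linarith
  have hpp1 : ∀ i, pp ζ r i 1 = 1 := pp_one h0.le h1
  have hppn : ∀ i a, 0 ≤ pp ζ r i a := by
    intro i a
    unfold pp
    cases i
    · simpa using pB_nonneg hr0.le a
    · simp only [if_true, pA]
      exact div_nonneg (gA_nonneg h0.le a) (gA_nonneg h0.le 1)
  refine ⟨fun x => mul_nonneg hPh0.le (mf_nonneg _ hppn x), ?_, ?_, ?_, hPh1, hA1⟩
  · unfold Fs; rw [mf_one, mul_one]
  · funext x
    have hF : Fs t ζ = Ph t (ζ ^ 2) • mf (pp ζ r) := rfl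
    rw [hF, map_smul]
    simp only [Pi.add_apply, Pi.smul_apply, smul_eq_mul]
    rw [conv_mf t _ hpp1]
    have eA : conv (stepm wA vec) (pp ζ r true) (hd true x) =
        1 / ζ * (pp ζ r true (hd true x) - 1 / Av * dl Z6 (hd true x)) := by
      have := pA_conv h0 h1 (hd true x)
      rw [hgA] at this
      exact this
    have eB : conv (stepm wB stB) (pp ζ r false) (hd false x) =
        S / y * (pp ζ r false (hd false x) - 1 / S * dl Z6 (hd false x)) :=
      pB_conv hr0 hB1 hB2 (hd false x)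
    rw [eA, eB]
    have dA := mf_dec (pp ζ r) hpp1 true x
    have dB := mf_dec (pp ζ r) hpp1 false x
    set M := mf (pp ζ r) x with hM
    have kA : dl Z6 (hd true x) * mf (pp ζ r) (tl true x) = dl Z6 (hd true x) * M := by
      by_cases h : hd true x = 1
      · rw [syl_of_hd_eq_one h]
      · rw [dl_ne h]; ring
    have kB : dl Z6 (hd false x) * mf (pp ζ r) (tl false x) = dl Z6 (hd false x) * M := by
      by_cases h : hd false x = 1
      · rw [syl_of_hd_eq_one h]
      · rw [dl_ne h]; ring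
    have mA : 1 / ζ * (pp ζ r true (hd true x) - 1 / Av * dl Z6 (hd true x)) *
        mf (pp ζ r) (tl true x) = 1 / ζ * (1 - 1 / Av * dl Z6 (hd true x)) * M := by
      calc _ = 1 / ζ * (pp ζ r true (hd true x) * mf (pp ζ r) (tl true x) -
            1 / Av * (dl Z6 (hd true x) * mf (pp ζ r) (tl true x))) := by ring
        _ = _ := by rw [← dA, kA]; ring
    have mB : S / y * (pp ζ r false (hd false x) - 1 / S * dl Z6 (hd false x)) *
        mf (pp ζ r) (tl false x) = S / y * (1 - 1 / S * dl Z6 (hd false x)) * M := by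
      calc _ = S / y * (pp ζ r false (hd false x) * mf (pp ζ r) (tl false x) -
            1 / S * (dl Z6 (hd false x) * mf (pp ζ r) (tl false x))) := by ring
        _ = _ := by rw [← dB, kB]; ring
    rw [mA, mB]
    have hcase : (x = 1 ∧ dl GG x = 1 ∧ dl Z6 (hd true x) = 1 ∧ dl Z6 (hd false x) = 1 ∧ M = 1) ∨
        (dl GG x = 0 ∧ dl Z6 (hd true x) = 0 ∧ dl Z6 (hd false x) = 1) ∨
        (dl GG x = 0 ∧ dl Z6 (hd true x) = 1 ∧ dl Z6 (hd false x) = 0) := by
      by_cases hx : x = 1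
      · left
        refine ⟨hx, ?_, ?_, ?_, ?_⟩
        · rw [hx, dl_one]
        · rw [hx, hd_one, dl_one]
        · rw [hx, hd_one, dl_one]
        · rw [hM, hx, mf_one]
      · right
        by_cases ht' : hd true x = 1
        · right
          have hf' : hd false x ≠ 1 := by
            intro hc
            exact hx (hd_eq_one_all (fun j => by cases j <;> assumption))
          exact ⟨dl_ne hx, by rw [ht', dl_one], dl_ne hf'⟩
        · left
          have hf' : hd false x = 1 := hd_other ht'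
          exact ⟨dl_ne hx, dl_ne ht', by rw [hf', dl_one]⟩
    have hAv0 : Av ≠ 0 := by linarith
    have hS0' : S ≠ 0 := by linarith
    have h1t : 1 + t ≠ 0 := by positivity
    rw [hPh]
    have hP0 : Av + S - 1 ≠ 0 := by linarith
    have zt : t / (1 + t) * (S / y) = S / ((1 + t) * (ζ * Av)) := by
      rw [hy]; field_simp
    rcases hcase with ⟨_, g1, g2, g3, g4⟩ | ⟨g1, g2, g3⟩ | ⟨g1, g2, g3⟩
    · rw [g1, g2, g3, g4]
      have : t / (1 + t) * (S / y * (1 - 1 / S * 1) * 1) = (S - 1) / ((1 + t) * (ζ * Av)) := by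
        calc _ = t / (1 + t) * (S / y) * (1 - 1 / S) := by ring
          _ = _ := by rw [zt]; field_simp
      rw [this]
      field_simp
      ring
    · rw [g1, g2, g3]
      have : t / (1 + t) * (S / y * (1 - 1 / S * 1) * M) = (S - 1) / ((1 + t) * (ζ * Av)) * M := by
        calc _ = t / (1 + t) * (S / y) * (1 - 1 / S) * M := by ring
          _ = _ := by rw [zt]; field_simp
      rw [this]
      field_simp
      ring
    · rw [g1, g2, g3]
      have : t / (1 + t) * (S / y * (1 - 1 / S * 0) * M) = S / ((1 + t) * (ζ * Av)) * M := by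
        calc _ = t / (1 + t) * (S / y) * M := by ring
          _ = _ := by rw [zt]
      rw [this]
      field_simp
      ring
  · intro hζ x
    have hpple : ∀ i a, pp ζ r i a ≤ 1 := by
      intro i a
      unfold pp
      cases i
      · simpa using pB_le hr0.le hr1 a
      · simp only [if_true, pA]
        have hg : (0 : ℝ) < gA ζ 1 := lt_of_lt_of_le one_pos (gA_one_ge h0.le h1)
        rw [div_le_one hg]
        exact gA_small h0.le hζ a
    calc Fs t ζ x = Ph t (ζ ^ 2) * mf (pp ζ r) x := rfl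
      _ ≤ Ph t (ζ ^ 2) * 1 := mul_le_mul_of_nonneg_left (mf_le_one _ hppn hpple x) hPh0.le
      _ = _ := mul_one _

end Pool.Agent.TH979
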