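import Mathlib

set_option autoImplicit false

/-! Reduced words in the free product of two copies of a group. -/

namespace Pool.Agent.TH979

open Monoid Monoid.CoprodI

variable {A : Type} [Group A] [DecidableEq A]

/-- the free product of two copies of `A` -/
abbrev FP (A : Type) [Group A] : Type := Monoid.CoprodI (fun _ : Bool => A)

/-- the embedding of the `i`-th copy -/
def em (i : Bool) : A →* FP A := Monoid.CoprodI.of (M := fun _ : Bool => A) (i := i)

/-- first syllable of `x` if it comes from the copy `i`, else `1` -/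
def hd (i : Bool) (x : FP A) : A := (Word.equivPair (M := fun _ : Bool => A) i (Word.equiv x)).head

/-- what remains after removal of the first syllable if it comes from the copy `i` -/
def tl (i : Bool) (x : FP A) : FP A :=
  (Word.equivPair (M := fun _ : Bool => A) i (Word.equiv x)).tail.prod

theorem equiv_mul (x y : FP A) : Word.equiv (M := fun _ : Bool => A) (x * y) = x • Word.equiv y := by
  show (x * y) • (Word.empty : Word (fun _ : Bool => A)) = x • (y • Word.empty)
  rw [mul_smul]

theorem equiv_prod (w : Word (fun _ : Bool => A)) : Word.equiv w.prod = w :=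
  Word.equiv.apply_symm_apply w

theorem equivPair_em_mul (i : Bool) (a : A) (x : FP A) :
    Word.equivPair (M := fun _ : Bool => A) i (Word.equiv (em i a * x)) =
      ⟨a * hd i x, (Word.equivPair (M := fun _ : Bool => A) i (Word.equiv x)).tail,
        (Word.equivPair (M := fun _ : Bool => A) i (Word.equiv x)).fstIdx_ne⟩ := by
  rw [equiv_mul]
  exact Word.equivPair_smul_same (M := fun _ : Bool => A) a (Word.equiv x)

theorem hd_em_mul (i : Bool) (a : A) (x : FP A) : hd i (em i a * x) = a * hd i x := by
  unfold hd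
  rw [equivPair_em_mul]
  rfl

theorem tl_em_mul (i : Bool) (a : A) (x : FP A) : tl i (em i a * x) = tl i x := by
  unfold tl
  rw [equivPair_em_mul]

theorem em_hd_mul_tl (i : Bool) (x : FP A) : em i (hd i x) * tl i x = x := by
  have h := Word.equivPair_head_smul_equivPair_tail (M := fun _ : Bool => A) (i := i)
    (Word.equiv x)
  apply (Word.equiv (M := fun _ : Bool => A)).injective
  rw [equiv_mul]
  unfold tl
  rw [equiv_prod]
  exact h

theorem tl_eq (i : Bool) (x : FP A) : tl i x = em i (hd i x)⁻¹ * x := by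
  conv_rhs => rw [← em_hd_mul_tl i x]
  rw [← mul_assoc, hd_em_mul]
  have h2 : hd i (tl i x) = 1 := by
    unfold hd tl
    rw [equiv_prod, Word.equivPair_tail]
  rw [h2, mul_one, ← map_mul, inv_mul_cancel, map_one, one_mul]

theorem hd_tl (i : Bool) (x : FP A) : hd i (tl i x) = 1 := by
  unfold hd tl
  rw [equiv_prod, Word.equivPair_tail]

theorem hd_one (i : Bool) : hd i (1 : FP A) = 1 := by
  have h := hd_tl i (1 : FP A)
  have h1 : tl i (1 : FP A) = em i (hd i 1)⁻¹ * 1 := tl_eq i 1
  unfold hd
  have e : Word.equiv (1 : FP A) = (Word.empty : Word (fun _ : Bool => A)) := by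
    show (1 : FP A) • (Word.empty : Word (fun _ : Bool => A)) = _
    rw [one_smul]
  rw [e, Word.equivPair_eq_of_fstIdx_ne (by simp [Word.fstIdx, Word.empty])]

/-- the list of syllables -/
def syl (x : FP A) : List (Σ _ : Bool, A) := (Word.equiv (M := fun _ : Bool => A) x).toList

theorem syl_one : syl (1 : FP A) = [] := by
  unfold syl
  have e : Word.equiv (1 : FP A) = (Word.empty : Word (fun _ : Bool => A)) := by
    show (1 : FP A) • (Word.empty : Word (fun _ : Bool => A)) = _
    rw [one_smul]
  rw [e]; rfl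

theorem syl_of_hd_eq_one {i : Bool} {x : FP A} (h : hd i x = 1) : tl i x = x := by
  rw [tl_eq, h, inv_one, map_one, one_mul]

theorem syl_of_hd_ne_one {i : Bool} {x : FP A} (h : hd i x ≠ 1) :
    syl x = ⟨i, hd i x⟩ :: syl (tl i x) := by
  have h1 : Word.rcons (Word.equivPair (M := fun _ : Bool => A) i (Word.equiv x)) = Word.equiv x := by
    rw [← Word.equivPair_symm, Equiv.symm_apply_apply]
  unfold syl
  conv_lhs => rw [← h1]
  have h2 : Word.equiv (M := fun _ : Bool => A) (tl i x) =
      (Word.equivPair (M := fun _ : Bool => A) i (Word.equiv x)).tail := by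
    unfold tl
    rw [equiv_prod]
  rw [h2, Word.rcons, dif_neg (show ¬ (Word.equivPair (M := fun _ : Bool => A) i
    (Word.equiv x)).head = 1 from h)]
  rfl

theorem hd_other {i : Bool} {x : FP A} (h : hd i x ≠ 1) : hd (!i) x = 1 := by
  by_contra h2
  have e1 := syl_of_hd_ne_one h
  have e2 := syl_of_hd_ne_one h2
  rw [e1] at e2
  simp at e2

theorem exists_hd_ne_one {x : FP A} (h : x ≠ 1) : ∃ i, hd i x ≠ 1 := by
  have h1 : Word.equiv (M := fun _ : Bool => A) x ≠ Word.empty := by
    intro h2
    apply h
    apply (Word.equiv (M := fun _ : Bool => A)).injective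
    rw [h2]
    show _ = (1 : FP A) • (Word.empty : Word (fun _ : Bool => A))
    rw [one_smul]
  cases hw : (Word.equiv (M := fun _ : Bool => A) x).toList with
  | nil => exact absurd (Word.ext (by rw [hw]; rfl)) h1
  | cons p l =>
    refine ⟨p.1, fun h3 => ?_⟩
    have h4 : (Word.equiv (M := fun _ : Bool => A) x).fstIdx = some p.1 := by
      simp [Word.fstIdx, hw]
    have h5 : Word.rcons (Word.equivPair (M := fun _ : Bool => A) p.1 (Word.equiv x)) =
        Word.equiv x := by
      rw [← Word.equivPair_symm, Equiv.symm_apply_apply]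
    rw [Word.rcons, dif_pos (show (Word.equivPair (M := fun _ : Bool => A) p.1
      (Word.equiv x)).head = 1 from h3)] at h5
    have h6 := (Word.equivPair (M := fun _ : Bool => A) p.1 (Word.equiv x)).fstIdx_ne
    rw [h5] at h6
    exact h6 h4

theorem hd_eq_one_all {x : FP A} (h : ∀ i, hd i x = 1) : x = 1 := by
  by_contra h2
  obtain ⟨i, hi⟩ := exists_hd_ne_one h2
  exact hi (h i)

/-- number of syllables -/
def len (x : FP A) : ℕ := (syl x).length

theorem len_one : len (1 : FP A) = 0 := by simp [len, syl_one]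

theorem len_of_hd_ne_one {i : Bool} {x : FP A} (h : hd i x ≠ 1) : len x = len (tl i x) + 1 := by
  rw [len, syl_of_hd_ne_one h]; rfl

theorem eq_one_of_len {x : FP A} (h : len x = 0) : x = 1 := by
  by_contra h2
  obtain ⟨i, hi⟩ := exists_hd_ne_one h2
  rw [len_of_hd_ne_one hi] at h
  omega

theorem hd_em_mul' {i : Bool} {a : A} {x : FP A} (h : hd i x = 1) : hd i (em i a * x) = a := by
  rw [hd_em_mul, h, mul_one]

theorem tl_em_mul' {i : Bool} {a : A} {x : FP A} (h : hd i x = 1) : tl i (em i a * x) = x := by
  rw [tl_em_mul, syl_of_hd_eq_one h]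

theorem len_em_mul {i : Bool} {a : A} {x : FP A} (h : hd i x = 1) (ha : a ≠ 1) :
    len (em i a * x) = len x + 1 := by
  have h1 : hd i (em i a * x) ≠ 1 := by rwa [hd_em_mul' h]
  rw [len_of_hd_ne_one h1, tl_em_mul' h]

/-- the set of elements that do not begin with a syllable of the copy `i` -/
def Hs (i : Bool) (A : Type) [Group A] [DecidableEq A] : Type := {x : FP A // hd i x = 1}

/-- decomposition of the free product -/
def dec (i : Bool) : FP A ≃ A × Hs i A where
  toFun x := (hd i x, ⟨tl i x, hd_tl i x⟩)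
  invFun p := em i p.1 * p.2.1
  left_inv x := em_hd_mul_tl i x
  right_inv p := by
    apply Prod.ext
    · exact hd_em_mul' p.2.2
    · apply Subtype.ext
      exact tl_em_mul' p.2.2

/-- multiplicative functions on reduced words -/
noncomputable def mf (φ : Bool → A → ℝ) (x : FP A) : ℝ := ((syl x).map (fun p => φ p.1 p.2)).prod

theorem mf_one (φ : Bool → A → ℝ) : mf φ 1 = 1 := by simp [mf, syl_one]

theorem mf_dec (φ : Bool → A → ℝ) (hφ : ∀ i, φ i 1 = 1) (i : Bool) (x : FP A) :
    mf φ x = φ i (hd i x) * mf φ (tl i x) := by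
  by_cases h : hd i x = 1
  · rw [syl_of_hd_eq_one h, h, hφ, one_mul]
  · unfold mf
    rw [syl_of_hd_ne_one h]
    simp

theorem mf_em_mul (φ : Bool → A → ℝ) (hφ : ∀ i, φ i 1 = 1) (i : Bool) (a : A) (x : FP A) :
    mf φ (em i a * x) = φ i (a * hd i x) * mf φ (tl i x) := by
  rw [mf_dec φ hφ i, hd_em_mul, tl_em_mul]

/-- additive functions on reduced words -/
def af (φ : A → ℕ) (x : FP A) : ℕ := ((syl x).map (fun p => φ p.2)).sum

theorem af_one (φ : A → ℕ) : af φ (1 : FP A) = 0 := by simp [af, syl_one]

theorem af_dec (φ : A → ℕ) (hφ : φ 1 = 0) (i : Bool) (x : FP A) :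
    af φ x = φ (hd i x) + af φ (tl i x) := by
  by_cases h : hd i x = 1
  · rw [syl_of_hd_eq_one h, h, hφ, zero_add]
  · unfold af
    rw [syl_of_hd_ne_one h]
    simp

theorem af_em_mul (φ : A → ℕ) (hφ : φ 1 = 0) (i : Bool) (a : A) (x : FP A) :
    af φ (em i a * x) = φ (a * hd i x) + af φ (tl i x) := by
  rw [af_dec φ hφ i, hd_em_mul, tl_em_mul]

end Pool.Agent.TH979
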